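import Pool.Agent.Lib.MP_131fce_co.FlagH.Fin

/-!
# Classification with a canonical last vertex, and tables of codes
-/

set_option autoImplicit false

namespace Pool.Agent.ICyc.FlagH

open Finset Pool.Agent.ICyc.Flag

/-- the permutation coded by `c` maps the graph `H'` to the extension of `H` by `s` -/
def perOK (N H s c H' : ℕ) : Bool :=
  and (allB (Nat.succ N) (fun v => anyB (Nat.succ N) (fun i => Nat.beq (pd c i) v)))
    (allB (Nat.succ N) (fun i => allB (Nat.succ N) (fun j =>
      Nat.beq (adjM H' i j) (extM N H s (pd c i) (pd c j)))))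

/-- every extension of `H` whose new vertex has the largest walk invariant is an entry of the
table `U` of codes; `tab` contains the index (from bit 40 on) and the permutation -/
noncomputable def clsW (m : ℕ) (U : FT) (len H : ℕ) (tab : FT) : Bool :=
  dfsH (Nat.succ m) H m (fun s Ha Hb =>
    or (not (geAll (Nat.succ m) (wp (Nat.succ m) Ha Hb)
        (Nat.shiftRight (wp (Nat.succ m) Ha Hb) (Nat.mul 40 m))))
      (and (Nat.blt (Nat.shiftRight (tab.get s) 40) len)
        (perOK m H s (Nat.mod (tab.get s) (Nat.pow 2 40)) (U.get (Nat.shiftRight (tab.get s) 40)))))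
    m 0 0 (bA (Nat.succ m) m H) (bB (Nat.succ m) m H)

/-- the check of a list of codes with tables -/
noncomputable def clsWL (m : ℕ) (U : FT) (len : ℕ) (Rs : List ℕ) : List FT → Bool :=
  List.rec (motive := fun _ => List FT → Bool) (fun _ => true)
    (fun H _ ih tabs => List.rec (motive := fun _ => Bool) false
      (fun tab tabs' _ => and (clsW m U len H tab) (ih tabs')) tabs) Rs

theorem clsWL_mem (m : ℕ) (U : FT) (len : ℕ) (Rs : List ℕ) : ∀ tabs : List FT,
    clsWL m U len Rs tabs = true → ∀ H ∈ Rs, ∃ tab, clsW m U len H tab = true := by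
  induction Rs with
  | nil => intro tabs _ H hH; simp at hH
  | cons H0 Rs ih =>
    intro tabs h H hH
    cases tabs with
    | nil => exact absurd h (by change ¬ false = true; simp)
    | cons tab tabs =>
      have h' : (clsW m U len H0 tab && clsWL m U len Rs tabs) = true := h
      rw [Bool.and_eq_true] at h'
      rcases List.mem_cons.mp hH with h1 | h1
      · exact ⟨tab, h1 ▸ h'.1⟩
      · exact ih tabs h'.2 H h1

/-- every map from `Fin (m + 1)` to the vertices is, up to a permutation, the extension of a code in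
`R` by a vertex with the largest walk invariant -/
theorem exists_canon {V : Type} {m : ℕ} {A : V → V → ℕ} (hsym : ∀ u v, A u v = A v u)
    (hirr : ∀ v, A v v = 0) (h01 : ∀ u v, A u v ≤ 1)
    (htri : ∀ u v w, A u v = 1 → A v w = 1 → A u w = 1 → False) {R : ℕ → Prop} (hR : Cls A m R)
    (φ : Fin (m + 1) → V) : ∃ H, R H ∧ ∃ (χ : Fin (m + 1) → V) (s : ℕ),
      (List.ofFn χ).Perm (List.ofFn φ) ∧ s < 2 ^ m ∧ Indep m H s ∧
      (∀ i j : Fin (m + 1), A (χ i) (χ j) = extM m H s i j) ∧
      ∀ i, i < m + 1 → w3 (m + 1) (extM m H s) i ≤ w3 (m + 1) (extM m H s) m := by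
  obtain ⟨p, -, hp⟩ := Finset.exists_max_image (univ : Finset (Fin (m + 1)))
    (fun i => wlk (pb A φ) i) ⟨0, mem_univ _⟩
  set σ := Equiv.swap p (Fin.last m) with hσ
  have hlen : (List.ofFn (fun i : Fin m => φ (σ i.castSucc))).length = m := List.length_ofFn
  obtain ⟨H, hH, φ0, hperm, hφ0⟩ := hR _ hlen
  set v := φ p with hv
  set χ : Fin (m + 1) → V := Fin.snoc φ0 v with hχ
  have hχc : ∀ i : Fin m, χ i.castSucc = φ0 i := fun i => by rw [hχ, Fin.snoc_castSucc]
  have hχl : χ (Fin.last m) = v := by rw [hχ, Fin.snoc_last]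
  have hpermχ : (List.ofFn χ).Perm (List.ofFn φ) := by
    refine List.Perm.trans ?_ (Equiv.Perm.ofFn_comp_perm σ φ)
    rw [List.ofFn_succ', List.ofFn_succ', hχl]
    simp only [hχc, Function.comp]
    have e1 : φ (σ (Fin.last m)) = v := by
      rw [hσ, Equiv.swap_apply_right]
    rw [e1, List.concat_eq_append, List.concat_eq_append]
    exact hperm.append_right [v]
  obtain ⟨ρ, hρ⟩ := perm_ofFn χ φ hpermχ
  set s := msk m (fun i => A (φ0 i) v) with hs
  have hsb : ∀ i : Fin m, bitN s i = A (φ0 i) v := fun i => msk_bit (fun i => h01 _ _) i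
  have hslt : s < 2 ^ m := msk_lt fun i => h01 _ _
  have hind : Indep m H s := by
    intro i j hij hj h1 h2 h3
    have e1 := hsb ⟨i, by omega⟩
    have e2 := hsb ⟨j, hj⟩
    have e3 := hφ0 ⟨j, hj⟩ ⟨i, by omega⟩
    simp only at e1 e2 e3
    rw [h1] at e1
    rw [h2] at e2
    rw [h3] at e3
    exact htri _ _ _ e3 e1.symm e2.symm
  have hpb : ∀ i j : Fin (m + 1), A (χ i) (χ j) = extM m H s i j := by
    intro i j
    rw [extM_eq]
    refine Fin.lastCases ?_ (fun i => ?_) i
    · refine Fin.lastCases ?_ (fun j => ?_) j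
      · simp only [Fin.val_last, lt_irrefl, if_false]
        exact hirr _
      · simp only [Fin.val_last, lt_irrefl, if_false, Fin.val_castSucc, j.2, if_true]
        rw [hχl, hχc, hsb, hsym]
    · refine Fin.lastCases ?_ (fun j => ?_) j
      · simp only [Fin.val_last, lt_irrefl, if_false, Fin.val_castSucc, i.2, if_true]
        rw [hχl, hχc, hsb]
      · simp only [Fin.val_castSucc, i.2, j.2, if_true]
        rw [hχc, hχc, hφ0]
  have hpb' : pb A χ = fun i j : Fin (m + 1) => extM m H s i j := by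
    funext i j
    exact hpb i j
  have hwρ : ∀ i, wlk (pb A χ) i = wlk (pb A φ) (ρ i) := by
    intro i
    rw [← wlk_equiv ρ (pb A φ) i, hρ]
    rfl
  have hw3 : ∀ i : Fin (m + 1), w3 (m + 1) (extM m H s) i = wlk (pb A χ) i := by
    intro i
    rw [hpb', wlk_fin]
    rfl
  refine ⟨H, hH, χ, s, hpermχ, hslt, hind, hpb, ?_⟩
  intro i hi
  have h1 := hw3 ⟨i, hi⟩
  have h2 := hw3 (Fin.last m)
  simp only [Fin.val_last] at h1 h2
  rw [h1, h2, hwρ, hwρ]
  have h3 : φ (ρ (Fin.last m)) = φ p := by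
    have h4 : χ (Fin.last m) = (φ ∘ ρ) (Fin.last m) := by rw [hρ]
    rw [hχl] at h4
    exact h4.symm
  rw [wlk_same A φ h3]
  exact hp _ (mem_univ _)

/-- the table of codes -/
def InT (U : FT) (len H : ℕ) : Prop := ∃ i, i < len ∧ U.get i = H

/-- one step of the classification -/
theorem clsW_step {V : Type} {m : ℕ} (hm : m ≤ 16) {A : V → V → ℕ}
    (hsym : ∀ u v, A u v = A v u) (hirr : ∀ v, A v v = 0) (h01 : ∀ u v, A u v ≤ 1)
    (htri : ∀ u v w, A u v = 1 → A v w = 1 → A u w = 1 → False) {R : ℕ → Prop} (hR : Cls A m R)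
    (hok : ∀ H, R H → OkM m H) {U : FT} {len : ℕ}
    (h : ∀ H, R H → ∃ tab, clsW m U len H tab = true) : Cls A (m + 1) (InT U len) := by
  intro l hl
  obtain ⟨φ, hφ⟩ : ∃ φ : Fin (m + 1) → V, List.ofFn φ = l := by
    have h0 : ∀ n (_ : l.length = n), ∃ φ : Fin n → V, List.ofFn φ = l := by
      intro n h
      subst h
      exact ⟨fun i => l.get i, List.ofFn_get l⟩
    exact h0 _ hl
  obtain ⟨H, hH, χ, s, hperm, hs, hi, hmat, hmax⟩ := exists_canon hsym hirr h01 htri hR φ
  obtain ⟨tab, htab⟩ := h H hH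
  have h1 := dfsH_indep hm htab hs hi
  rw [hφ] at hperm
  have ho := Ok_ext (hok H hH) s
  have e0 : wp (m + 1) (SA (m + 1) (extM m H s)) (SB (m + 1) (extM m H s)) =
      pk 40 (m + 1) (w3 (m + 1) (extM m H s)) := wp_eq (by omega) (by omega) ho
  have e1 : Nat.shiftRight (pk 40 (m + 1) (w3 (m + 1) (extM m H s))) (Nat.mul 40 m) =
      w3 (m + 1) (extM m H s) m := top_digit fun i => (w3_lt _ _ _).trans (by norm_num)
  have h2 : (!(geAll (m + 1) (wp (m + 1) (SA (m + 1) (extM m H s)) (SB (m + 1) (extM m H s)))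
      (Nat.shiftRight (wp (m + 1) (SA (m + 1) (extM m H s)) (SB (m + 1) (extM m H s)))
        (Nat.mul 40 m))) ||
      (Nat.blt (tab.get s >>> 40) len &&
        perOK m H s (tab.get s % 2 ^ 40) (U.get (tab.get s >>> 40)))) = true := by
    rw [SA_ext, SB_ext]
    exact h1
  rw [e0, e1, geAll_spec (w3_lt _ _ _) hmax, Bool.not_true, Bool.false_or,
    Bool.and_eq_true] at h2
  obtain ⟨h3, h4⟩ := h2
  set c := tab.get s % 2 ^ 40 with hc
  set H' := U.get (tab.get s >>> 40) with hH'
  have hok' : (allB (m + 1) (fun v => anyB (m + 1) (fun i => Nat.beq (pd c i) v)) &&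
      allB (m + 1) (fun i => allB (m + 1) (fun j =>
        Nat.beq (adjM H' i j) (extM m H s (pd c i) (pd c j))))) = true := h4
  rw [Bool.and_eq_true] at hok'
  obtain ⟨hsurj, hmat'⟩ := hok'
  have hany : ∀ (n : ℕ) (p : ℕ → Bool), anyB n p = true → ∃ i, i < n ∧ p i = true := by
    intro n p
    induction n with
    | zero => intro h; exact absurd h (by simp [anyB])
    | succ n ih =>
      intro h
      have h' : (p n || anyB n p) = true := h
      rw [Bool.or_eq_true] at h'
      rcases h' with h1 | h1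
      · exact ⟨n, Nat.lt_succ_self n, h1⟩
      · obtain ⟨i, hi, hp⟩ := ih h1
        exact ⟨i, by omega, hp⟩
  have hex : ∀ k : Fin (m + 1), ∃ i : Fin (m + 1), pd c i = k := by
    intro k
    obtain ⟨i, hi, h1⟩ := hany (m + 1) _ (allB_true (m + 1) _ hsurj k k.2)
    exact ⟨⟨i, hi⟩, Nat.eq_of_beq_eq_true h1⟩
  choose g hg using hex
  have hginj : Function.Injective g := by
    intro a b hab
    apply Fin.ext
    rw [← hg a, ← hg b, hab]
  have hgbij : Function.Bijective g := Finite.injective_iff_bijective.1 hginj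
  set σ : Equiv.Perm (Fin (m + 1)) := Equiv.ofBijective g hgbij with hσ
  have hpd : ∀ i : Fin (m + 1), pd c i = ((σ.symm i : Fin (m + 1)) : ℕ) := by
    intro i
    have h1 : g (σ.symm i) = i := by
      have : σ (σ.symm i) = i := σ.apply_symm_apply i
      exact this
    have h2 := hg (σ.symm i)
    rw [h1] at h2
    exact h2
  refine ⟨H', ⟨_, Nat.blt_eq.mp h3, rfl⟩, χ ∘ σ.symm, ?_, ?_⟩
  · exact (Equiv.Perm.ofFn_comp_perm σ.symm χ).trans hperm
  · intro i j
    have h5 := allB_true (m + 1) _ (allB_true (m + 1) _ hmat' i i.2) j j.2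
    have h6 : adjM H' i j = extM m H s (pd c i) (pd c j) := Nat.eq_of_beq_eq_true h5
    rw [h6, hpd i, hpd j]
    exact hmat _ _

/-- the check of the hosts extending the codes number `a, ..., a + n - 1` -/
noncomputable def hostR (m : ℕ) (T : FT) (C : Trie) (KK : ℕ) (U : FT) (a n : ℕ) : Bool :=
  allB n (fun i => and (okMB m (U.get (Nat.add a i))) (hostOK m T C KK (U.get (Nat.add a i))))

/-- the property of the code number `i` -/
def HP (m : ℕ) (T : FT) (C : Trie) (KK : ℕ) (U : FT) (i : ℕ) : Prop :=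
  OkM m (U.get i) ∧ hostOK m T C KK (U.get i) = true

theorem hostR_rng {m : ℕ} {T : FT} {C : Trie} {KK : ℕ} {U : FT} {a n b : ℕ}
    (h : hostR m T C KK U a n = true) (hb : a + n = b) :
    ∀ i, a ≤ i → i < b → HP m T C KK U i := by
  intro i h1 h2
  have h3 : (okMB m (U.get (a + (i - a))) && hostOK m T C KK (U.get (a + (i - a)))) = true :=
    allB_true n _ h (i - a) (by omega)
  rw [show a + (i - a) = i by omega, Bool.and_eq_true] at h3
  exact ⟨okMB_spec h3.1, h3.2⟩

theorem glue {P : ℕ → Prop} {a b c : ℕ} (h1 : ∀ i, a ≤ i → i < b → P i)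
    (h2 : ∀ i, b ≤ i → i < c → P i) : ∀ i, a ≤ i → i < c → P i := by
  intro i ha hc
  rcases Nat.lt_or_ge i b with h | h
  · exact h1 i ha h
  · exact h2 i h hc

theorem inT_hosts {m : ℕ} {T : FT} {C : Trie} {KK : ℕ} {U : FT} {len : ℕ}
    (h : ∀ i, 0 ≤ i → i < len → HP m T C KK U i) :
    (∀ H, InT U len H → OkM m H) ∧ ∀ H, InT U len H → hostOK m T C KK H = true := by
  constructor
  · rintro H ⟨i, hi, rfl⟩
    exact (h i (Nat.zero_le _) hi).1
  · rintro H ⟨i, hi, rfl⟩
    exact (h i (Nat.zero_le _) hi).2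

/-- all codes of the table are codes of graphs and occur in a list -/
noncomputable def subT (m : ℕ) (U : FT) (M : List ℕ) (len : ℕ) : Bool :=
  allB len (fun i => and (okMB m (U.get i)) (memB M (U.get i)))

theorem subT_mem {m : ℕ} {U : FT} {M : List ℕ} {len : ℕ} (h : subT m U M len = true) :
    ∀ H, InT U len H → OkM m H ∧ H ∈ M := by
  rintro H ⟨i, hi, rfl⟩
  have h1 : (okMB m (U.get i) && memB M (U.get i)) = true := allB_true len _ h i hi
  rw [Bool.and_eq_true] at h1
  exact ⟨okMB_spec h1.1, memB_mem M _ h1.2⟩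

end Pool.Agent.ICyc.FlagH
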