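import Mathlib

/-!
# An isomorphism invariant of graphs with two marked vertices: definitions

`hsh a u w` is a number that depends only on the graph with adjacency matrix `a` and the pair
`{u, w}` (the adjacency of `u` and `w` is ignored), up to isomorphism.  `hs` computes it from the
matrix packed into two numbers.
-/

set_option autoImplicit false

namespace Pool.Agent.ICyc.FlagH

/-! ### the invariant -/

/-- one step of the walk count -/
def mv {ι : Type} [Fintype ι] (a : ι → ι → ℕ) (v : ι → ℕ) : ι → ℕ :=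
  fun i => (2371 * v i + ∑ j, a i j * v j) % 2 ^ 20

/-- remove the edge `u w` -/
def cut {ι : Type} [DecidableEq ι] (a : ι → ι → ℕ) (u w : ι) : ι → ι → ℕ :=
  fun i j => if (i = u ∧ j = w) ∨ (i = w ∧ j = u) then 0 else a i j

/-- initial vector -/
def ini {ι : Type} [DecidableEq ι] (u w : ι) : ι → ℕ :=
  fun i => 1 + (if i = u then 101 else 0) + (if i = w then 52 else 0)

/-- mixing of the digits -/
def mix (z : ℕ) : ℕ := z ^^^ (z >>> 11)

/-- the invariant of the pair `{u, w}` -/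
def hsh {ι : Type} [Fintype ι] [DecidableEq ι] (a : ι → ι → ℕ) (u w : ι) : ℕ :=
  (∑ i, mix (mv (cut a u w) (mv (cut a u w) (mv (cut a u w) (ini u w))) i *
    mv (cut a u w) (mv (cut a u w) (mv (cut a u w) (ini w u))) i)) % (2 ^ 40 - 1)

/-- the walk invariant of a vertex -/
def wlk {ι : Type} [Fintype ι] (a : ι → ι → ℕ) : ι → ℕ :=
  mv a (mv a (mv a (fun _ => 1)))

/-! ### fast computation, for `N` vertices -/

/-- `n` copies of `c` at distance `d` binary digits -/
def gs (d c n : ℕ) : ℕ :=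
  Nat.rec (motive := fun _ => ℕ) 0 (fun _ ih => Nat.add (Nat.mul ih (Nat.pow 2 d)) c) n

/-- product of the matrix with a vector, digits at distance `40` to digits at distance `80 N` -/
def ra (N Ma V : ℕ) : ℕ :=
  Nat.shiftRight (Nat.land (Nat.mul Ma V)
    (Nat.mul (gs (Nat.mul 80 N) 1048575 N) (Nat.pow 2 (Nat.mul 40 (Nat.sub N 1)))))
    (Nat.mul 40 (Nat.sub N 1))

/-- product of the matrix with a vector, digits at distance `80 N` to digits at distance `40` -/
def rb (N Mb V : ℕ) : ℕ :=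
  Nat.land (Nat.shiftRight (Nat.mul Mb V) (Nat.mul (Nat.mul 80 N) (Nat.sub N 1)))
    (gs 40 1048575 N)

/-- sum of the mixed digits -/
def fin1 (N Z : ℕ) : ℕ :=
  Nat.mod (Nat.land (Nat.xor Z (Nat.shiftRight Z 11))
    (gs (Nat.mul 40 (Nat.add (Nat.mul 2 N) 1)) 1099511627775 N)) 1099511627775

/-- the invariant, from the packed matrix and the two initial vectors -/
def hs (N Ma Mb x0 y0 : ℕ) : ℕ :=
  fin1 N (Nat.land (Nat.mul (ra N Ma (rb N Mb (ra N Ma x0))) (rb N Mb (ra N Ma (rb N Mb y0))))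
    (gs (Nat.mul 40 (Nat.add (Nat.mul 2 N) 1)) 1099511627775 N))

/-- position of the entry `(i, j)` in the first packed matrix -/
def qa (N i j : ℕ) : ℕ := Nat.mul 40 (Nat.add (Nat.mul (Nat.mul 2 N) i) (Nat.sub (Nat.sub N 1) j))

/-- position of the entry `(i, j)` in the second packed matrix -/
def qb (N i j : ℕ) : ℕ := Nat.mul 40 (Nat.add i (Nat.mul (Nat.mul 2 N) (Nat.sub (Nat.sub N 1) j)))

/-- the edge `i j` in the first packed matrix -/
def eA (N i j : ℕ) : ℕ := Nat.add (Nat.pow 2 (qa N i j)) (Nat.pow 2 (qa N j i))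

/-- the edge `i j` in the second packed matrix -/
def eB (N i j : ℕ) : ℕ := Nat.add (Nat.pow 2 (qb N i j)) (Nat.pow 2 (qb N j i))

/-- mask that removes the edge `i j` from the first packed matrix -/
def cA (N i j : ℕ) : ℕ := Nat.sub (Nat.pow 2 (Nat.mul 80 (Nat.mul N N))) (Nat.add (eA N i j) 1)

/-- mask that removes the edge `i j` from the second packed matrix -/
def cB (N i j : ℕ) : ℕ := Nat.sub (Nat.pow 2 (Nat.mul 80 (Nat.mul N N))) (Nat.add (eB N i j) 1)

/-- initial vector with digits at distance `s` -/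
def vx (N s u w : ℕ) : ℕ :=
  Nat.add (gs s 1 N) (Nat.add (Nat.mul 101 (Nat.pow 2 (Nat.mul s u)))
    (Nat.mul 52 (Nat.pow 2 (Nat.mul s w))))

/-- the invariant of the pair `{u, w}` -/
def hp (N Ha Hb u w : ℕ) : ℕ :=
  hs N (Nat.land Ha (cA N u w)) (Nat.land Hb (cB N u w)) (vx N 40 u w) (vx N (Nat.mul 80 N) w u)

/-- sum over `i < n` -/
def sN (n : ℕ) (f : ℕ → ℕ) : ℕ :=
  Nat.rec (motive := fun _ => ℕ) 0 (fun i ih => Nat.add ih (f i)) n

/-- sum over `u < w < N` -/
def sP (N : ℕ) (f : ℕ → ℕ → ℕ) : ℕ := sN N (fun w => sN w (fun u => f u w))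

/-- the diagonals -/
def dA (N : ℕ) : ℕ := sN N (fun i => Nat.mul 2371 (Nat.pow 2 (qa N i i)))

/-- the diagonals -/
def dB (N : ℕ) : ℕ := sN N (fun i => Nat.mul 2371 (Nat.pow 2 (qb N i i)))

/-- first packed matrix -/
def SA (N : ℕ) (a : ℕ → ℕ → ℕ) : ℕ := Nat.add (dA N) (sP N (fun i j => Nat.mul (a i j) (eA N i j)))

/-- second packed matrix -/
def SB (N : ℕ) (a : ℕ → ℕ → ℕ) : ℕ := Nat.add (dB N) (sP N (fun i j => Nat.mul (a i j) (eB N i j)))

/-- the packed walk invariant -/
def wp (N Ha Hb : ℕ) : ℕ := rb N Hb (ra N Ha (rb N Hb (gs (Nat.mul 80 N) 1 N)))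

end Pool.Agent.ICyc.FlagH
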