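import Mathlib
import Pool.Agent.Lib.MP_131fce_co.FlagH.HDefs

/-!
# Invariance of the invariants under isomorphisms, and sums over all maps
-/

set_option autoImplicit false

namespace Pool.Agent.ICyc.FlagH

open Finset

section inv

variable {ι κ : Type} [Fintype ι] [Fintype κ]

theorem mv_equiv (e : ι ≃ κ) (a : κ → κ → ℕ) (v : κ → ℕ) :
    mv (fun i j => a (e i) (e j)) (fun i => v (e i)) = fun i => mv a v (e i) := by
  funext i
  rw [mv, mv, e.sum_comp (fun j => a (e i) j * v j)]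

theorem wlk_equiv (e : ι ≃ κ) (a : κ → κ → ℕ) (i : ι) :
    wlk (fun i j => a (e i) (e j)) i = wlk a (e i) := by
  have h := mv_equiv e a (fun _ => 1)
  rw [wlk, wlk, h, mv_equiv, mv_equiv]

variable [DecidableEq ι] [DecidableEq κ]

theorem cut_equiv (e : ι ≃ κ) (a : κ → κ → ℕ) (u w : ι) :
    cut (fun i j => a (e i) (e j)) u w = fun i j => cut a (e u) (e w) (e i) (e j) := by
  funext i j
  simp only [cut, e.injective.eq_iff]

theorem ini_equiv (e : ι ≃ κ) (u w : ι) : ini u w = fun i => ini (e u) (e w) (e i) := by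
  funext i
  simp only [ini, e.injective.eq_iff]

theorem hsh_equiv (e : ι ≃ κ) (a : κ → κ → ℕ) (u w : ι) :
    hsh (fun i j => a (e i) (e j)) u w = hsh a (e u) (e w) := by
  have h1 := cut_equiv e a u w
  have h2 := ini_equiv e u w
  have h3 := ini_equiv e w u
  rw [hsh, hsh, h1, h2, h3]
  simp only [mv_equiv]
  congr 1
  exact e.sum_comp (fun i => mix (mv (cut a (e u) (e w)) (mv (cut a (e u) (e w))
    (mv (cut a (e u) (e w)) (ini (e u) (e w)))) i *
    mv (cut a (e u) (e w)) (mv (cut a (e u) (e w)) (mv (cut a (e u) (e w)) (ini (e w) (e u)))) i))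

theorem cut_comm (a : ι → ι → ℕ) (u w : ι) : cut a u w = cut a w u := by
  funext i j
  simp only [cut]
  congr 1
  exact propext Or.comm

theorem hsh_comm (a : ι → ι → ℕ) (u w : ι) : hsh a u w = hsh a w u := by
  rw [hsh, hsh, cut_comm a w u]
  congr 1
  exact sum_congr rfl fun i _ => by rw [Nat.mul_comm]

theorem cut_cut (a : ι → ι → ℕ) (u w : ι) : cut (cut a u w) u w = cut a u w := by
  funext i j
  simp only [cut]
  split <;> rfl

theorem hsh_cut (a : ι → ι → ℕ) (u w : ι) : hsh (cut a u w) u w = hsh a u w := by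
  rw [hsh, hsh, cut_cut]

/-- the sum over all ordered pairs of vertices -/
def Tsum (f : ℕ → ℤ) (a : ι → ι → ℕ) : ℤ := ∑ u, ∑ w, if u = w then 0 else f (hsh a u w)

theorem Tsum_equiv (f : ℕ → ℤ) (e : ι ≃ κ) (a : κ → κ → ℕ) :
    Tsum f (fun i j => a (e i) (e j)) = Tsum f a := by
  rw [Tsum, Tsum, ← e.sum_comp]
  refine sum_congr rfl fun u _ => ?_
  rw [← e.sum_comp]
  refine sum_congr rfl fun w _ => ?_
  rw [hsh_equiv e a u w]
  simp only [e.injective.eq_iff]

end inv

section maps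

variable {V : Type} [Fintype V]

/-- two lists that are permutations of each other -/
theorem perm_ofFn {n : ℕ} {W : Type} (f g : Fin n → W) (h : (List.ofFn f).Perm (List.ofFn g)) :
    ∃ σ : Equiv.Perm (Fin n), f = g ∘ σ := by
  classical
  have h1 : (univ : Finset (Fin n)).val.map f = (univ : Finset (Fin n)).val.map g := by
    rw [Fin.univ_val_map, Fin.univ_val_map]
    exact Multiset.coe_eq_coe.2 h
  have h2 : ∀ v : W, Fintype.card {i // f i = v} = Fintype.card {i // g i = v} := by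
    intro v
    have h3 := congrArg (Multiset.count v) h1
    rw [Multiset.count_map, Multiset.count_map] at h3
    rw [Fintype.card_subtype, Fintype.card_subtype]
    have e1 : ∀ p : Fin n → W, (univ.filter (fun i => p i = v)).card =
        ((univ : Finset (Fin n)).val.filter (fun a => v = p a)).card := by
      intro p
      rw [Finset.filter_congr (q := fun i => v = p i) (fun i _ => eq_comm)]
      rfl
    rw [e1, e1]
    exact h3
  refine ⟨Equiv.ofFiberEquiv (f := f) (g := g) (fun v => Fintype.equivOfCardEq (h2 v)), ?_⟩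
  funext i
  exact (Equiv.ofFiberEquiv_map _ i).symm

theorem two_transitive {ι : Type} [DecidableEq ι] {p q u w : ι} (hpq : p ≠ q) (huw : u ≠ w) :
    ∃ σ : Equiv.Perm ι, σ p = u ∧ σ q = w := by
  refine ⟨(Equiv.swap p ((Equiv.swap q w).symm u)).trans (Equiv.swap q w), ?_, ?_⟩
  · rw [Equiv.trans_apply, Equiv.swap_apply_left, Equiv.apply_symm_apply]
  · have h1 : q ≠ (Equiv.swap q w).symm u := by
      intro h
      have := congrArg (Equiv.swap q w) h
      rw [Equiv.apply_symm_apply, Equiv.swap_apply_left] at this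
      exact huw this.symm
    rw [Equiv.trans_apply, Equiv.swap_apply_of_ne_of_ne hpq.symm h1, Equiv.swap_apply_left]

/-- pull back of the adjacency -/
def pb {ι W : Type} (A : W → W → ℕ) (φ : ι → W) : ι → ι → ℕ := fun i j => A (φ i) (φ j)

theorem sum_pair {ι : Type} [Fintype ι] [DecidableEq ι] (A : V → V → ℕ) (f : ℕ → ℤ) {p q u w : ι}
    (hpq : p ≠ q) (huw : u ≠ w) :
    ∑ φ : ι → V, f (hsh (pb A φ) u w) = ∑ φ : ι → V, f (hsh (pb A φ) p q) := by
  obtain ⟨σ, h1, h2⟩ := two_transitive hpq huw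
  calc ∑ φ : ι → V, f (hsh (pb A φ) u w) = ∑ φ : ι → V, f (hsh (pb A (φ ∘ σ)) p q) := by
        refine sum_congr rfl fun φ _ => ?_
        rw [← h1, ← h2, ← hsh_equiv σ (pb A φ) p q]
        rfl
    _ = ∑ φ : ι → V, f (hsh (pb A φ) p q) :=
        Fintype.sum_equiv (Equiv.arrowCongr σ.symm (Equiv.refl V)) _ _ (fun φ => rfl)

theorem sum_Tsum {ι : Type} [Fintype ι] [DecidableEq ι] (A : V → V → ℕ) (f : ℕ → ℤ) {p q : ι}
    (hpq : p ≠ q) (h : 0 ≤ ∑ φ : ι → V, f (hsh (pb A φ) p q)) :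
    0 ≤ ∑ φ : ι → V, Tsum f (pb A φ) := by
  have h1 : ∑ φ : ι → V, Tsum f (pb A φ) =
      ∑ u : ι, ∑ w : ι, ∑ φ : ι → V, (if u = w then 0 else f (hsh (pb A φ) u w)) := by
    unfold Tsum
    rw [sum_comm]
    exact sum_congr rfl fun u _ => sum_comm
  rw [h1]
  refine sum_nonneg fun u _ => sum_nonneg fun w _ => ?_
  by_cases huw : u = w
  · simp [huw]
  · simp only [if_neg huw]
    rw [sum_pair A f hpq huw]
    exact h

/-- the sum over the two last vertices -/
def Gx {m : ℕ} (A : V → V → ℕ) (f : ℕ → ℤ) (x : Fin m → V) : ℤ :=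
  ∑ y : V, ∑ z : V, f (hsh (pb A (Sum.elim x ![y, z])) (Sum.inr 0) (Sum.inr 1))

theorem Gx_perm {m : ℕ} (A : V → V → ℕ) (f : ℕ → ℤ) (x : Fin m → V) (τ : Equiv.Perm (Fin m)) :
    Gx A f (x ∘ τ) = Gx A f x := by
  refine sum_congr rfl fun y _ => sum_congr rfl fun z _ => ?_
  have h := hsh_equiv (Equiv.sumCongr τ (Equiv.refl (Fin 2))) (pb A (Sum.elim x ![y, z]))
    (Sum.inr 0) (Sum.inr 1)
  rw [show (Equiv.sumCongr τ (Equiv.refl (Fin 2))) (Sum.inr 0) = Sum.inr 0 from rfl,
    show (Equiv.sumCongr τ (Equiv.refl (Fin 2))) (Sum.inr 1) = Sum.inr 1 from rfl] at h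
  rw [← h]
  congr 2
  funext i j
  rcases i with i | i <;> rcases j with j | j <;> rfl

theorem sum_Gx {m : ℕ} (A : V → V → ℕ) (f : ℕ → ℤ) :
    ∑ ψ : Fin m ⊕ Fin 2 → V, f (hsh (pb A ψ) (Sum.inr 0) (Sum.inr 1)) =
      ∑ x : Fin m → V, Gx A f x := by
  rw [← (Equiv.sumArrowEquivProdArrow (Fin m) (Fin 2) V).symm.sum_comp, Fintype.sum_prod_type]
  refine sum_congr rfl fun x _ => ?_
  rw [← (finTwoArrowEquiv V).symm.sum_comp, Fintype.sum_prod_type]
  rfl

/-- the sum over all maps of the sum over all pairs is nonnegative -/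
theorem Tsum_nonneg {m : ℕ} (A : V → V → ℕ) (f : ℕ → ℤ) (h : 0 ≤ ∑ x : Fin m → V, Gx A f x) :
    0 ≤ ∑ φ : Fin (m + 2) → V, Tsum f (pb A φ) := by
  have h1 : ∑ φ : Fin (m + 2) → V, Tsum f (pb A φ) =
      ∑ ψ : Fin m ⊕ Fin 2 → V, Tsum f (pb A ψ) := by
    refine Fintype.sum_equiv (Equiv.arrowCongr finSumFinEquiv.symm (Equiv.refl V)) _ _
      (fun φ => ?_)
    rw [← Tsum_equiv f finSumFinEquiv (pb A φ)]
    rfl
  rw [h1]
  refine sum_Tsum A f (p := Sum.inr 0) (q := Sum.inr 1) ?_ ?_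
  · intro h2
    have h3 := Sum.inr_injective h2
    exact absurd h3 (by decide)
  · rw [sum_Gx]
    exact h

end maps

end Pool.Agent.ICyc.FlagH
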