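import Mathlib
import Pool.Agent.Lib.MP_131fce_co.Flag.ClsDefs
import Pool.Agent.Lib.MP_131fce_co.Flag.SumsDefs
import Pool.Agent.Lib.MP_131fce_co.FlagH.HDefs

/-!
# The checks evaluated by the kernel
-/

set_option autoImplicit false

namespace Pool.Agent.ICyc.FlagH

open Pool.Agent.ICyc.Flag

/-- a table of numbers indexed by hash values -/
inductive FT where
  | leaf (w q1 q2 D t : ℕ) : FT
  | node (m : ℕ) (l r : FT) : FT
  | comp (S T : FT) : FT

/-- table look-up -/
noncomputable def FT.get (T : FT) (h : ℕ) : ℕ :=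
  FT.rec (motive := fun _ => ℕ → ℕ)
    (fun w q1 q2 D t h => lk w t (Nat.mod (Nat.add h (lk 10 D (Nat.mod h q1))) q2))
    (fun m _ _ ihl ihr h => Bool.rec (motive := fun _ => ℕ) (ihl h) (ihr h) (Nat.ble m h))
    (fun _ _ ihS ihT h => ihT (ihS h)) T h

/-! ### enumeration of the independent sets -/

/-- all independent sets of the graph `H` on `0, ..., n - 1` (with the accumulated packed matrices
of the graph with a new vertex `p` adjacent to the set) satisfy `leaf` -/
def dfsH (N H p : ℕ) (leaf : ℕ → ℕ → ℕ → Bool) (n : ℕ) : ℕ → ℕ → ℕ → ℕ → Bool :=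
  Nat.rec (motive := fun _ => ℕ → ℕ → ℕ → ℕ → Bool) (fun s _ Ha Hb => leaf s Ha Hb)
    (fun i ih s forb Ha Hb => and (ih s forb Ha Hb)
      (or (Nat.beq (bitN forb i) 1)
        (ih (Nat.add s (Nat.pow 2 i)) (Nat.lor forb (lk 16 H i))
          (Nat.add Ha (eA N i p)) (Nat.add Hb (eB N i p))))) n

/-- packed matrix of the graph `H` on `n` vertices, within `N` vertices -/
def bA (N n H : ℕ) : ℕ := Nat.add (dA N) (sP n (fun i j => Nat.mul (adjM H i j) (eA N i j)))

/-- packed matrix of the graph `H` on `n` vertices, within `N` vertices -/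
def bB (N n H : ℕ) : ℕ := Nat.add (dB N) (sP n (fun i j => Nat.mul (adjM H i j) (eB N i j)))

/-! ### hosts -/

/-- the top digit is at least as large as all digits -/
def geAll (N X t : ℕ) : Bool :=
  Nat.beq (Nat.land (Nat.sub (Nat.mul (Nat.add t 1048576) (gs 40 1 N)) X) (gs 40 1048576 N))
    (gs 40 1048576 N)

/-- twice the sum of the table entries of all pairs -/
noncomputable def tot (N : ℕ) (T : FT) (Ha Hb : ℕ) : ℕ :=
  Nat.mul 2 (sP N (fun u w => T.get (hp N Ha Hb u w)))

/-- the check of the graph `H` with a new vertex `m` adjacent to the set `s` -/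
noncomputable def hostLeaf (N m : ℕ) (T : FT) (C : Trie) (KK H s Ha Hb : ℕ) : Bool :=
  or (not (geAll N (wp N Ha Hb) (Nat.shiftRight (wp N Ha Hb) (Nat.mul 40 m))))
    (Bool.rec (motive := fun _ => Bool) (Nat.ble (tot N T Ha Hb) KK)
      (decide (Int.add (C.ev (extM m H s) 0 [] (List.range N)) (Int.ofNat (tot N T Ha Hb)) ≤
        Int.ofNat KK))
      (Nat.beq (Nat.shiftRight (wp N Ha Hb) (Nat.mul 40 m))
        (Nat.mod (Nat.pow 2373 3) (Nat.pow 2 20))))

/-- the check of all extensions of the graph `H` on `m` vertices -/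
noncomputable def hostOK (m : ℕ) (T : FT) (C : Trie) (KK H : ℕ) : Bool :=
  dfsH (Nat.succ m) H m (hostLeaf (Nat.succ m) m T C KK H) m 0 0
    (bA (Nat.succ m) m H) (bB (Nat.succ m) m H)

/-- the check of a list of graphs -/
noncomputable def hostL (m : ℕ) (T : FT) (C : Trie) (KK : ℕ) (L : List ℕ) : Bool :=
  List.rec (motive := fun _ => Bool) true (fun H _ ih => and (hostOK m T C KK H) ih) L

/-! ### types -/

/-- contribution of the edges from the vertex `p` to the set `S` -/
def cS (N m p S : ℕ) : ℕ := sN m (fun i => Nat.mul (bitN S i) (eA N i p))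

/-- contribution of the edges from the vertex `p` to the set `S` -/
def cT (N m p S : ℕ) : ℕ := sN m (fun i => Nat.mul (bitN S i) (eB N i p))

/-- table entry of the graph given by the packed matrices, for the two last vertices -/
noncomputable def ent2 (N m : ℕ) (T : FT) (Ha Hb : ℕ) : ℕ :=
  T.get (hs N Ha Hb (vx N 40 m (Nat.succ m)) (vx N (Nat.mul 80 N) (Nat.succ m) m))

/-- the value of the low order part -/
noncomputable def vlow (m : ℕ) (T8 : Trie) (c : ℕ) : ℤ := T8.ev (adjM c) 0 [] (List.range m)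

/-- all entries of the type `c` are equal to `C0` -/
noncomputable def type0 (m : ℕ) (T : FT) (T8 : Trie) (OFF C0 c : ℕ) : Bool :=
  and (decide (Int.add (Int.ofNat OFF) (vlow m T8 c) = Int.ofNat C0))
    (dfsH (Nat.add m 2) c m (fun S Ha Hb =>
      dfsH (Nat.add m 2) c (Nat.succ m) (fun S' Ha' Hb' =>
        or (Nat.blt S S') (Nat.beq (ent2 (Nat.add m 2) m T Ha' Hb') C0)) m 0 0 Ha Hb)
      m 0 0 (bA (Nat.add m 2) m c) (bB (Nat.add m 2) m c))

/-- rows of the matrices of a certificate -/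
inductive Rows where
  | nil : Rows
  | cons (S P G R : ℕ) (t : Rows) : Rows

/-- sum of the digits, base `2 ^ w` -/
def sm (w X : ℕ) : ℕ := Nat.mod X (Nat.sub (Nat.pow 2 w) 1)

/-- the first `r` digits in reversed order -/
def rv (w r X : ℕ) : ℕ :=
  Nat.rec (motive := fun _ => ℕ) 0 (fun i ih => Nat.add (Nat.mul ih (Nat.pow 2 w)) (lk w X i)) r

/-- dot product of digits -/
def dt (w r X Y : ℕ) : ℕ :=
  Nat.mod (Nat.shiftRight (Nat.mul X (rv w r Y)) (Nat.mul w (Nat.sub r 1))) (Nat.pow 2 w)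

/-- the digits are at most `m`, where `m + 1` is a power of two -/
def dig (w r m X : ℕ) : Bool := Nat.beq (Nat.land X (gs w m r)) X

/-- a set occurs in a certificate -/
noncomputable def Rows.mem (L : Rows) (S : ℕ) : Bool :=
  Rows.rec (motive := fun _ => Bool) false (fun S' _ _ _ _ ih => or (Nat.beq S' S) ih) L

/-- a certificate for a type: the parameters and the matrices -/
structure Cert where
  /-- number of binary digits of an entry -/
  w : ℕ
  /-- rank -/
  r : ℕ
  /-- scale -/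
  s : ℕ
  /-- offset of `P` -/
  hP : ℕ
  /-- offset of `G` -/
  hG : ℕ
  /-- offset of `R` -/
  hR : ℕ
  /-- offset of `E` -/
  hE : ℕ
  /-- bound of the digits of `P` -/
  mP : ℕ
  /-- bound of the digits of `G` -/
  mG : ℕ
  /-- bound of the digits of `R` -/
  mR : ℕ
  /-- bound of the digits of `E` -/
  mE : ℕ
  /-- bound of the entries of `E` off the diagonal -/
  e : ℕ
  /-- constant -/
  C0 : ℕ
  /-- matrix `E` -/
  E : List ℕ
  /-- rows of the matrices `P`, `G`, `R` -/
  L : Rows

/-- the equation of a pair of rows -/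
noncomputable def pairOK (N m : ℕ) (T : FT) (Ac Bc : ℕ) (w r s hP hG hR C0 S P G S' P' R' : ℕ) :
    Bool :=
  Nat.beq (Nat.add (Nat.mul s (ent2 N m T (Nat.add (Nat.add Ac (cS N m m S)) (cS N m (Nat.succ m) S'))
      (Nat.add (Nat.add Bc (cT N m m S)) (cT N m (Nat.succ m) S'))))
    (Nat.add (Nat.mul hP (Nat.add (sm w P) (sm w P')))
      (Nat.add (Nat.mul hR (sm w G)) (Nat.mul hG (sm w R')))))
    (Nat.add C0 (Nat.add (dt w r P P') (dt w r G R')))

/-- all pairs of rows -/
noncomputable def pairs (p : ℕ → ℕ → ℕ → ℕ → ℕ → ℕ → Bool) (L : Rows) : Bool :=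
  Rows.rec (motive := fun _ => Bool) true (fun S P G R t ih => and (and (p S P G S P R)
    (Rows.rec (motive := fun _ => Bool) true (fun S' P' _ R' _ ih2 =>
      and (p S P G S' P' R') ih2) t)) ih) L

/-- all entries of a list satisfy a property depending on the position -/
noncomputable def loopL (q : ℕ → ℕ → Bool) (L : List ℕ) : ℕ → Bool :=
  List.rec (motive := fun _ => ℕ → Bool) (fun _ => true)
    (fun x _ ih b => and (q b x) (ih (Nat.succ b))) L

/-- the digits of a row, and the row of `G` is the row of `R` times `E` -/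
noncomputable def rowOK (w r hG hR hE mP mG mR : ℕ) (E : List ℕ) (P G R : ℕ) : Bool :=
  and (and (dig w r mP P) (and (dig w r mG G) (dig w r mR R)))
    (loopL (fun a Ea => Nat.beq
        (Nat.add (lk w G a) (Nat.add (Nat.mul hR (sm w Ea)) (Nat.mul hE (sm w R))))
        (Nat.add (Nat.add hG (Nat.mul r (Nat.mul hR hE))) (dt w r R Ea))) E 0)

/-- the rows -/
noncomputable def rowsOK (w r hG hR hE mP mG mR : ℕ) (E : List ℕ) (L : Rows) : Bool :=
  Rows.rec (motive := fun _ => Bool) true (fun _ P G R _ ih =>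
    and (rowOK w r hG hR hE mP mG mR E P G R) ih) L

/-- `E` is symmetric and diagonally dominant -/
noncomputable def eOK (w r hE mE e : ℕ) (E : List ℕ) : ℕ → Bool :=
  List.rec (motive := fun _ => ℕ → Bool) (fun a => Nat.beq a r)
    (fun Ea t ih a => and (and (dig w r mE Ea) (Nat.ble (Nat.add hE (Nat.mul r e)) (lk w Ea a)))
      (and (loopL (fun b Eb => and (Nat.beq (lk w Ea b) (lk w Eb a))
          (and (Nat.ble hE (Nat.add (lk w Ea b) e)) (Nat.ble (lk w Ea b) (Nat.add hE e))))
          t (Nat.succ a)) (ih (Nat.succ a)))) E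

/-- sums of `r + 1` terms of size `x` do not overflow -/
def noOvf (w r x : ℕ) : Bool := Nat.blt (Nat.mul (Nat.succ r) x) (Nat.sub (Nat.pow 2 w) 1)

/-- the parameters -/
def parOK (ct : Cert) : Bool :=
  and (Nat.blt 0 ct.s)
    (and (noOvf ct.w ct.r (Nat.mul ct.mP ct.mP))
    (and (noOvf ct.w ct.r (Nat.mul ct.mG ct.mR))
    (and (noOvf ct.w ct.r (Nat.mul ct.mR ct.mE))
    (and (noOvf ct.w ct.r ct.mP)
    (and (noOvf ct.w ct.r ct.mG)
    (and (noOvf ct.w ct.r ct.mR)
    (noOvf ct.w ct.r ct.mE)))))))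

/-- the check of a type with a certificate -/
noncomputable def type1 (m : ℕ) (T : FT) (T8 : Trie) (OFF c : ℕ) (ct : Cert) : Bool :=
  and (and (parOK ct)
    (decide (Int.add (Int.mul (Int.ofNat ct.s) (Int.add (Int.ofNat OFF) (vlow m T8 c)))
      (Int.ofNat (Nat.add (Nat.mul ct.r (Nat.mul ct.hP ct.hP)) (Nat.mul ct.r (Nat.mul ct.hG ct.hR)))) =
      Int.ofNat ct.C0)))
  (and (dfsH (Nat.add m 2) c m (fun S _ _ => ct.L.mem S) m 0 0 0 0)
  (and (eOK ct.w ct.r ct.hE ct.mE ct.e ct.E 0)
  (and (rowsOK ct.w ct.r ct.hG ct.hR ct.hE ct.mP ct.mG ct.mR ct.E ct.L)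
    (pairs (fun S P G S' P' R' => pairOK (Nat.add m 2) m T (bA (Nat.add m 2) m c)
      (bB (Nat.add m 2) m c) ct.w ct.r ct.s ct.hP ct.hG ct.hR ct.C0 S P G S' P' R') ct.L))))

end Pool.Agent.ICyc.FlagH
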