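import Pool.Agent.Lib.MP_131fce_co.FlagH.Mat
import Pool.Agent.Lib.MP_131fce_co.FlagH.KDefs
import Pool.Agent.Lib.MP_131fce_co.Flag.Psd

/-!
# Packed certificates of positive semidefiniteness
-/

set_option autoImplicit false

namespace Pool.Agent.ICyc.FlagH

open Finset Pool.Agent.ICyc.Flag

theorem lk_lt (w t i : ℕ) : lk w t i < 2 ^ w := by
  show (t >>> (w * i)) % 2 ^ w < 2 ^ w
  exact Nat.mod_lt _ (Nat.two_pow_pos w)

theorem lk_testBit {w X n b : ℕ} (hb : b < w) : (lk w X n).testBit b = X.testBit (w * n + b) := by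
  show (X >>> (w * n) % 2 ^ w).testBit b = _
  rw [Nat.testBit_mod_two_pow, Nat.testBit_shiftRight]
  simp [hb]

theorem lk_pk {w L : ℕ} {a : ℕ → ℕ} (h : ∀ n, n < L → a n < 2 ^ w) (n : ℕ) :
    lk w (pk w L a) n = if n < L then a n else 0 := by
  refine Nat.eq_of_testBit_eq fun b => ?_
  by_cases hb : b < w
  · rw [lk_testBit hb, pk_testBit h hb]
    by_cases hn : n < L <;> simp [hn]
  · have h1 : (lk w (pk w L a) n).testBit b = false :=
      Nat.testBit_lt_two_pow ((lk_lt _ _ _).trans_le (Nat.pow_le_pow_right (by norm_num)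
        (Nat.le_of_not_lt hb)))
    rw [h1]
    by_cases hn : n < L
    · rw [if_pos hn, Nat.testBit_lt_two_pow ((h n hn).trans_le (Nat.pow_le_pow_right (by norm_num)
        (Nat.le_of_not_lt hb)))]
    · rw [if_neg hn, Nat.zero_testBit]

theorem pk_lk {w L X : ℕ} (hw : 0 < w) (h : ∀ n, L ≤ n → lk w X n = 0) :
    pk w L (lk w X) = X := by
  refine eq_of_digits hw fun n b hb => ?_
  rw [pk_testBit (fun n _ => lk_lt w X n) hb, lk_testBit hb]
  by_cases hn : n < L
  · simp [hn]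
  · rw [← lk_testBit hb, h n (Nat.le_of_not_lt hn)]
    simp

theorem pos_of_lt {w m : ℕ} (hw : 0 < w) : 0 < 2 ^ w - 1 := by
  have : 2 ^ 1 ≤ 2 ^ w := Nat.pow_le_pow_right (by norm_num) hw
  omega

theorem dig_spec {w r m X : ℕ} (hw : 0 < w) (hm : m < 2 ^ w) (h : dig w r m X = true) :
    (∀ n, lk w X n ≤ m) ∧ pk w r (lk w X) = X := by
  have h1 : X &&& gs w m r = X := Nat.eq_of_beq_eq_true h
  have h2 : ∀ n, lk w X n = lk w X n &&& (if n < r then m else 0) := by
    intro n
    refine Nat.eq_of_testBit_eq fun b => ?_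
    by_cases hb : b < w
    · rw [Nat.testBit_and, lk_testBit hb]
      conv_lhs => rw [← h1]
      rw [Nat.testBit_and, gs_eq, pk_testBit (fun _ _ => hm) hb]
      by_cases hn : n < r <;> simp [hn]
    · have h3 : (lk w X n).testBit b = false :=
        Nat.testBit_lt_two_pow ((lk_lt _ _ _).trans_le (Nat.pow_le_pow_right (by norm_num)
          (Nat.le_of_not_lt hb)))
      rw [Nat.testBit_and, h3, Bool.false_and]
  refine ⟨fun n => ?_, pk_lk hw fun n hn => ?_⟩
  · rw [h2 n]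
    refine Nat.and_le_right.trans ?_
    split
    · exact le_refl _
    · exact Nat.zero_le _
  · rw [h2 n, if_neg (by omega), Nat.and_zero]

theorem sm_spec {w r m X : ℕ} (hw : 0 < w) (hm : m < 2 ^ w) (hr : r * m < 2 ^ w - 1)
    (h : dig w r m X = true) : sm w X = ∑ k ∈ range r, lk w X k := by
  obtain ⟨h1, h2⟩ := dig_spec hw hm h
  have h3 : ∑ k ∈ range r, lk w X k ≤ r * m := by
    calc ∑ k ∈ range r, lk w X k ≤ ∑ _k ∈ range r, m := sum_le_sum fun k _ => h1 k
      _ = r * m := by rw [sum_const, card_range, smul_eq_mul]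
  show X % (2 ^ w - 1) = _
  conv_lhs => rw [← h2]
  rw [pk_mod]
  exact Nat.mod_eq_of_lt (by omega)

theorem rv_spec (w r X : ℕ) : rv w r X = pk w r (fun k => lk w X (r - 1 - k)) := by
  induction r with
  | zero => rfl
  | succ r ih =>
    rw [pk_succ]
    show rv w r X * 2 ^ w + lk w X r = _
    rw [ih, Nat.mul_comm]
    congr 1
    congr 1
    refine pk_congr fun k hk => ?_
    congr 1
    omega

theorem dt_spec {w r mX mY X Y : ℕ} (hw : 0 < w) (hmX : mX < 2 ^ w) (hmY : mY < 2 ^ w)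
    (hr : r * (mX * mY) < 2 ^ w - 1) (hX : dig w r mX X = true) (hY : dig w r mY Y = true) :
    dt w r X Y = ∑ k ∈ range r, lk w X k * lk w Y k := by
  rcases Nat.eq_zero_or_pos r with h0 | hr0
  · subst h0
    show (X * 0) >>> (w * 0) % 2 ^ w = 0
    simp
  obtain ⟨hX1, hX2⟩ := dig_spec hw hmX hX
  obtain ⟨hY1, -⟩ := dig_spec hw hmY hY
  have hlt : ∀ n, conv r r (lk w X) (fun k => lk w Y (r - 1 - k)) n < 2 ^ w := by
    intro n
    refine (conv_le r _ _ mX (fun t _ => hX1 t) n).trans_lt ?_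
    have : ∑ t ∈ range r, lk w Y (r - 1 - t) ≤ r * mY := by
      calc ∑ t ∈ range r, lk w Y (r - 1 - t) ≤ ∑ _t ∈ range r, mY :=
            sum_le_sum fun k _ => hY1 _
        _ = r * mY := by rw [sum_const, card_range, smul_eq_mul]
    calc mX * ∑ t ∈ range r, lk w Y (r - 1 - t) ≤ mX * (r * mY) := Nat.mul_le_mul_left _ this
      _ = r * (mX * mY) := by ring
      _ < 2 ^ w := by omega
  have e1 : X * rv w r Y = pk w (r + r) (conv r r (lk w X) (fun k => lk w Y (r - 1 - k))) := by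
    conv_lhs => rw [← hX2]
    rw [rv_spec, pk_mul]
  have e2 : dt w r X Y = lk w (X * rv w r Y) (r - 1) := rfl
  rw [e2, e1, lk_pk (fun n _ => hlt n), if_pos (by omega), conv_mid r hr0]
  refine sum_congr rfl fun k hk => ?_
  have := mem_range.mp hk
  rw [show r - 1 - (r - 1 - k) = k by omega]

/-- dot product of two signed vectors -/
theorem dot_signed (r : ℕ) (x y : ℕ → ℕ) (hx hy : ℕ) :
    ∑ k ∈ range r, ((x k : ℤ) - hx) * ((y k : ℤ) - hy) =
      (∑ k ∈ range r, (x k : ℤ) * y k) + r * (hx * hy) - hy * (∑ k ∈ range r, (x k : ℤ)) -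
        hx * (∑ k ∈ range r, (y k : ℤ)) := by
  have : ∀ k ∈ range r, ((x k : ℤ) - hx) * ((y k : ℤ) - hy) =
      (x k : ℤ) * y k + hx * hy - hy * (x k : ℤ) - hx * (y k : ℤ) := fun k _ => by ring
  rw [sum_congr rfl this, sum_sub_distrib, sum_sub_distrib, sum_add_distrib, mul_sum, mul_sum]
  simp

/-- signed entry -/
def sg (w h X k : ℕ) : ℤ := (lk w X k : ℤ) - h

end Pool.Agent.ICyc.FlagH
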