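import Pool.Agent.Lib.MP_131fce_co.FlagH.Eval
import Pool.Agent.Lib.MP_131fce_co.FlagH.Inv
import Pool.Agent.Lib.MP_131fce_co.FlagH.PsdP

/-!
# Enumeration of independent sets, and the matrices of extensions
-/

set_option autoImplicit false

namespace Pool.Agent.ICyc.FlagH

open Finset Pool.Agent.ICyc.Flag

theorem bitN_eq (s i : ℕ) : bitN s i = (s.testBit i).toNat := by
  show (s >>> i) % 2 = _
  rw [Nat.shiftRight_eq_div_pow, ← Nat.toNat_testBit]

theorem adjM_eq (H i j : ℕ) : adjM H i j = (H.testBit (16 * i + j)).toNat := bitN_eq _ _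

theorem adjM_le (H i j : ℕ) : adjM H i j ≤ 1 := by
  rw [adjM_eq]
  exact Bool.toNat_le _

theorem bitN_le (s i : ℕ) : bitN s i ≤ 1 := by
  rw [bitN_eq]
  exact Bool.toNat_le _

/-- the set `S` of vertices among `0, ..., m - 1` is independent -/
def Indep (m c S : ℕ) : Prop :=
  ∀ i j, i < j → j < m → bitN S i = 1 → bitN S j = 1 → adjM c j i ≠ 1

theorem dfsH_sound {N H p : ℕ} {leaf : ℕ → ℕ → ℕ → Bool} (n : ℕ) (hn : n ≤ 16) :
    ∀ s0 f0 A0 B0 : ℕ, dfsH N H p leaf n s0 f0 A0 B0 = true → ∀ b : ℕ → ℕ,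
      (∀ i, i < n → b i ≤ 1) → (∀ i, i < n → b i = 1 → bitN f0 i ≠ 1) →
      (∀ i j, i < j → j < n → b i = 1 → b j = 1 → adjM H j i ≠ 1) →
      leaf (s0 + ∑ i ∈ range n, b i * 2 ^ i) (A0 + ∑ i ∈ range n, b i * eA N i p)
        (B0 + ∑ i ∈ range n, b i * eB N i p) = true := by
  induction n with
  | zero =>
    intro s0 f0 A0 B0 h b _ _ _
    have h' : leaf s0 A0 B0 = true := h
    simpa using h'
  | succ n ih =>
    intro s0 f0 A0 B0 h b hb1 hb2 hb3
    have h' : (dfsH N H p leaf n s0 f0 A0 B0 && (Nat.beq (bitN f0 n) 1 ||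
      dfsH N H p leaf n (s0 + 2 ^ n) (f0 ||| lk 16 H n) (A0 + eA N n p) (B0 + eB N n p))) = true := h
    rw [Bool.and_eq_true, Bool.or_eq_true] at h'
    obtain ⟨h1, h2⟩ := h'
    have hbn := hb1 n (Nat.lt_succ_self n)
    rw [sum_range_succ, sum_range_succ, sum_range_succ]
    by_cases hb0 : b n = 0
    · rw [hb0, Nat.zero_mul, Nat.zero_mul, Nat.zero_mul, Nat.add_zero, Nat.add_zero, Nat.add_zero]
      exact ih (by omega) s0 f0 A0 B0 h1 b (fun i hi => hb1 i (by omega))
        (fun i hi => hb2 i (by omega)) (fun i j hij hj => hb3 i j hij (by omega))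
    · have hb1' : b n = 1 := by omega
      have h3 : ¬ Nat.beq (bitN f0 n) 1 = true := fun h4 =>
        hb2 n (Nat.lt_succ_self n) hb1' (Nat.eq_of_beq_eq_true h4)
      have h4 := h2.resolve_left h3
      have h5 := ih (by omega) _ _ _ _ h4 b (fun i hi => hb1 i (by omega)) ?_
        (fun i j hij hj => hb3 i j hij (by omega))
      · rw [hb1', Nat.one_mul, Nat.one_mul, Nat.one_mul]
        have e : ∀ x y z : ℕ, x + (y + z) = x + z + y := fun x y z => by omega
        rw [e s0, e A0, e B0]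
        exact h5
      · intro i hi hbi
        have h6 := hb2 i (by omega) hbi
        have h7 := hb3 i n hi (Nat.lt_succ_self n) hbi hb1'
        rw [bitN_eq] at h6 ⊢
        rw [adjM_eq] at h7
        rw [Nat.testBit_or, lk_testBit (by omega : i < 16)]
        cases h8 : f0.testBit i
        · cases h9 : H.testBit (16 * n + i)
          · simp
          · rw [h9] at h7
            simp at h7
        · rw [h8] at h6
          simp at h6

theorem sum_bits (m S : ℕ) (hS : S < 2 ^ m) : ∑ i ∈ range m, bitN S i * 2 ^ i = S := by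
  have h1 : ∑ i ∈ range m, bitN S i * 2 ^ i = pk 1 m (bitN S) := by
    rw [pk]
    exact sum_congr rfl fun i _ => by rw [Nat.one_mul]
  rw [h1]
  refine eq_of_digits (w := 1) (by norm_num) fun n b hb => ?_
  have hb0 : b = 0 := by omega
  subst hb0
  rw [pk_testBit (fun n _ => by have := bitN_le S n; omega) (by norm_num), Nat.one_mul,
    Nat.add_zero, bitN_eq]
  by_cases hn : n < m
  · cases S.testBit n <;> simp [hn]
  · rw [Nat.testBit_lt_two_pow (hS.trans_le (Nat.pow_le_pow_right (by norm_num)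
      (Nat.le_of_not_lt hn)))]
    simp [hn]

/-- all independent sets satisfy the property of the leaves -/
theorem dfsH_indep {N H p m : ℕ} {leaf : ℕ → ℕ → ℕ → Bool} (hm : m ≤ 16) {A0 B0 : ℕ}
    (h : dfsH N H p leaf m 0 0 A0 B0 = true) {S : ℕ} (hS : S < 2 ^ m) (hi : Indep m H S) :
    leaf S (A0 + ∑ i ∈ range m, bitN S i * eA N i p)
      (B0 + ∑ i ∈ range m, bitN S i * eB N i p) = true := by
  have h1 := dfsH_sound m hm 0 0 A0 B0 h (bitN S) (fun i _ => bitN_le S i) ?_ hi
  · rwa [sum_bits m S hS, Nat.zero_add] at h1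
  · intro i _ _
    rw [bitN_eq, Nat.zero_testBit]
    simp

/-- the graph `c` on `0, ..., m - 1` with two new vertices `m`, `m + 1` adjacent to `S`, `T` -/
def ex2 (m c S T i j : ℕ) : ℕ :=
  if i < m then (if j < m then adjM c i j else if j = m then bitN S i else bitN T i)
  else if j < m then (if i = m then bitN S j else bitN T j) else 0

/-- `adjM c` is the adjacency matrix of a graph on `m` vertices -/
def OkM (m c : ℕ) : Prop :=
  (∀ i, i < m → adjM c i i = 0) ∧ ∀ i j, i < m → j < m → adjM c i j = adjM c j i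

theorem Ok_ex2 {m c : ℕ} (hc : OkM m c) (S T : ℕ) : Ok (m + 2) (ex2 m c S T) := by
  refine ⟨fun i hi => ?_, fun i j hi hj => ?_, fun i j hi hj => ?_⟩
  · unfold ex2
    by_cases h : i < m
    · rw [if_pos h, if_pos h, hc.1 i h]
    · rw [if_neg h, if_neg h]
  · unfold ex2
    by_cases h1 : i < m <;> by_cases h2 : j < m <;> simp only [h1, h2, if_true, if_false]
    exact hc.2 i j h1 h2
  · unfold ex2
    split_ifs <;> first | exact adjM_le _ _ _ | exact bitN_le _ _ | omega

theorem cut_ex2 (m c S T : ℕ) : cut (ex2 m c S T) m (m + 1) = ex2 m c S T := by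
  funext i j
  unfold cut
  split
  · next h =>
    unfold ex2
    rcases h with ⟨h1, h2⟩ | ⟨h1, h2⟩ <;> subst h1 <;> subst h2 <;> simp
  · rfl

theorem SA_ex2 (m c S T : ℕ) : SA (m + 2) (ex2 m c S T) =
    bA (m + 2) m c + cS (m + 2) m m S + cS (m + 2) m (m + 1) T := by
  show dA (m + 2) + sP (m + 2) (fun i j => ex2 m c S T i j * eA (m + 2) i j) =
    dA (m + 2) + sP m (fun i j => adjM c i j * eA (m + 2) i j) + cS (m + 2) m m S +
      cS (m + 2) m (m + 1) T
  rw [sP_eq, sP_eq, cS, cS, sN_eq, sN_eq, sum_range_succ, sum_range_succ]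
  have e1 : ∑ w ∈ range m, ∑ u ∈ range w, ex2 m c S T u w * eA (m + 2) u w =
      ∑ w ∈ range m, ∑ u ∈ range w, adjM c u w * eA (m + 2) u w := by
    refine sum_congr rfl fun w hw => sum_congr rfl fun u hu => ?_
    have h1 := mem_range.mp hw
    have h2 := mem_range.mp hu
    rw [ex2, if_pos (by omega), if_pos h1]
  have e2 : ∑ u ∈ range m, ex2 m c S T u m * eA (m + 2) u m =
      ∑ i ∈ range m, Nat.mul (bitN S i) (eA (m + 2) i m) := by
    refine sum_congr rfl fun u hu => ?_
    have h2 := mem_range.mp hu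
    rw [ex2, if_pos h2, if_neg (by omega), if_pos rfl]
    rfl
  have e3 : ∑ u ∈ range (m + 1), ex2 m c S T u (m + 1) * eA (m + 2) u (m + 1) =
      ∑ i ∈ range m, Nat.mul (bitN T i) (eA (m + 2) i (m + 1)) := by
    rw [sum_range_succ, ex2, if_neg (by omega), if_neg (by omega), Nat.zero_mul, Nat.add_zero]
    refine sum_congr rfl fun u hu => ?_
    have h2 := mem_range.mp hu
    rw [ex2, if_pos h2, if_neg (by omega), if_neg (by omega)]
    rfl
  rw [e1, e2, e3]
  ring

theorem SB_ex2 (m c S T : ℕ) : SB (m + 2) (ex2 m c S T) =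
    bB (m + 2) m c + cT (m + 2) m m S + cT (m + 2) m (m + 1) T := by
  show dB (m + 2) + sP (m + 2) (fun i j => ex2 m c S T i j * eB (m + 2) i j) =
    dB (m + 2) + sP m (fun i j => adjM c i j * eB (m + 2) i j) + cT (m + 2) m m S +
      cT (m + 2) m (m + 1) T
  rw [sP_eq, sP_eq, cT, cT, sN_eq, sN_eq, sum_range_succ, sum_range_succ]
  have e1 : ∑ w ∈ range m, ∑ u ∈ range w, ex2 m c S T u w * eB (m + 2) u w =
      ∑ w ∈ range m, ∑ u ∈ range w, adjM c u w * eB (m + 2) u w := by
    refine sum_congr rfl fun w hw => sum_congr rfl fun u hu => ?_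
    have h1 := mem_range.mp hw
    have h2 := mem_range.mp hu
    rw [ex2, if_pos (by omega), if_pos h1]
  have e2 : ∑ u ∈ range m, ex2 m c S T u m * eB (m + 2) u m =
      ∑ i ∈ range m, Nat.mul (bitN S i) (eB (m + 2) i m) := by
    refine sum_congr rfl fun u hu => ?_
    have h2 := mem_range.mp hu
    rw [ex2, if_pos h2, if_neg (by omega), if_pos rfl]
    rfl
  have e3 : ∑ u ∈ range (m + 1), ex2 m c S T u (m + 1) * eB (m + 2) u (m + 1) =
      ∑ i ∈ range m, Nat.mul (bitN T i) (eB (m + 2) i (m + 1)) := by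
    rw [sum_range_succ, ex2, if_neg (by omega), if_neg (by omega), Nat.zero_mul, Nat.add_zero]
    refine sum_congr rfl fun u hu => ?_
    have h2 := mem_range.mp hu
    rw [ex2, if_pos h2, if_neg (by omega), if_neg (by omega)]
    rfl
  rw [e1, e2, e3]
  ring

/-- the hash of the extension by two vertices -/
def h2 (m c S T : ℕ) : ℕ := hshN (m + 2) (ex2 m c S T) m (m + 1)

theorem hs_ex2 {m c : ℕ} (hm : m ≤ 100) (hc : OkM m c) (S T : ℕ) :
    hs (m + 2) (SA (m + 2) (ex2 m c S T)) (SB (m + 2) (ex2 m c S T)) (vx (m + 2) 40 m (m + 1))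
      (vx (m + 2) (80 * (m + 2)) (m + 1) m) = h2 m c S T := by
  have ho := Ok_ex2 hc S T
  rw [SA_eq ho, SB_eq ho, vx_eq (by omega) (by omega), vx_eq (by omega) (by omega),
    hs_eq (by omega) (by omega) ho (fun j _ => ini_lt _ _ _) (fun j _ => ini_lt _ _ _), h2, hshN,
    cut_ex2]

theorem h2_comm {m c : ℕ} (S T : ℕ) : h2 m c S T = h2 m c T S := by
  have hm : m < m + 2 := by omega
  have hm1 : m + 1 < m + 2 := by omega
  set p : Fin (m + 2) := ⟨m, hm⟩ with hp
  set q : Fin (m + 2) := ⟨m + 1, hm1⟩ with hq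
  have e1 : h2 m c S T = hsh (fun i j : Fin (m + 2) => ex2 m c S T i j) p q := by
    rw [hsh_fin]
    rfl
  have e2 : h2 m c T S = hsh (fun i j : Fin (m + 2) => ex2 m c T S i j) p q := by
    rw [hsh_fin]
    rfl
  have hsw : ∀ i : Fin (m + 2), ((Equiv.swap p q i : Fin (m + 2)) : ℕ) =
      if (i : ℕ) = m then m + 1 else if (i : ℕ) = m + 1 then m else i := by
    intro i
    by_cases h1 : i = p
    · rw [h1, Equiv.swap_apply_left, hp, hq]
      simp
    · by_cases h2 : i = q
      · rw [h2, Equiv.swap_apply_right, hp, hq]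
        simp
      · rw [Equiv.swap_apply_of_ne_of_ne h1 h2, if_neg, if_neg]
        · intro h3
          exact h2 (Fin.ext h3)
        · intro h3
          exact h1 (Fin.ext h3)
  have key := hsh_equiv (Equiv.swap p q) (fun i j : Fin (m + 2) => ex2 m c S T i j) p q
  rw [Equiv.swap_apply_left, Equiv.swap_apply_right] at key
  rw [e1, e2, hsh_comm, ← key]
  congr 1
  funext i j
  simp only [hsw]
  have hi := i.2
  have hj := j.2
  unfold ex2
  split_ifs <;> first | rfl | omega

end Pool.Agent.ICyc.FlagH
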