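import Pool.Agent.Lib.MP_131fce_co.FlagH.Mat

/-!
# The fast computation of the invariant is correct
-/

set_option autoImplicit false

namespace Pool.Agent.ICyc.FlagH

open Finset

theorem sN_eq (n : ℕ) (f : ℕ → ℕ) : sN n f = ∑ i ∈ range n, f i := by
  induction n with
  | zero => rfl
  | succ n ih =>
    rw [sum_range_succ, ← ih]
    rfl

theorem sP_eq (n : ℕ) (f : ℕ → ℕ → ℕ) : sP n f = ∑ w ∈ range n, ∑ u ∈ range w, f u w := by
  rw [sP, sN_eq]
  exact sum_congr rfl fun w _ => sN_eq _ _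

/-- a sum over a square, by diagonal and off-diagonal terms -/
theorem sum_sq {β : Type} [AddCommMonoid β] (N : ℕ) (f : ℕ → ℕ → β) :
    ∑ i ∈ range N, ∑ j ∈ range N, f i j =
      ∑ i ∈ range N, f i i + ∑ j ∈ range N, ∑ i ∈ range j, (f i j + f j i) := by
  induction N with
  | zero => simp
  | succ N ih =>
    rw [sum_range_succ, sum_congr rfl (fun i _ => sum_range_succ (f i) N), sum_add_distrib, ih,
      sum_range_succ (fun i => f i i), sum_range_succ (fun j => ∑ i ∈ range j, (f i j + f j i)),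
      sum_range_succ (f N), sum_add_distrib (f := fun i => f i N)]
    abel

/-- the matrix with the diagonal -/
def Mx (a : ℕ → ℕ → ℕ) (i j : ℕ) : ℕ := a i j + if i = j then 2371 else 0

/-- symmetric `0-1` matrices with zero diagonal -/
def Ok (N : ℕ) (a : ℕ → ℕ → ℕ) : Prop :=
  (∀ i, i < N → a i i = 0) ∧ (∀ i j, i < N → j < N → a i j = a j i) ∧
    ∀ i j, i < N → j < N → a i j ≤ 1

theorem pA_eq (N : ℕ) (M : ℕ → ℕ → ℕ) :
    pA N M = ∑ i ∈ range N, ∑ j ∈ range N, M i j * 2 ^ qa N i j := by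
  rw [pA, pk]
  refine sum_congr rfl fun i _ => ?_
  rw [pk, sum_mul, ← sum_range_reflect]
  refine sum_congr rfl fun t ht => ?_
  have ht' := mem_range.mp ht
  rw [show N - 1 - (N - 1 - t) = t by omega]
  have e : qa N i t = 40 * (N - 1 - t) + 80 * N * i := by
    show 40 * (2 * N * i + (N - 1 - t)) = _
    ring
  rw [e, pow_add, mul_assoc]

theorem pB_eq (N : ℕ) (M : ℕ → ℕ → ℕ) :
    pB N M = ∑ i ∈ range N, ∑ j ∈ range N, M i j * 2 ^ qb N i j := by
  rw [pB, pk, sum_comm, ← sum_range_reflect]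
  refine sum_congr rfl fun t ht => ?_
  have ht' := mem_range.mp ht
  rw [pk, sum_mul]
  refine sum_congr rfl fun i _ => ?_
  rw [show N - 1 - (N - 1 - t) = t by omega]
  have e : qb N i t = 40 * i + 80 * N * (N - 1 - t) := by
    show 40 * (i + 2 * N * (N - 1 - t)) = _
    ring
  rw [e, pow_add, mul_assoc]

theorem SA_eq {N : ℕ} {a : ℕ → ℕ → ℕ} (ha : Ok N a) : SA N a = pA N (Mx a) := by
  rw [pA_eq, sum_sq]
  show dA N + sP N _ = _
  rw [dA, sN_eq, sP_eq]
  congr 1
  · refine sum_congr rfl fun i hi => ?_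
    rw [Mx, if_pos rfl, ha.1 i (mem_range.mp hi), Nat.zero_add]
    rfl
  · refine sum_congr rfl fun j hj => sum_congr rfl fun i hi => ?_
    have hj' := mem_range.mp hj
    have hi' := mem_range.mp hi
    rw [Mx, Mx, if_neg (by omega), if_neg (by omega), Nat.add_zero, Nat.add_zero,
      ha.2.1 j i hj' (by omega), ← mul_add]
    rfl

theorem SB_eq {N : ℕ} {a : ℕ → ℕ → ℕ} (ha : Ok N a) : SB N a = pB N (Mx a) := by
  rw [pB_eq, sum_sq]
  show dB N + sP N _ = _
  rw [dB, sN_eq, sP_eq]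
  congr 1
  · refine sum_congr rfl fun i hi => ?_
    rw [Mx, if_pos rfl, ha.1 i (mem_range.mp hi), Nat.zero_add]
    rfl
  · refine sum_congr rfl fun j hj => sum_congr rfl fun i hi => ?_
    have hj' := mem_range.mp hj
    have hi' := mem_range.mp hi
    rw [Mx, Mx, if_neg (by omega), if_neg (by omega), Nat.add_zero, Nat.add_zero,
      ha.2.1 j i hj' (by omega), ← mul_add]
    rfl

/-! ### removal of an edge -/

theorem testBit_two {p q : ℕ} (h : p ≠ q) (i : ℕ) :
    (2 ^ p + 2 ^ q).testBit i = (decide (p = i) || decide (q = i)) := by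
  rcases Nat.lt_or_gt_of_ne h with h1 | h1
  · rw [Nat.add_comm, show 2 ^ q + 2 ^ p = 2 ^ q * 1 + 2 ^ p by ring,
      Nat.two_pow_add_eq_or_of_lt (Nat.pow_lt_pow_right (by norm_num) h1), Nat.testBit_or, mul_one,
      Nat.testBit_two_pow, Nat.testBit_two_pow, Bool.or_comm]
  · rw [show 2 ^ p + 2 ^ q = 2 ^ p * 1 + 2 ^ q by ring,
      Nat.two_pow_add_eq_or_of_lt (Nat.pow_lt_pow_right (by norm_num) h1), Nat.testBit_or, mul_one,
      Nat.testBit_two_pow, Nat.testBit_two_pow]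

/-- clearing the lowest bits of two digits that are at most `1` -/
theorem clear_digits {L n1 n2 : ℕ} {d d' : ℕ → ℕ} (h1 : n1 < L) (h2 : n2 < L) (hne : n1 ≠ n2)
    (hd : ∀ n, n < L → d n < 2 ^ 40) (hd1 : d n1 ≤ 1) (hd2 : d n2 ≤ 1)
    (hd' : ∀ n, n < L → d' n = if n = n1 ∨ n = n2 then 0 else d n) :
    pk 40 L d &&& (2 ^ (40 * L) - (2 ^ (40 * n1) + 2 ^ (40 * n2) + 1)) = pk 40 L d' := by
  have hlt : 2 ^ (40 * n1) + 2 ^ (40 * n2) < 2 ^ (40 * L) := by
    have e1 : ∀ n, n < L → n + 1 ≤ L := fun n hn => hn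
    have e2 : ∀ n, n < L → 2 ^ (40 * n) * 2 ≤ 2 ^ (40 * L) / 2 ^ 38 := by
      intro n hn
      rw [Nat.le_div_iff_mul_le (by norm_num)]
      calc 2 ^ (40 * n) * 2 * 2 ^ 38 ≤ 2 ^ (40 * (n + 1)) := by
            have e7 : 2 ^ (40 * (n + 1)) = 2 ^ (40 * n) * 2 ^ 40 := by
              rw [← pow_add]
              rfl
            rw [e7, mul_assoc]
            exact Nat.mul_le_mul_left _ (by norm_num)
        _ ≤ 2 ^ (40 * L) := Nat.pow_le_pow_right (by norm_num) (by omega)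
    have e3 := e2 n1 h1
    have e4 := e2 n2 h2
    have e5 : 2 ^ (40 * L) / 2 ^ 38 ≤ 2 ^ (40 * L) := Nat.div_le_self _ _
    have e6 : 0 < 2 ^ (40 * n1) := by positivity
    omega
  refine eq_of_digits (w := 40) (by norm_num) fun n b hb => ?_
  have hd'lt : ∀ n, n < L → d' n < 2 ^ 40 := by
    intro n hn
    rw [hd' n hn]
    split
    · norm_num
    · exact hd n hn
  rw [Nat.testBit_and, pk_testBit hd hb, pk_testBit hd'lt hb, Nat.testBit_two_pow_sub_succ hlt,
    testBit_two (by omega)]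
  by_cases hn : n < L
  · have e1 : 40 * n + b < 40 * L := by omega
    rw [hd' n hn]
    simp only [hn, e1, decide_true, Bool.true_and]
    by_cases hc : n = n1 ∨ n = n2
    · rw [if_pos hc, Nat.zero_testBit]
      have hdn : d n ≤ 1 := by rcases hc with h | h <;> rw [h] <;> assumption
      by_cases hb0 : b = 0
      · subst hb0
        rcases hc with h | h <;> subst h <;> simp
      · have : (d n).testBit b = false := by
          refine Nat.testBit_lt_two_pow (lt_of_le_of_lt hdn ?_)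
          exact Nat.one_lt_two_pow hb0
        rw [this, Bool.false_and]
    · rw [if_neg hc]
      push Not at hc
      have f1 : ¬ (40 * n1 = 40 * n + b) := by omega
      have f2 : ¬ (40 * n2 = 40 * n + b) := by omega
      simp [f1, f2]
  · simp [hn]

/-- flat digits of the first packed form -/
theorem pA_flat {N : ℕ} (M : ℕ → ℕ → ℕ) : pA N M = pk 40 (2 * N * N)
    (fun n => if n % (2 * N) < N then M (n / (2 * N)) (N - 1 - n % (2 * N)) else 0) := by
  rcases Nat.eq_zero_or_pos N with h0 | hN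
  · subst h0
    rfl
  rw [pk_block, show 40 * (2 * N) = 80 * N by ring, pA]
  refine pk_congr fun i _ => ?_
  symm
  rw [pk_extend (L := N) (by omega)]
  · refine pk_congr fun t ht => ?_
    rw [Nat.mul_add_mod, Nat.mod_eq_of_lt (by omega), Nat.mul_add_div (by omega),
      Nat.div_eq_of_lt (by omega), Nat.add_zero, if_pos ht]
  · intro t h1 h2
    rw [Nat.mul_add_mod, Nat.mod_eq_of_lt h2, if_neg (by omega)]

/-- flat digits of the second packed form -/
theorem pB_flat {N : ℕ} (M : ℕ → ℕ → ℕ) : pB N M = pk 40 (2 * N * N)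
    (fun n => if n % (2 * N) < N then M (n % (2 * N)) (N - 1 - n / (2 * N)) else 0) := by
  rcases Nat.eq_zero_or_pos N with h0 | hN
  · subst h0
    rfl
  rw [pk_block, show 40 * (2 * N) = 80 * N by ring, pB]
  refine pk_congr fun i _ => ?_
  symm
  rw [pk_extend (L := N) (by omega)]
  · refine pk_congr fun t ht => ?_
    rw [Nat.mul_add_mod, Nat.mod_eq_of_lt (by omega), Nat.mul_add_div (by omega),
      Nat.div_eq_of_lt (by omega), Nat.add_zero, if_pos ht]
  · intro t h1 h2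
    rw [Nat.mul_add_mod, Nat.mod_eq_of_lt h2, if_neg (by omega)]

theorem pos_lt {N u w : ℕ} (hu : u < N) (hw : w < N) : 2 * N * u + (N - 1 - w) < 2 * N * N := by
  have : 2 * N * u + 2 * N ≤ 2 * N * N := by
    calc 2 * N * u + 2 * N = 2 * N * (u + 1) := by ring
      _ ≤ 2 * N * N := Nat.mul_le_mul_left _ hu
  omega

theorem pos_lt' {N u w : ℕ} (hu : u < N) (hw : w < N) : u + 2 * N * (N - 1 - w) < 2 * N * N := by
  have : 2 * N * (N - 1 - w) + 2 * N ≤ 2 * N * N := by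
    calc 2 * N * (N - 1 - w) + 2 * N = 2 * N * (N - 1 - w + 1) := by ring
      _ ≤ 2 * N * N := Nat.mul_le_mul_left _ (by omega)
  omega

theorem Mx_lt {N : ℕ} {a : ℕ → ℕ → ℕ} (ha : Ok N a) {i j : ℕ} (hi : i < N) (hj : j < N) :
    Mx a i j < 2 ^ 40 := by
  have := ha.2.2 i j hi hj
  rw [Mx]
  split <;> omega

theorem Ok_cut {N : ℕ} {a : ℕ → ℕ → ℕ} (ha : Ok N a) (u w : ℕ) : Ok N (cut a u w) := by
  refine ⟨fun i hi => ?_, fun i j hi hj => ?_, fun i j hi hj => ?_⟩
  · unfold cut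
    split
    · rfl
    · exact ha.1 i hi
  · unfold cut
    rw [ha.2.1 i j hi hj]
    by_cases h : (i = u ∧ j = w) ∨ (i = w ∧ j = u)
    · rw [if_pos h, if_pos (by tauto)]
    · rw [if_neg h, if_neg (by tauto)]
  · unfold cut
    split
    · omega
    · exact ha.2.2 i j hi hj

theorem cutA {N : ℕ} {a : ℕ → ℕ → ℕ} (ha : Ok N a) {u w : ℕ} (hu : u < N) (hw : w < N)
    (hne : u ≠ w) : pA N (Mx a) &&& cA N u w = pA N (Mx (cut a u w)) := by
  rw [pA_flat, pA_flat]
  have hN : 0 < N := by omega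
  have e : cA N u w = 2 ^ (40 * (2 * N * N)) - (2 ^ (40 * (2 * N * u + (N - 1 - w))) +
      2 ^ (40 * (2 * N * w + (N - 1 - u))) + 1) := by
    rw [show 40 * (2 * N * N) = 80 * (N * N) by ring]
    rfl
  rw [e]
  have hmod : ∀ i t, t < N → (2 * N * i + t) % (2 * N) = t := by
    intro i t ht
    rw [Nat.mul_add_mod, Nat.mod_eq_of_lt (by omega)]
  have hdiv : ∀ i t, t < N → (2 * N * i + t) / (2 * N) = i := by
    intro i t ht
    rw [Nat.mul_add_div (by omega), Nat.div_eq_of_lt (by omega), Nat.add_zero]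
  have hval : ∀ (b : ℕ → ℕ → ℕ) (i j : ℕ), j < N →
      (if (2 * N * i + (N - 1 - j)) % (2 * N) < N then
        Mx b ((2 * N * i + (N - 1 - j)) / (2 * N)) (N - 1 - (2 * N * i + (N - 1 - j)) % (2 * N))
      else 0) = Mx b i j := by
    intro b i j hj
    rw [hmod i (N - 1 - j) (by omega), hdiv i (N - 1 - j) (by omega), if_pos (by omega),
      show N - 1 - (N - 1 - j) = j by omega]
  refine clear_digits (pos_lt hu hw) (pos_lt hw hu) ?_ ?_ ?_ ?_ ?_
  · intro h
    have h1 : (2 * N * u + (N - 1 - w)) / (2 * N) = (2 * N * w + (N - 1 - u)) / (2 * N) := by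
      rw [h]
    rw [hdiv u _ (by omega), hdiv w _ (by omega)] at h1
    exact hne h1
  · intro n hn
    split
    · exact Mx_lt ha (by rw [Nat.div_lt_iff_lt_mul (by omega)]; rwa [Nat.mul_comm N]) (by omega)
    · norm_num
  · rw [hval a u w hw, Mx, if_neg hne]
    exact ha.2.2 u w hu hw
  · rw [hval a w u hu, Mx, if_neg (Ne.symm hne)]
    exact ha.2.2 w u hw hu
  · intro n hn
    have hi : n / (2 * N) < N := by rw [Nat.div_lt_iff_lt_mul (by omega)]; rwa [Nat.mul_comm N]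
    have hdm : 2 * N * (n / (2 * N)) + n % (2 * N) = n := Nat.div_add_mod n (2 * N)
    by_cases ht : n % (2 * N) < N
    · simp only [if_pos ht]
      by_cases h1 : n = 2 * N * u + (N - 1 - w)
      · rw [if_pos (Or.inl h1)]
        have e1 : n / (2 * N) = u := by rw [h1]; exact hdiv u _ (by omega)
        have e2 : n % (2 * N) = N - 1 - w := by rw [h1]; exact hmod u _ (by omega)
        rw [e1, e2, show N - 1 - (N - 1 - w) = w by omega, Mx, if_neg hne, cut,
          if_pos (Or.inl ⟨rfl, rfl⟩)]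
      · by_cases h2 : n = 2 * N * w + (N - 1 - u)
        · rw [if_pos (Or.inr h2)]
          have e1 : n / (2 * N) = w := by rw [h2]; exact hdiv w _ (by omega)
          have e2 : n % (2 * N) = N - 1 - u := by rw [h2]; exact hmod w _ (by omega)
          rw [e1, e2, show N - 1 - (N - 1 - u) = u by omega, Mx, if_neg (Ne.symm hne), cut,
            if_pos (Or.inr ⟨rfl, rfl⟩)]
        · rw [if_neg (by tauto), Mx, Mx, cut, if_neg]
          rintro (⟨g1, g2⟩ | ⟨g1, g2⟩)
          · apply h1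
            rw [← hdm, g1]
            omega
          · apply h2
            rw [← hdm, g1]
            omega
    · simp only [if_neg ht]
      split <;> rfl

theorem cutB {N : ℕ} {a : ℕ → ℕ → ℕ} (ha : Ok N a) {u w : ℕ} (hu : u < N) (hw : w < N)
    (hne : u ≠ w) : pB N (Mx a) &&& cB N u w = pB N (Mx (cut a u w)) := by
  rw [pB_flat, pB_flat]
  have hN : 0 < N := by omega
  have e : cB N u w = 2 ^ (40 * (2 * N * N)) - (2 ^ (40 * (u + 2 * N * (N - 1 - w))) +
      2 ^ (40 * (w + 2 * N * (N - 1 - u))) + 1) := by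
    rw [show 40 * (2 * N * N) = 80 * (N * N) by ring]
    rfl
  rw [e]
  have hmod : ∀ i t, t < N → (t + 2 * N * i) % (2 * N) = t := by
    intro i t ht
    rw [Nat.add_mul_mod_self_left, Nat.mod_eq_of_lt (by omega)]
  have hdiv : ∀ i t, t < N → (t + 2 * N * i) / (2 * N) = i := by
    intro i t ht
    rw [Nat.add_mul_div_left _ _ (by omega), Nat.div_eq_of_lt (by omega), Nat.zero_add]
  have hval : ∀ (b : ℕ → ℕ → ℕ) (i j : ℕ), i < N → j < N →
      (if (i + 2 * N * (N - 1 - j)) % (2 * N) < N then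
        Mx b ((i + 2 * N * (N - 1 - j)) % (2 * N)) (N - 1 - (i + 2 * N * (N - 1 - j)) / (2 * N))
      else 0) = Mx b i j := by
    intro b i j hi hj
    rw [hmod (N - 1 - j) i hi, hdiv (N - 1 - j) i hi, if_pos hi,
      show N - 1 - (N - 1 - j) = j by omega]
  refine clear_digits (pos_lt' hu hw) (pos_lt' hw hu) ?_ ?_ ?_ ?_ ?_
  · intro h
    have h1 : (u + 2 * N * (N - 1 - w)) % (2 * N) = (w + 2 * N * (N - 1 - u)) % (2 * N) := by
      rw [h]
    rw [hmod _ u hu, hmod _ w hw] at h1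
    exact hne h1
  · intro n hn
    split
    · exact Mx_lt ha ‹_› (Nat.lt_of_le_of_lt (Nat.sub_le _ _) (by omega))
    · norm_num
  · rw [hval a u w hu hw, Mx, if_neg hne]
    exact ha.2.2 u w hu hw
  · rw [hval a w u hw hu, Mx, if_neg (Ne.symm hne)]
    exact ha.2.2 w u hw hu
  · intro n hn
    have hi : n / (2 * N) < N := by rw [Nat.div_lt_iff_lt_mul (by omega)]; rwa [Nat.mul_comm N]
    have hdm : n % (2 * N) + 2 * N * (n / (2 * N)) = n := Nat.mod_add_div n (2 * N)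
    by_cases ht : n % (2 * N) < N
    · simp only [if_pos ht]
      by_cases h1 : n = u + 2 * N * (N - 1 - w)
      · rw [if_pos (Or.inl h1)]
        have e1 : n / (2 * N) = N - 1 - w := by rw [h1]; exact hdiv _ u hu
        have e2 : n % (2 * N) = u := by rw [h1]; exact hmod _ u hu
        rw [e1, e2, show N - 1 - (N - 1 - w) = w by omega, Mx, if_neg hne, cut,
          if_pos (Or.inl ⟨rfl, rfl⟩)]
      · by_cases h2 : n = w + 2 * N * (N - 1 - u)
        · rw [if_pos (Or.inr h2)]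
          have e1 : n / (2 * N) = N - 1 - u := by rw [h2]; exact hdiv _ w hw
          have e2 : n % (2 * N) = w := by rw [h2]; exact hmod _ w hw
          rw [e1, e2, show N - 1 - (N - 1 - u) = u by omega, Mx, if_neg (Ne.symm hne), cut,
            if_pos (Or.inr ⟨rfl, rfl⟩)]
        · rw [if_neg (by tauto), Mx, Mx, cut, if_neg]
          rintro (⟨g1, g2⟩ | ⟨g1, g2⟩)
          · apply h1
            rw [← g2, Nat.sub_sub_self (Nat.le_sub_one_of_lt hi), ← g1, hdm]
          · apply h2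
            rw [← g2, Nat.sub_sub_self (Nat.le_sub_one_of_lt hi), ← g1, hdm]
    · simp only [if_neg ht]
      split <;> rfl

theorem vx_eq {N s u w : ℕ} (hu : u < N) (hw : w < N) : vx N s u w = pk s N (ini u w) := by
  have h1 : vx N s u w = gs s 1 N + (101 * 2 ^ (s * u) + 52 * 2 ^ (s * w)) := rfl
  rw [h1, gs_eq, ← pk_single (L := N) hu, ← pk_single (L := N) hw, pk_add, pk_add]
  refine pk_congr fun i _ => ?_
  rw [ini, Nat.add_assoc]

/-! ### the invariant on natural numbers -/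

/-- one step -/
def mvN (N : ℕ) (a : ℕ → ℕ → ℕ) (v : ℕ → ℕ) : ℕ → ℕ :=
  fun i => (∑ j ∈ range N, Mx a i j * v j) % 2 ^ 20

theorem mvN_lt (N : ℕ) (a : ℕ → ℕ → ℕ) (v : ℕ → ℕ) (i : ℕ) : mvN N a v i < 2 ^ 20 :=
  Nat.mod_lt _ (by norm_num)

theorem Mx_row {N : ℕ} (hN : N ≤ 1000) {a : ℕ → ℕ → ℕ} (ha : Ok N a) (i : ℕ) (hi : i < N) :
    ∑ j ∈ range N, Mx a i j < 2 ^ 20 := by
  have h1 : ∑ j ∈ range N, Mx a i j ≤ ∑ j ∈ range N, (1 + if i = j then 2371 else 0) := by
    refine sum_le_sum fun j hj => ?_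
    rw [Mx]
    exact Nat.add_le_add_right (ha.2.2 i j hi (mem_range.mp hj)) _
  refine h1.trans_lt ?_
  rw [sum_add_distrib, sum_const, card_range, smul_eq_mul, mul_one, sum_ite_eq, if_pos
    (mem_range.mpr hi)]
  omega

theorem hs_eq {N : ℕ} (hN : 0 < N) (hN' : N ≤ 1000) {a : ℕ → ℕ → ℕ} (ha : Ok N a) {x y : ℕ → ℕ}
    (hx : ∀ j, j < N → x j < 2 ^ 20) (hy : ∀ j, j < N → y j < 2 ^ 20) :
    hs N (pA N (Mx a)) (pB N (Mx a)) (pk 40 N x) (pk (80 * N) N y) =
      (∑ i ∈ range N, mix (mvN N a (mvN N a (mvN N a x)) i * mvN N a (mvN N a (mvN N a y)) i)) %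
        (2 ^ 40 - 1) := by
  have hM := Mx_row hN' ha
  have hl := fun v (j : ℕ) (_ : j < N) => mvN_lt N a v j
  have ea : ∀ v : ℕ → ℕ, (∀ j, j < N → v j < 2 ^ 20) →
      ra N (pA N (Mx a)) (pk 40 N v) = pk (80 * N) N (mvN N a v) := fun v hv => ra_eq hN hM hv
  have eb : ∀ v : ℕ → ℕ, (∀ j, j < N → v j < 2 ^ 20) →
      rb N (pB N (Mx a)) (pk (80 * N) N v) = pk 40 N (mvN N a v) := fun v hv => rb_eq hN hM hv
  rw [hs, ea x hx, eb _ (hl _), ea _ (hl _), eb y hy, ea _ (hl _), eb _ (hl _)]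
  have e1 := had_eq (N := N) (hl (mvN N a (mvN N a x))) (hl (mvN N a (mvN N a y)))
  have e2 : Nat.land (Nat.mul (pk (80 * N) N (mvN N a (mvN N a (mvN N a x))))
      (pk 40 N (mvN N a (mvN N a (mvN N a y)))))
      (gs (Nat.mul 40 (Nat.add (Nat.mul 2 N) 1)) 1099511627775 N) = _ := e1
  rw [e2, fin1_eq hN]
  intro j hj
  have h1 := mvN_lt N a (mvN N a (mvN N a x)) j
  have h2 := mvN_lt N a (mvN N a (mvN N a y)) j
  calc _ ≤ (2 ^ 20 - 1) * (2 ^ 20 - 1) := Nat.mul_le_mul (by omega) (by omega)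
    _ < 2 ^ 40 := by norm_num

/-- the invariant, for matrices indexed by natural numbers -/
def hshN (N : ℕ) (a : ℕ → ℕ → ℕ) (u w : ℕ) : ℕ :=
  (∑ i ∈ range N, mix (mvN N (cut a u w) (mvN N (cut a u w) (mvN N (cut a u w) (ini u w))) i *
    mvN N (cut a u w) (mvN N (cut a u w) (mvN N (cut a u w) (ini w u))) i)) % (2 ^ 40 - 1)

theorem ini_lt (u w j : ℕ) : ini u w j < 2 ^ 20 := by
  unfold ini
  split <;> split <;> norm_num

theorem hp_eq {N : ℕ} (hN' : N ≤ 1000) {a : ℕ → ℕ → ℕ} (ha : Ok N a) {u w : ℕ}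
    (hu : u < N) (hw : w < N) (hne : u ≠ w) : hp N (SA N a) (SB N a) u w = hshN N a u w := by
  have e1 : Nat.land (SA N a) (cA N u w) = pA N (Mx (cut a u w)) := by
    rw [SA_eq ha]
    exact cutA ha hu hw hne
  have e2 : Nat.land (SB N a) (cB N u w) = pB N (Mx (cut a u w)) := by
    rw [SB_eq ha]
    exact cutB ha hu hw hne
  have e3 : Nat.mul 80 N = 80 * N := rfl
  rw [hp, e1, e2, e3, vx_eq hu hw, vx_eq hw hu, hs_eq (by omega) hN' (Ok_cut ha u w)
    (fun j _ => ini_lt _ _ _) (fun j _ => ini_lt _ _ _), hshN]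

theorem mv_fin {N : ℕ} (a : ℕ → ℕ → ℕ) (v : ℕ → ℕ) :
    mv (fun i j : Fin N => a i j) (fun i => v i) = fun i : Fin N => mvN N a v i := by
  funext i
  rw [mv, mvN]
  congr 1
  have h1 : ∑ j ∈ range N, Mx a i j * v j = ∑ j ∈ range N, a i j * v j +
      ∑ j ∈ range N, (if (i : ℕ) = j then 2371 * v j else 0) := by
    rw [← sum_add_distrib]
    refine sum_congr rfl fun j _ => ?_
    rw [Mx, add_mul]
    congr 1
    split <;> simp
  rw [h1, sum_ite_eq, if_pos (mem_range.mpr i.2), sum_range, Nat.add_comm]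

theorem cut_fin {N : ℕ} (a : ℕ → ℕ → ℕ) (u w : Fin N) :
    cut (fun i j : Fin N => a i j) u w = fun i j : Fin N => cut a (u : ℕ) (w : ℕ) i j := by
  funext i j
  unfold cut
  simp only [Fin.ext_iff]

theorem ini_fin {N : ℕ} (u w : Fin N) :
    ini u w = fun i : Fin N => ini (u : ℕ) (w : ℕ) i := by
  funext i
  unfold ini
  simp only [Fin.ext_iff]

theorem hsh_fin {N : ℕ} (a : ℕ → ℕ → ℕ) (u w : Fin N) :
    hsh (fun i j : Fin N => a i j) u w = hshN N a u w := by
  rw [hsh, hshN, cut_fin, ini_fin u w, ini_fin w u, mv_fin, mv_fin, mv_fin, mv_fin, mv_fin, mv_fin,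
    sum_range]

theorem hp_hsh {N : ℕ} (hN' : N ≤ 1000) {a : ℕ → ℕ → ℕ} (ha : Ok N a) (u w : Fin N)
    (hne : u ≠ w) : hp N (SA N a) (SB N a) u w = hsh (fun i j : Fin N => a i j) u w := by
  rw [hsh_fin, hp_eq hN' ha u.2 w.2 (fun h => hne (Fin.ext h))]


theorem wp_eq {N : ℕ} (hN : 0 < N) (hN' : N ≤ 1000) {a : ℕ → ℕ → ℕ} (ha : Ok N a) :
    wp N (SA N a) (SB N a) = pk 40 N (mvN N a (mvN N a (mvN N a (fun _ => 1)))) := by
  have hM := Mx_row hN' ha
  have hl := fun v (j : ℕ) (_ : j < N) => mvN_lt N a v j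
  have ea : ∀ v : ℕ → ℕ, (∀ j, j < N → v j < 2 ^ 20) →
      ra N (pA N (Mx a)) (pk 40 N v) = pk (80 * N) N (mvN N a v) := fun v hv => ra_eq hN hM hv
  have eb : ∀ v : ℕ → ℕ, (∀ j, j < N → v j < 2 ^ 20) →
      rb N (pB N (Mx a)) (pk (80 * N) N v) = pk 40 N (mvN N a v) := fun v hv => rb_eq hN hM hv
  have e3 : Nat.mul 80 N = 80 * N := rfl
  rw [wp, SA_eq ha, SB_eq ha, e3, gs_eq, eb _ (fun j _ => by norm_num), ea _ (hl _), eb _ (hl _)]

theorem wlk_fin {N : ℕ} (a : ℕ → ℕ → ℕ) (i : Fin N) :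
    wlk (fun i j : Fin N => a i j) i = mvN N a (mvN N a (mvN N a (fun _ => 1))) i := by
  have h1 := mv_fin (N := N) a (fun _ => 1)
  rw [wlk, h1, mv_fin, mv_fin]

end Pool.Agent.ICyc.FlagH
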