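import Pool.Agent.Lib.MP_131fce_co.FlagH.Main

/-!
# Checks of lists
-/

set_option autoImplicit false

namespace Pool.Agent.ICyc.FlagH

open Finset Pool.Agent.ICyc.Flag

/-- `adjM c` is symmetric with zero diagonal -/
def okMB (m c : ℕ) : Bool :=
  allB m (fun i => and (Nat.beq (adjM c i i) 0)
    (allB m (fun j => Nat.beq (adjM c i j) (adjM c j i))))

theorem okMB_spec {m c : ℕ} (h : okMB m c = true) : OkM m c := by
  have h1 : ∀ i, i < m → (Nat.beq (adjM c i i) 0 &&
      allB m (fun j => Nat.beq (adjM c i j) (adjM c j i))) = true := allB_true m _ h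
  constructor
  · intro i hi
    have h2 := h1 i hi
    rw [Bool.and_eq_true] at h2
    exact Nat.eq_of_beq_eq_true h2.1
  · intro i j hi hj
    have h2 := h1 i hi
    rw [Bool.and_eq_true] at h2
    exact Nat.eq_of_beq_eq_true (allB_true m _ h2.2 j hj)

/-- `okMB` for all codes of a list -/
def okL (m : ℕ) (L : List ℕ) : Bool :=
  List.rec (motive := fun _ => Bool) true (fun c _ ih => and (okMB m c) ih) L

theorem okL_mem (m : ℕ) (L : List ℕ) (h : okL m L = true) : ∀ c ∈ L, OkM m c := by
  induction L with
  | nil => intro c hc; simp at hc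
  | cons a L ih =>
    intro c hc
    have h' : (okMB m a && okL m L) = true := h
    rw [Bool.and_eq_true] at h'
    rcases List.mem_cons.mp hc with h1 | h1
    · exact h1 ▸ okMB_spec h'.1
    · exact ih h'.2 c h1

/-- `type0` for all codes of a list, with the common values of the entries -/
noncomputable def zeroL (m : ℕ) (T : FT) (T8 : Trie) (OFF : ℕ) (L : List (ℕ × ℕ)) : Bool :=
  List.rec (motive := fun _ => Bool) true (fun p _ ih => and (type0 m T T8 OFF p.2 p.1) ih) L

theorem zeroL_mem (m : ℕ) (T : FT) (T8 : Trie) (OFF : ℕ) (L : List (ℕ × ℕ))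
    (h : zeroL m T T8 OFF L = true) : ∀ p ∈ L, type0 m T T8 OFF p.2 p.1 = true := by
  induction L with
  | nil => intro c hc; simp at hc
  | cons a L ih =>
    intro c hc
    have h' : (type0 m T T8 OFF a.2 a.1 && zeroL m T T8 OFF L) = true := h
    rw [Bool.and_eq_true] at h'
    rcases List.mem_cons.mp hc with h1 | h1
    · exact h1 ▸ h'.1
    · exact ih h'.2 c h1

/-- a number occurs in a list -/
def memB (L : List ℕ) (x : ℕ) : Bool :=
  List.rec (motive := fun _ => Bool) false (fun y _ ih => or (Nat.beq y x) ih) L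

theorem memB_mem (L : List ℕ) (x : ℕ) (h : memB L x = true) : x ∈ L := by
  induction L with
  | nil => exact absurd h (by change ¬ false = true; simp)
  | cons y L ih =>
    have h' : (Nat.beq y x || memB L x) = true := h
    rw [Bool.or_eq_true] at h'
    rcases h' with h' | h'
    · rw [Nat.eq_of_beq_eq_true h']
      exact List.mem_cons_self
    · exact List.mem_cons_of_mem _ (ih h')

/-- all elements of a list occur in the list of the codes -/
def subB (M : List ℕ) (L : List ℕ) : Bool :=
  List.rec (motive := fun _ => Bool) true (fun x _ ih => and (memB M x) ih) L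

theorem subB_mem (M L : List ℕ) (h : subB M L = true) : ∀ x ∈ L, x ∈ M := by
  induction L with
  | nil => intro c hc; simp at hc
  | cons a L ih =>
    intro c hc
    have h' : (memB M a && subB M L) = true := h
    rw [Bool.and_eq_true] at h'
    rcases List.mem_cons.mp hc with h1 | h1
    · exact h1 ▸ memB_mem M a h'.1
    · exact ih h'.2 c h1

/-- the first entries of the pairs of a list -/
def fsts (L : List (ℕ × ℕ)) : List ℕ :=
  List.rec (motive := fun _ => List ℕ) [] (fun p _ ih => p.1 :: ih) L

theorem mem_fsts (L : List (ℕ × ℕ)) (x : ℕ) (h : x ∈ fsts L) : ∃ p ∈ L, p.1 = x := by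
  induction L with
  | nil => exact absurd h (by simp [fsts])
  | cons a L ih =>
    have h' : x ∈ a.1 :: fsts L := h
    rcases List.mem_cons.mp h' with h1 | h1
    · exact ⟨a, List.mem_cons_self, h1.symm⟩
    · obtain ⟨p, hp, hp'⟩ := ih h1
      exact ⟨p, List.mem_cons_of_mem _ hp, hp'⟩

/-- the types of a list satisfy the property -/
theorem zero_types {m : ℕ} (hm : m ≤ 16) {T : FT} {T8 : Trie} {OFF : ℕ} {L : List (ℕ × ℕ)}
    (h : zeroL m T T8 OFF L = true) {c : ℕ} (hc : OkM m c) (hL : c ∈ fsts L) :
    TypeProp m c (fT T OFF) (vlow m T8 c) := by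
  obtain ⟨p, hp, rfl⟩ := mem_fsts L c hL
  exact type0_sound hm hc (zeroL_mem m T T8 OFF L h p hp)

end Pool.Agent.ICyc.FlagH
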