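import Pool.Agent.Lib.MP_131fce_co.FlagH.Types

/-!
# Soundness of the check of the hosts
-/

set_option autoImplicit false

namespace Pool.Agent.ICyc.FlagH

open Finset Pool.Agent.ICyc.Flag

theorem blt_true {a b : ℕ} (h : a < b) : Nat.blt a b = true := Nat.ble_eq_true_of_le h

theorem blt_false {a b : ℕ} (h : ¬ a < b) : Nat.blt a b = false := by
  rw [← Bool.not_eq_true]
  intro h1
  exact h (Nat.le_of_ble_eq_true h1)

theorem extM_eq (m H s i j : ℕ) : extM m H s i j =
    if i < m then (if j < m then adjM H i j else bitN s i) else (if j < m then bitN s j else 0) := by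
  unfold extM
  by_cases h1 : i < m <;> by_cases h2 : j < m <;>
    simp only [h1, h2, if_true, if_false, blt_true, blt_false, not_false_eq_true]

theorem Ok_ext {m H : ℕ} (hH : OkM m H) (s : ℕ) : Ok (m + 1) (extM m H s) := by
  refine ⟨fun i hi => ?_, fun i j hi hj => ?_, fun i j hi hj => ?_⟩
  · rw [extM_eq]
    by_cases h : i < m
    · rw [if_pos h, if_pos h, hH.1 i h]
    · rw [if_neg h, if_neg h]
  · rw [extM_eq, extM_eq]
    by_cases h1 : i < m <;> by_cases h2 : j < m <;> simp only [h1, h2, if_true, if_false]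
    exact hH.2 i j h1 h2
  · rw [extM_eq]
    split_ifs <;> first | exact adjM_le _ _ _ | exact bitN_le _ _ | omega

theorem SA_ext (m H s : ℕ) : SA (m + 1) (extM m H s) =
    bA (m + 1) m H + ∑ i ∈ range m, bitN s i * eA (m + 1) i m := by
  show dA (m + 1) + sP (m + 1) (fun i j => extM m H s i j * eA (m + 1) i j) =
    dA (m + 1) + sP m (fun i j => adjM H i j * eA (m + 1) i j) + _
  rw [sP_eq, sP_eq, sum_range_succ]
  have e1 : ∑ w ∈ range m, ∑ u ∈ range w, extM m H s u w * eA (m + 1) u w =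
      ∑ w ∈ range m, ∑ u ∈ range w, adjM H u w * eA (m + 1) u w := by
    refine sum_congr rfl fun w hw => sum_congr rfl fun u hu => ?_
    have h1 := mem_range.mp hw
    have h2 := mem_range.mp hu
    rw [extM_eq, if_pos (by omega), if_pos h1]
  have e2 : ∑ u ∈ range m, extM m H s u m * eA (m + 1) u m =
      ∑ i ∈ range m, bitN s i * eA (m + 1) i m := by
    refine sum_congr rfl fun u hu => ?_
    have h2 := mem_range.mp hu
    rw [extM_eq, if_pos h2, if_neg (by omega)]
  rw [e1, e2]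
  ring

theorem SB_ext (m H s : ℕ) : SB (m + 1) (extM m H s) =
    bB (m + 1) m H + ∑ i ∈ range m, bitN s i * eB (m + 1) i m := by
  show dB (m + 1) + sP (m + 1) (fun i j => extM m H s i j * eB (m + 1) i j) =
    dB (m + 1) + sP m (fun i j => adjM H i j * eB (m + 1) i j) + _
  rw [sP_eq, sP_eq, sum_range_succ]
  have e1 : ∑ w ∈ range m, ∑ u ∈ range w, extM m H s u w * eB (m + 1) u w =
      ∑ w ∈ range m, ∑ u ∈ range w, adjM H u w * eB (m + 1) u w := by
    refine sum_congr rfl fun w hw => sum_congr rfl fun u hu => ?_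
    have h1 := mem_range.mp hw
    have h2 := mem_range.mp hu
    rw [extM_eq, if_pos (by omega), if_pos h1]
  have e2 : ∑ u ∈ range m, extM m H s u m * eB (m + 1) u m =
      ∑ i ∈ range m, bitN s i * eB (m + 1) i m := by
    refine sum_congr rfl fun u hu => ?_
    have h2 := mem_range.mp hu
    rw [extM_eq, if_pos h2, if_neg (by omega)]
  rw [e1, e2]
  ring

/-- the walk invariants -/
def w3 (N : ℕ) (a : ℕ → ℕ → ℕ) : ℕ → ℕ := mvN N a (mvN N a (mvN N a (fun _ => 1)))

theorem w3_lt (N : ℕ) (a : ℕ → ℕ → ℕ) (i : ℕ) : w3 N a i < 2 ^ 20 := mvN_lt _ _ _ _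

theorem top_digit {m : ℕ} {x : ℕ → ℕ} (hx : ∀ i, x i < 2 ^ 40) :
    (pk 40 (m + 1) x) >>> (40 * m) = x m := by
  rw [pk_shift fun n _ => hx n, pk]
  simp

theorem geAll_spec {N : ℕ} {x : ℕ → ℕ} {t : ℕ} (ht : t < 2 ^ 20) (hx : ∀ i, i < N → x i ≤ t) :
    geAll N (pk 40 N x) t = true := by
  have e1 : (t + 1048576) * gs 40 1 N - pk 40 N x = pk 40 N (fun i => t + 1048576 - x i) := by
    rw [gs_eq, pk_mulc]
    have h1 : pk 40 N (fun i => t + 1048576 - x i) + pk 40 N x =
        pk 40 N (fun _ => (t + 1048576) * 1) := by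
      rw [pk_add]
      refine pk_congr fun i hi => ?_
      have := hx i hi
      omega
    omega
  have e2 : pk 40 N (fun i => t + 1048576 - x i) &&& gs 40 1048576 N = gs 40 1048576 N := by
    rw [gs_eq, pk_land (by norm_num) (fun i _ => by norm_num at ht ⊢; omega)
      (fun i _ => by norm_num)]
    refine pk_congr fun i hi => ?_
    have h1 := hx i hi
    obtain ⟨d, hd⟩ : ∃ d, d = t - x i := ⟨_, rfl⟩
    have h2 : t + 1048576 - x i = 2 ^ 20 * 1 + d := by omega
    have h3 : d < 2 ^ 20 := by omega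
    rw [h2, Nat.two_pow_add_eq_or_of_lt h3, show (1048576 : ℕ) = 2 ^ 20 * 1 by norm_num,
      Nat.and_comm, Nat.and_or_distrib_left, Nat.and_self]
    have h4 : 2 ^ 20 * 1 &&& d = 0 := by
      rw [mul_one]
      refine Nat.eq_of_testBit_eq fun b => ?_
      rw [Nat.testBit_and, Nat.testBit_two_pow, Nat.zero_testBit]
      by_cases hb : 20 = b
      · subst hb
        rw [Nat.testBit_lt_two_pow h3]
        simp
      · simp [hb]
    rw [h4, Nat.or_zero]
  show Nat.beq (((t + 1048576) * gs 40 1 N - pk 40 N x) &&& gs 40 1048576 N)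
    (gs 40 1048576 N) = true
  rw [e1, e2]
  exact Nat.beq_refl _

theorem tot_eq {N : ℕ} (hN : N ≤ 1000) {a : ℕ → ℕ → ℕ} (ha : Ok N a) (T : FT) :
    tot N T (SA N a) (SB N a) =
      2 * ∑ w ∈ range N, ∑ u ∈ range w, T.get (hshN N a u w) := by
  show 2 * sP N (fun u w => T.get (hp N (SA N a) (SB N a) u w)) = _
  rw [sP_eq]
  congr 1
  refine sum_congr rfl fun w hw => sum_congr rfl fun u hu => ?_
  have h1 := mem_range.mp hw
  have h2 := mem_range.mp hu
  rw [hp_eq hN ha (by omega) h1 (by omega)]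

theorem Tsum_eq {N : ℕ} (a : ℕ → ℕ → ℕ) (T : FT) (OFF : ℕ) :
    Tsum (fT T OFF) (fun i j : Fin N => a i j) =
      2 * (∑ w ∈ range N, ∑ u ∈ range w, (T.get (hshN N a u w) : ℤ)) - N * (N - 1) * OFF := by
  have h1 : Tsum (fT T OFF) (fun i j : Fin N => a i j) = ∑ u ∈ range N, ∑ w ∈ range N,
      (if u = w then 0 else fT T OFF (hshN N a u w)) := by
    rw [Tsum, sum_range]
    refine sum_congr rfl fun u _ => ?_
    rw [sum_range]
    refine sum_congr rfl fun w _ => ?_
    rw [hsh_fin]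
    simp only [Fin.ext_iff]
  have hcomm : ∀ u w, u < N → w < N → hshN N a w u = hshN N a u w := by
    intro u w hu hw
    have h2 := hsh_comm (fun i j : Fin N => a i j) ⟨w, hw⟩ ⟨u, hu⟩
    rwa [hsh_fin, hsh_fin] at h2
  rw [h1, sum_sq]
  have h3 : ∑ i ∈ range N, (if i = i then (0 : ℤ) else fT T OFF (hshN N a i i)) = 0 :=
    sum_eq_zero fun i _ => if_pos rfl
  have h4 : ∀ j ∈ range N, ∑ i ∈ range j, ((if i = j then (0 : ℤ) else fT T OFF (hshN N a i j)) +
      (if j = i then 0 else fT T OFF (hshN N a j i))) =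
      2 * ∑ i ∈ range j, (T.get (hshN N a i j) : ℤ) - 2 * (j * OFF) := by
    intro j hj
    have hj' := mem_range.mp hj
    have h5 : ∀ i ∈ range j, ((if i = j then (0 : ℤ) else fT T OFF (hshN N a i j)) +
      (if j = i then 0 else fT T OFF (hshN N a j i))) =
        2 * (T.get (hshN N a i j) : ℤ) - 2 * OFF := by
      intro i hi
      have hi' := mem_range.mp hi
      rw [if_neg (by omega), if_neg (by omega), hcomm i j (by omega) hj', fT]
      ring
    rw [sum_congr rfl h5, sum_sub_distrib, mul_sum, sum_const, card_range]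
    simp
    ring
  rw [h3, zero_add, sum_congr rfl h4, sum_sub_distrib, mul_sum]
  congr 1
  rw [← mul_sum, ← sum_mul]
  have h6 : (∑ i ∈ range N, (i : ℤ)) * 2 = N * (N - 1) := by
    have := Finset.sum_range_id_mul_two N
    rcases Nat.eq_zero_or_pos N with h0 | h0
    · subst h0
      simp
    · have h7 : ((∑ i ∈ range N, i : ℕ) : ℤ) * 2 = (N : ℤ) * ((N - 1 : ℕ) : ℤ) := by
        exact_mod_cast this
      rw [Nat.cast_sub h0] at h7
      push_cast at h7
      exact h7
  rw [← h6]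
  ring

/-- the check of a host -/
theorem host_sound {m H KK : ℕ} {T : FT} {C : Trie} (hm : m ≤ 16) (hH : OkM m H)
    (h : hostOK m T C KK H = true) {s : ℕ} (hs : s < 2 ^ m) (hi : Indep m H s)
    (hmax : ∀ i, i < m + 1 → w3 (m + 1) (extM m H s) i ≤ w3 (m + 1) (extM m H s) m)
    (hgate : C.ev (extM m H s) 0 [] (List.range (m + 1)) ≠ 0 →
      w3 (m + 1) (extM m H s) m = 2373 ^ 3 % 2 ^ 20) :
    C.ev (extM m H s) 0 [] (List.range (m + 1)) +
      2 * (∑ w ∈ range (m + 1), ∑ u ∈ range w,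
        (T.get (hshN (m + 1) (extM m H s) u w) : ℤ)) ≤ KK := by
  have ho := Ok_ext hH s
  have h1 : hostLeaf (m + 1) m T C KK H s (SA (m + 1) (extM m H s))
      (SB (m + 1) (extM m H s)) = true := by
    rw [SA_ext, SB_ext]
    exact dfsH_indep hm h hs hi
  have e0 : wp (m + 1) (SA (m + 1) (extM m H s)) (SB (m + 1) (extM m H s)) =
      pk 40 (m + 1) (w3 (m + 1) (extM m H s)) := wp_eq (by omega) (by omega) ho
  have e1 : Nat.shiftRight (pk 40 (m + 1) (w3 (m + 1) (extM m H s))) (Nat.mul 40 m) =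
      w3 (m + 1) (extM m H s) m := top_digit fun i => (w3_lt _ _ _).trans (by norm_num)
  rw [hostLeaf, e0, e1, geAll_spec (w3_lt _ _ _) hmax, tot_eq (by omega) ho] at h1
  have e2 : Nat.mod (Nat.pow 2373 3) (Nat.pow 2 20) = 2373 ^ 3 % 2 ^ 20 := rfl
  rw [e2] at h1
  have h2 : (Bool.rec (motive := fun _ => Bool)
      (Nat.ble (2 * ∑ w ∈ range (m + 1), ∑ u ∈ range w,
        T.get (hshN (m + 1) (extM m H s) u w)) KK)
      (decide (Int.add (C.ev (extM m H s) 0 [] (List.range (m + 1)))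
        (Int.ofNat (2 * ∑ w ∈ range (m + 1), ∑ u ∈ range w,
          T.get (hshN (m + 1) (extM m H s) u w))) ≤ Int.ofNat KK))
      (Nat.beq (w3 (m + 1) (extM m H s) m) (2373 ^ 3 % 2 ^ 20))) = true := h1
  cases hb : Nat.beq (w3 (m + 1) (extM m H s) m) (2373 ^ 3 % 2 ^ 20) with
  | false =>
    rw [hb] at h2
    have h3 := Nat.le_of_ble_eq_true h2
    have h4 : C.ev (extM m H s) 0 [] (List.range (m + 1)) = 0 := by
      by_contra hne
      have h5 := hgate hne
      rw [h5, Nat.beq_refl] at hb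
      exact absurd hb (by simp)
    rw [h4, zero_add]
    exact_mod_cast h3
  | true =>
    rw [hb] at h2
    have h3 := of_decide_eq_true h2
    have h4 : C.ev (extM m H s) 0 [] (List.range (m + 1)) +
        ((2 * ∑ w ∈ range (m + 1), ∑ u ∈ range w,
          T.get (hshN (m + 1) (extM m H s) u w) : ℕ) : ℤ) ≤ (KK : ℤ) := h3
    push_cast at h4
    exact h4

theorem hostL_mem (m : ℕ) (T : FT) (C : Trie) (KK : ℕ) (L : List ℕ)
    (h : hostL m T C KK L = true) : ∀ H ∈ L, hostOK m T C KK H = true := by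
  induction L with
  | nil => intro H hH; simp at hH
  | cons H0 L ih =>
    intro H hH
    have h' : (hostOK m T C KK H0 && hostL m T C KK L) = true := h
    rw [Bool.and_eq_true] at h'
    rcases List.mem_cons.mp hH with h1 | h1
    · exact h1 ▸ h'.1
    · exact ih h'.2 H h1

end Pool.Agent.ICyc.FlagH
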