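import Pool.Agent.Lib.MP_131fce_co.FlagH.Types

/-!
# Soundness of the check of a type with a certificate
-/

set_option autoImplicit false

namespace Pool.Agent.ICyc.FlagH

open Finset Pool.Agent.ICyc.Flag

theorem par_spec (ct : Cert) (h : parOK ct = true) :
    0 < ct.s ∧ 0 < ct.w ∧
    (ct.mP < 2 ^ ct.w ∧ ct.mG < 2 ^ ct.w ∧ ct.mR < 2 ^ ct.w ∧ ct.mE < 2 ^ ct.w) ∧
    ct.r * (ct.mP * ct.mP) < 2 ^ ct.w - 1 ∧ ct.r * (ct.mG * ct.mR) < 2 ^ ct.w - 1 ∧
    ct.r * (ct.mR * ct.mE) < 2 ^ ct.w - 1 ∧ ct.r * ct.mP < 2 ^ ct.w - 1 ∧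
    ct.r * ct.mG < 2 ^ ct.w - 1 ∧ ct.r * ct.mR < 2 ^ ct.w - 1 ∧
    ct.r * ct.mE < 2 ^ ct.w - 1 := by
  have h' : (Nat.blt 0 ct.s &&
    (Nat.blt ((ct.r + 1) * (ct.mP * ct.mP)) (2 ^ ct.w - 1) &&
    (Nat.blt ((ct.r + 1) * (ct.mG * ct.mR)) (2 ^ ct.w - 1) &&
    (Nat.blt ((ct.r + 1) * (ct.mR * ct.mE)) (2 ^ ct.w - 1) &&
    (Nat.blt ((ct.r + 1) * ct.mP) (2 ^ ct.w - 1) &&
    (Nat.blt ((ct.r + 1) * ct.mG) (2 ^ ct.w - 1) &&
    (Nat.blt ((ct.r + 1) * ct.mR) (2 ^ ct.w - 1) &&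
    Nat.blt ((ct.r + 1) * ct.mE) (2 ^ ct.w - 1)))))))) = true := h
  simp only [Bool.and_eq_true, Nat.blt_eq, Nat.add_mul, Nat.one_mul] at h'
  obtain ⟨h0, h1, h2, h3, h4, h5, h6, h7⟩ := h'
  have hw : 0 < ct.w := by
    rcases Nat.eq_zero_or_pos ct.w with h8 | h8
    · rw [h8] at h1
      simp at h1
    · exact h8
  refine ⟨h0, hw, ⟨?_, ?_, ?_, ?_⟩, ?_, ?_, ?_, ?_, ?_, ?_, ?_⟩ <;> omega

theorem row_spec {w r hG hR hE mP mG mR mE : ℕ} {E : List ℕ} {P G R : ℕ}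
    (hw : 0 < w) (hmR : mR < 2 ^ w) (hmE : mE < 2 ^ w)
    (hRE : r * (mR * mE) < 2 ^ w - 1) (hrR : r * mR < 2 ^ w - 1)
    (hrE : r * mE < 2 ^ w - 1)
    (hlen : E.length = r) (hdE : ∀ a, a < r → dig w r mE (E.getD a 0) = true)
    (h : rowOK w r hG hR hE mP mG mR E P G R = true) :
    dig w r mP P = true ∧ dig w r mG G = true ∧ dig w r mR R = true ∧
      ∀ a, a < r → sg w hG G a = ∑ b ∈ range r, sg w hR R b * sg w hE (E.getD a 0) b := by
  have h' : ((dig w r mP P && (dig w r mG G && dig w r mR R)) &&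
    loopL (fun a Ea => Nat.beq (lk w G a + (hR * sm w Ea + hE * sm w R))
      (hG + r * (hR * hE) + dt w r R Ea)) E 0) = true := h
  simp only [Bool.and_eq_true] at h'
  obtain ⟨⟨h1, h2, h3⟩, h4⟩ := h'
  refine ⟨h1, h2, h3, fun a ha => ?_⟩
  have h5 := loop_spec _ _ _ h4 a (by rw [hlen]; exact ha)
  have h6 := Nat.eq_of_beq_eq_true h5
  rw [Nat.zero_add, sm_spec hw hmE hrE (hdE a ha), sm_spec hw hmR hrR h3,
    dt_spec hw hmR hmE hRE h3 (hdE a ha)] at h6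
  have h7 : (lk w G a : ℤ) + (hR * (∑ k ∈ range r, (lk w (E.getD a 0) k : ℤ)) +
      hE * (∑ k ∈ range r, (lk w R k : ℤ))) = hG + r * (hR * hE) +
      ∑ k ∈ range r, (lk w R k : ℤ) * lk w (E.getD a 0) k := by exact_mod_cast h6
  have h8 := dot_signed r (lk w R) (lk w (E.getD a 0)) hR hE
  unfold sg
  rw [h8]
  linarith

theorem pair_spec {N m : ℕ} {T : FT} {Ac Bc w r s hP hG hR C0 mP mG mR S P G S' P' R' : ℕ}
    (hw : 0 < w) (hmP : mP < 2 ^ w) (hmG : mG < 2 ^ w) (hmR : mR < 2 ^ w)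
    (hPP : r * (mP * mP) < 2 ^ w - 1) (hGR : r * (mG * mR) < 2 ^ w - 1)
    (hrP : r * mP < 2 ^ w - 1) (hrG : r * mG < 2 ^ w - 1)
    (hrR : r * mR < 2 ^ w - 1)
    (dP : dig w r mP P = true) (dP' : dig w r mP P' = true) (dG : dig w r mG G = true)
    (dR' : dig w r mR R' = true)
    (h : pairOK N m T Ac Bc w r s hP hG hR C0 S P G S' P' R' = true) :
    (s : ℤ) * (ent2 N m T (Ac + cS N m m S + cS N m (m + 1) S')
      (Bc + cT N m m S + cT N m (m + 1) S') : ℤ) =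
      C0 - (r * (hP * hP) + r * (hG * hR)) + ∑ k ∈ range r, sg w hP P k * sg w hP P' k +
        ∑ k ∈ range r, sg w hG G k * sg w hR R' k := by
  have h' : s * ent2 N m T (Ac + cS N m m S + cS N m (m + 1) S')
      (Bc + cT N m m S + cT N m (m + 1) S') + (hP * (sm w P + sm w P') + (hR * sm w G + hG * sm w R')) =
      C0 + (dt w r P P' + dt w r G R') := Nat.eq_of_beq_eq_true h
  rw [sm_spec hw hmP hrP dP, sm_spec hw hmP hrP dP', sm_spec hw hmG hrG dG, sm_spec hw hmR hrR dR',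
    dt_spec hw hmP hmP hPP dP dP', dt_spec hw hmG hmR hGR dG dR'] at h'
  have h1 : (s : ℤ) * (ent2 N m T (Ac + cS N m m S + cS N m (m + 1) S')
      (Bc + cT N m m S + cT N m (m + 1) S') : ℤ) +
      (hP * ((∑ k ∈ range r, (lk w P k : ℤ)) + ∑ k ∈ range r, (lk w P' k : ℤ)) +
      (hR * (∑ k ∈ range r, (lk w G k : ℤ)) + hG * (∑ k ∈ range r, (lk w R' k : ℤ)))) =
      C0 + ((∑ k ∈ range r, (lk w P k : ℤ) * lk w P' k) +
        ∑ k ∈ range r, (lk w G k : ℤ) * lk w R' k) := by exact_mod_cast h'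
  have h2 := dot_signed r (lk w P) (lk w P') hP hP
  have h3 := dot_signed r (lk w G) (lk w R') hG hR
  unfold sg
  rw [h2, h3]
  linarith

theorem type1_sound {m c : ℕ} (hm : m ≤ 16) (hc : OkM m c) {T : FT} {T8 : Trie} {OFF : ℕ}
    {ct : Cert} (h : type1 m T T8 OFF c ct = true) : TypeProp m c (fT T OFF) (vlow m T8 c) := by
  classical
  have h' : ((parOK ct && decide ((ct.s : ℤ) * ((OFF : ℤ) + vlow m T8 c) +
      ((ct.r * (ct.hP * ct.hP) + ct.r * (ct.hG * ct.hR) : ℕ) : ℤ) = (ct.C0 : ℤ))) &&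
    (dfsH (m + 2) c m (fun S _ _ => ct.L.mem S) m 0 0 0 0 &&
    (eOK ct.w ct.r ct.hE ct.mE ct.e ct.E 0 &&
    (rowsOK ct.w ct.r ct.hG ct.hR ct.hE ct.mP ct.mG ct.mR ct.E ct.L &&
    pairs (fun S P G S' P' R' => pairOK (m + 2) m T (bA (m + 2) m c)
      (bB (m + 2) m c) ct.w ct.r ct.s ct.hP ct.hG ct.hR ct.C0 S P G S' P' R') ct.L)))) = true := h
  simp only [Bool.and_eq_true, decide_eq_true_eq] at h'
  obtain ⟨⟨hpar, hC⟩, hmem, hE, hrows, hpairs⟩ := h'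
  obtain ⟨hs, hw, ⟨hmP, hmG, hmR, hmE⟩, hPP, hGR, hRE, hrP, hrG, hrR, hrE⟩ := par_spec ct hpar
  obtain ⟨hlen, hE1, hE2⟩ := eOK_spec _ _ _ _ _ _ _ hE
  rw [Nat.zero_add] at hlen
  simp only [Nat.zero_add] at hE1 hE2
  rw [hlen] at hE1 hE2
  have hdE : ∀ a, a < ct.r → dig ct.w ct.r ct.mE (ct.E.getD a 0) = true := fun a ha => (hE1 a ha).1
  have hrows' := rows_spec _ _ _ _ _ _ _ _ _ _ hrows
  have hpairs' := pairs_spec _ _ hpairs
  -- the row of a set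
  have hex : ∀ S, ∃ (i : ℕ) (a : ℕ × ℕ × ℕ × ℕ), S < 2 ^ m → Indep m c S →
      ct.L.toL[i]? = some a ∧ a.1 = S := by
    intro S
    by_cases hS : S < 2 ^ m ∧ Indep m c S
    · obtain ⟨i, a, h1⟩ := mem_spec _ _ (dfsH_indep hm hmem hS.1 hS.2)
      exact ⟨i, a, fun _ _ => h1⟩
    · exact ⟨0, (0, 0, 0, 0), fun h1 h2 => absurd ⟨h1, h2⟩ hS⟩
  choose idx row hrow using hex
  have hrs : ∀ S, S < 2 ^ m → Indep m c S →
      dig ct.w ct.r ct.mP (row S).2.1 = true ∧ dig ct.w ct.r ct.mG (row S).2.2.1 = true ∧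
      dig ct.w ct.r ct.mR (row S).2.2.2 = true ∧ ∀ a, a < ct.r → sg ct.w ct.hG (row S).2.2.1 a =
        ∑ b ∈ range ct.r, sg ct.w ct.hR (row S).2.2.2 b * sg ct.w ct.hE (ct.E.getD a 0) b := by
    intro S hS hi
    exact row_spec hw hmR hmE hRE hrR hrE hlen hdE (hrows' _ _ (hrow S hS hi).1)
  have hEs : ∀ a b, a < ct.r → b < ct.r → sg ct.w ct.hE (ct.E.getD a 0) b =
      sg ct.w ct.hE (ct.E.getD b 0) a := by
    intro a b ha hb
    unfold sg
    rcases Nat.lt_trichotomy a b with h1 | h1 | h1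
    · rw [(hE2 a b h1 hb).1]
    · rw [h1]
    · rw [(hE2 b a h1 ha).1]
  have hsymm : ∀ S S', S < 2 ^ m → Indep m c S → S' < 2 ^ m → Indep m c S' →
      ∑ a ∈ range ct.r, sg ct.w ct.hG (row S).2.2.1 a * sg ct.w ct.hR (row S').2.2.2 a =
      ∑ a ∈ range ct.r, sg ct.w ct.hG (row S').2.2.1 a * sg ct.w ct.hR (row S).2.2.2 a := by
    intro S S' hS hi hS' hi'
    have e1 : ∀ S S', S < 2 ^ m → Indep m c S →
        ∑ a ∈ range ct.r, sg ct.w ct.hG (row S).2.2.1 a * sg ct.w ct.hR (row S').2.2.2 a =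
        ∑ a ∈ range ct.r, ∑ b ∈ range ct.r, sg ct.w ct.hR (row S).2.2.2 b *
          sg ct.w ct.hE (ct.E.getD a 0) b * sg ct.w ct.hR (row S').2.2.2 a := by
      intro S S' hS hi
      refine sum_congr rfl fun a ha => ?_
      rw [(hrs S hS hi).2.2.2 a (mem_range.mp ha), sum_mul]
    rw [e1 S S' hS hi, e1 S' S hS' hi', sum_comm]
    refine sum_congr rfl fun a ha => sum_congr rfl fun b hb => ?_
    rw [hEs b a (mem_range.mp hb) (mem_range.mp ha)]
    ring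
  -- the equations of the pairs
  have hle : ∀ S S', S < 2 ^ m → Indep m c S → S' < 2 ^ m → Indep m c S' → idx S ≤ idx S' →
      (ct.s : ℤ) * (fT T OFF (h2 m c S S') - vlow m T8 c) =
      ∑ k ∈ range ct.r, sg ct.w ct.hP (row S).2.1 k * sg ct.w ct.hP (row S').2.1 k +
        ∑ a ∈ range ct.r, sg ct.w ct.hG (row S).2.2.1 a * sg ct.w ct.hR (row S').2.2.2 a := by
    intro S S' hS hi hS' hi' hle
    obtain ⟨h1, h2⟩ := hrow S hS hi
    obtain ⟨h3, h4⟩ := hrow S' hS' hi'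
    have h5 := hpairs' _ _ _ _ hle h1 h3
    rw [h2, h4] at h5
    obtain ⟨g1, g2, -, -⟩ := hrs S hS hi
    obtain ⟨g4, -, g6, -⟩ := hrs S' hS' hi'
    have h6 := pair_spec hw hmP hmG hmR hPP hGR hrP hrG hrR g1 g4 g2 g6 h5
    rw [ent2_eq (by omega) hc] at h6
    rw [fT]
    have h7 : (ct.s : ℤ) * ((OFF : ℤ) + vlow m T8 c) + (ct.r * (ct.hP * ct.hP) +
      ct.r * (ct.hG * ct.hR)) = (ct.C0 : ℤ) := by exact_mod_cast hC
    linarith
  have hall : ∀ S S', S < 2 ^ m → Indep m c S → S' < 2 ^ m → Indep m c S' →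
      (ct.s : ℤ) * (fT T OFF (h2 m c S S') - vlow m T8 c) =
      ∑ k ∈ range ct.r, sg ct.w ct.hP (row S).2.1 k * sg ct.w ct.hP (row S').2.1 k +
        ∑ a ∈ range ct.r, sg ct.w ct.hG (row S).2.2.1 a * sg ct.w ct.hR (row S').2.2.2 a := by
    intro S S' hS hi hS' hi'
    rcases Nat.le_total (idx S) (idx S') with h1 | h1
    · exact hle S S' hS hi hS' hi' h1
    · rw [h2_comm, hle S' S hS' hi' hS hi h1, hsymm S' S hS' hi' hS hi]
      congr 1
      exact sum_congr rfl fun k _ => mul_comm _ _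
  refine typeProp_of_psd fun cf hcf => ?_
  have key := psd_abs (2 ^ m) ct.r ct.s ct.e (by exact_mod_cast hs) (by positivity)
    (fun S S' => if Indep m c S ∧ Indep m c S' then fT T OFF (h2 m c S S') - vlow m T8 c else 0)
    (fun S k => if Indep m c S then sg ct.w ct.hP (row S).2.1 k else 0)
    (fun S k => if Indep m c S then sg ct.w ct.hG (row S).2.2.1 k else 0)
    (fun S k => if Indep m c S then sg ct.w ct.hR (row S).2.2.2 k else 0)
    (fun a b => sg ct.w ct.hE (ct.E.getD a 0) b) ?_ ?_ ?_ ?_ cf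
  · refine key.trans (le_of_eq (sum_congr rfl fun S hS => sum_congr rfl fun S' hS' => ?_))
    have hS := mem_range.mp hS
    have hS' := mem_range.mp hS'
    by_cases hi : Indep m c S
    · by_cases hi' : Indep m c S'
      · rw [if_pos ⟨hi, hi'⟩]
      · rw [hcf S' hS' hi', mul_zero, mul_zero]
    · rw [hcf S hS hi, mul_zero, zero_mul, mul_zero, zero_mul]
  · intro S hS S' hS'
    by_cases hi : Indep m c S
    · by_cases hi' : Indep m c S'
      · rw [if_pos ⟨hi, hi'⟩]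
        simp only [if_pos hi, if_pos hi']
        exact hall S S' hS hi hS' hi'
      · rw [if_neg (fun h1 => hi' h1.2)]
        simp only [if_neg hi', mul_zero, sum_const_zero, add_zero]
    · rw [if_neg (fun h1 => hi h1.1)]
      simp only [if_neg hi, mul_zero, zero_mul, sum_const_zero, add_zero]
  · intro S hS a ha
    by_cases hi : Indep m c S
    · simp only [if_pos hi]
      exact (hrs S hS hi).2.2.2 a ha
    · simp only [if_neg hi, zero_mul, sum_const_zero]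
  · intro a ha b hb hab
    have h1 : ∀ a b, a < b → b < ct.r → |sg ct.w ct.hE (ct.E.getD a 0) b| ≤ ct.e := by
      intro a b hab hb
      obtain ⟨-, g2, g3⟩ := hE2 a b hab hb
      unfold sg
      rw [abs_le]
      constructor
      · have : (ct.hE : ℤ) ≤ lk ct.w (ct.E.getD a 0) b + ct.e := by exact_mod_cast g2
        linarith
      · have : (lk ct.w (ct.E.getD a 0) b : ℤ) ≤ ct.hE + ct.e := by exact_mod_cast g3
        linarith
    rcases Nat.lt_or_gt_of_ne hab with h2 | h2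
    · exact h1 a b h2 hb
    · rw [hEs a b ha hb]
      exact h1 b a h2 ha
  · intro a ha
    have h1 := (hE1 a ha).2
    have h2 : (ct.hE : ℤ) + ct.r * ct.e ≤ lk ct.w (ct.E.getD a 0) a := by exact_mod_cast h1
    show (ct.r : ℤ) * ct.e ≤ sg ct.w ct.hE (ct.E.getD a 0) a
    unfold sg
    linarith

end Pool.Agent.ICyc.FlagH
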