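import Pool.Agent.Lib.MP_131fce_co.FlagH.Hosts
import Pool.Agent.Lib.MP_131fce_co.FlagH.Types2
import Pool.Agent.Lib.MP_131fce_co.Flag.Main
import Pool.Agent.Lib.MP_131fce_co.Flag.Reps7

/-!
# Certificates with a table indexed by hash values bound the number of induced cycles
-/

set_option autoImplicit false

namespace Pool.Agent.ICyc.FlagH

open Finset Pool.Agent.ICyc.Flag

/-! ### the neighbourhood masks -/

/-- the set of the indices `i` with `b i = 1` -/
def msk (m : ℕ) (b : Fin m → ℕ) : ℕ := ∑ i : Fin m, b i * 2 ^ (i : ℕ)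

theorem msk_eq (m : ℕ) (b : Fin m → ℕ) :
    msk m b = pk 1 m (fun i => if h : i < m then b ⟨i, h⟩ else 0) := by
  rw [msk, pk, sum_range]
  refine sum_congr rfl fun i _ => ?_
  rw [dif_pos i.2, Nat.one_mul]

theorem msk_lt {m : ℕ} {b : Fin m → ℕ} (hb : ∀ i, b i ≤ 1) : msk m b < 2 ^ m := by
  rw [msk_eq]
  have h := pk_lt (w := 1) (L := m) (a := fun i => if h : i < m then b ⟨i, h⟩ else 0)
    (fun i hi => by
      have := hb ⟨i, hi⟩
      simp only [dif_pos hi]
      omega)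
  rwa [Nat.one_mul] at h

theorem msk_bit {m : ℕ} {b : Fin m → ℕ} (hb : ∀ i, b i ≤ 1) (i : Fin m) :
    bitN (msk m b) i = b i := by
  have h := pk_testBit (w := 1) (L := m) (a := fun i => if h : i < m then b ⟨i, h⟩ else 0)
    (fun i hi => by
      have := hb ⟨i, hi⟩
      simp only [dif_pos hi]
      omega) (b := 0) (by norm_num) i
  rw [bitN_eq, msk_eq]
  rw [Nat.one_mul, Nat.add_zero] at h
  rw [h]
  have h1 := hb i
  have h2 : b i = 0 ∨ b i = 1 := by omega
  rcases h2 with h2 | h2 <;> simp [h2]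

/-! ### evaluation of a trie -/

section ev

variable {V : Type}

theorem E_ev (A : V → V → ℕ) (N : ℕ) (H : ℕ → ℕ → ℕ) (X : Trie) (hX : X.wf N = true)
    (φ : Fin N → V) (hφ : ∀ i j : Fin N, A (φ i) (φ j) = H i j) :
    X.E A 0 [] (List.ofFn φ) = X.ev H 0 [] (List.range N) := by
  have e2 : X.E A 0 (([] : List (Fin N)).map φ) ((List.finRange N).map φ) =
      X.E (fun i j : Fin N => H i j) 0 [] (List.finRange N) :=
    E_map A (fun i j : Fin N => H i j) φ hφ X 0 [] (List.finRange N)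
  have e3 : X.E H 0 (([] : List (Fin N)).map Fin.val) ((List.finRange N).map Fin.val) =
      X.E (fun i j : Fin N => H i j) 0 [] (List.finRange N) :=
    E_map H (fun i j : Fin N => H i j) Fin.val (fun _ _ => rfl) X 0 []
      (List.finRange N)
  rw [List.map_nil] at e2 e3
  rw [List.ofFn_eq_map, e2, ← e3, List.map_coe_finRange_eq_range]
  exact E_eq_ev H X 0 [] (List.range N) (by rw [List.length_range]; exact hX)

end ev

/-! ### types -/

section types

variable {V : Type} [Fintype V]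

omit [Fintype V] in
theorem hsh_types {m c : ℕ} {A : V → V → ℕ} (hsym : ∀ u v, A u v = A v u)
    (h01 : ∀ u v, A u v ≤ 1) (φ : Fin m → V) (hφ : ∀ i j : Fin m, A (φ i) (φ j) = adjM c i j)
    (hirr : ∀ v, A v v = 0) (y z : V) :
    hsh (pb A (Sum.elim φ ![y, z])) (Sum.inr 0) (Sum.inr 1) =
      h2 m c (msk m (fun i => A (φ i) y)) (msk m (fun i => A (φ i) z)) := by
  set S := msk m (fun i => A (φ i) y) with hS
  set T := msk m (fun i => A (φ i) z) with hT
  have hSb : ∀ i : Fin m, bitN S i = A (φ i) y := fun i => msk_bit (fun i => h01 _ _) i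
  have hTb : ∀ i : Fin m, bitN T i = A (φ i) z := fun i => msk_bit (fun i => h01 _ _) i
  have e1 : cut (pb A (Sum.elim φ ![y, z])) (Sum.inr 0) (Sum.inr 1) =
      fun i j => (fun i j : Fin (m + 2) => ex2 m c S T i j) (finSumFinEquiv i)
        (finSumFinEquiv j) := by
    funext i j
    have key : ∀ (p : Fin m) (q : Fin 2),
        ex2 m c S T (p : ℕ) (m + (q : ℕ)) = A (φ p) (![y, z] q) := by
      intro p q
      unfold ex2
      have hp := p.2
      fin_cases q
      · simp [hSb]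
      · simp [hTb]
    have key' : ∀ (p : Fin m) (q : Fin 2),
        ex2 m c S T (m + (q : ℕ)) (p : ℕ) = A (φ p) (![y, z] q) := by
      intro p q
      unfold ex2
      have hp := p.2
      fin_cases q
      · simp [hSb]
      · simp [hTb]
    rcases i with i | i <;> rcases j with j | j
    · simp only [cut, finSumFinEquiv_apply_left, Fin.val_castAdd]
      rw [if_neg (by simp), ex2, if_pos i.2, if_pos j.2]
      exact hφ i j
    · simp only [cut, finSumFinEquiv_apply_left, finSumFinEquiv_apply_right, Fin.val_castAdd,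
        Fin.val_natAdd]
      rw [if_neg (by simp), key]
      rfl
    · simp only [cut, finSumFinEquiv_apply_left, finSumFinEquiv_apply_right, Fin.val_castAdd,
        Fin.val_natAdd]
      rw [if_neg (by simp), key', hsym]
      rfl
    · simp only [cut, finSumFinEquiv_apply_right, Fin.val_natAdd]
      rw [ex2, if_neg (by omega : ¬ m + (i : ℕ) < m), if_neg (by omega : ¬ m + (j : ℕ) < m)]
      by_cases hij : ((Sum.inr i : Fin m ⊕ Fin 2) = Sum.inr 0 ∧
          (Sum.inr j : Fin m ⊕ Fin 2) = Sum.inr 1) ∨ ((Sum.inr i : Fin m ⊕ Fin 2) = Sum.inr 1 ∧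
          (Sum.inr j : Fin m ⊕ Fin 2) = Sum.inr 0)
      · rw [if_pos hij]
      · rw [if_neg hij]
        have hij' : i = j := by
          have h1 : ∀ i j : Fin 2, i = j ∨ (i = 0 ∧ j = 1) ∨ (i = 1 ∧ j = 0) := by decide
          rcases h1 i j with h2 | h2 | h2
          · exact h2
          · exact absurd (Or.inl ⟨congrArg Sum.inr h2.1, congrArg Sum.inr h2.2⟩) hij
          · exact absurd (Or.inr ⟨congrArg Sum.inr h2.1, congrArg Sum.inr h2.2⟩) hij
        rw [hij']
        exact hirr _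
  rw [← hsh_cut, e1, hsh_equiv finSumFinEquiv (fun i j : Fin (m + 2) => ex2 m c S T i j), hsh_fin]
  rfl

theorem Gx_ge {m c : ℕ} {A : V → V → ℕ} (hsym : ∀ u v, A u v = A v u)
    (hirr : ∀ v, A v v = 0) (h01 : ∀ u v, A u v ≤ 1)
    (htri : ∀ u v w, A u v = 1 → A v w = 1 → A u w = 1 → False) (φ : Fin m → V)
    (hφ : ∀ i j : Fin m, A (φ i) (φ j) = adjM c i j) (f : ℕ → ℤ) (v : ℤ)
    (h : TypeProp m c f v) : v * (Fintype.card V : ℤ) ^ 2 ≤ Gx A f φ := by
  classical
  set M : V → ℕ := fun y => msk m (fun i => A (φ i) y) with hM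
  have hMlt : ∀ y, M y < 2 ^ m := fun y => msk_lt fun i => h01 _ _
  have hMb : ∀ y (i : Fin m), bitN (M y) i = A (φ i) y := fun y i => msk_bit (fun i => h01 _ _) i
  have hMi : ∀ y, Indep m c (M y) := by
    intro y i j hij hj h1 h2 h3
    have e1 := hMb y ⟨i, by omega⟩
    have e2 := hMb y ⟨j, hj⟩
    have e3 := hφ ⟨j, hj⟩ ⟨i, by omega⟩
    simp only at e1 e2 e3
    rw [h1] at e1
    rw [h2] at e2
    rw [h3] at e3
    exact htri _ _ _ e3 e1.symm e2.symm
  set cf : ℕ → ℤ := fun S => ∑ y : V, if M y = S then 1 else 0 with hcf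
  have h0 : ∀ S, S < 2 ^ m → ¬ Indep m c S → cf S = 0 := by
    intro S _ hS
    refine sum_eq_zero fun y _ => if_neg fun h1 => hS ?_
    rw [← h1]
    exact hMi y
  have h1 := h cf h0
  have hcard : ∑ S ∈ range (2 ^ m), cf S = Fintype.card V := by
    rw [hcf, sum_comm]
    have : ∀ y : V, ∑ S ∈ range (2 ^ m), (if M y = S then (1 : ℤ) else 0) = 1 := by
      intro y
      rw [sum_ite_eq, if_pos (mem_range.mpr (hMlt y))]
    rw [sum_congr rfl fun y _ => this y]
    simp
  have h3 : Gx A f φ = ∑ S ∈ range (2 ^ m), ∑ T ∈ range (2 ^ m),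
      f (h2 m c S T) * cf S * cf T := by
    have e1 : ∀ y z : V, f (hsh (pb A (Sum.elim φ ![y, z])) (Sum.inr 0) (Sum.inr 1)) =
        ∑ S ∈ range (2 ^ m), ∑ T ∈ range (2 ^ m), f (h2 m c S T) * (if M y = S then 1 else 0) *
          (if M z = T then 1 else 0) := by
      intro y z
      rw [hsh_types hsym h01 φ hφ hirr y z]
      rw [sum_eq_single_of_mem (M y) (mem_range.mpr (hMlt y)) (fun S _ hS => sum_eq_zero
          fun T _ => by rw [if_neg (fun h : M y = S => hS h.symm), mul_zero, zero_mul]),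
        sum_eq_single_of_mem (M z) (mem_range.mpr (hMlt z)) (fun T _ hT => by
          rw [if_neg (fun h : M z = T => hT h.symm), mul_zero]), if_pos rfl, if_pos rfl, mul_one,
        mul_one]
    rw [Gx]
    simp only [e1]
    have e2 : ∀ y : V, ∑ z : V, ∑ S ∈ range (2 ^ m), ∑ T ∈ range (2 ^ m),
        f (h2 m c S T) * (if M y = S then 1 else 0) * (if M z = T then 1 else 0) =
        ∑ S ∈ range (2 ^ m), ∑ T ∈ range (2 ^ m),
          f (h2 m c S T) * (if M y = S then 1 else 0) * cf T := by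
      intro y
      rw [sum_comm]
      refine sum_congr rfl fun S _ => ?_
      rw [sum_comm]
      refine sum_congr rfl fun T _ => ?_
      rw [hcf, mul_sum]
    rw [sum_congr rfl fun y _ => e2 y, sum_comm]
    refine sum_congr rfl fun S _ => ?_
    rw [sum_comm]
    refine sum_congr rfl fun T _ => ?_
    rw [← sum_mul, ← mul_sum]
  rw [hcard] at h1
  rw [h3]
  exact h1

theorem types_nonneg {m : ℕ} {A : V → V → ℕ} (hsym : ∀ u v, A u v = A v u)
    (hirr : ∀ v, A v v = 0) (h01 : ∀ u v, A u v ≤ 1)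
    (htri : ∀ u v w, A u v = 1 → A v w = 1 → A u w = 1 → False) {R : ℕ → Prop} (hR : Cls A m R)
    {T8 : Trie} (hwf : T8.wf m = true) (hgood : T8.good) {f : ℕ → ℤ}
    (hty : ∀ c, R c → TypeProp m c f (vlow m T8 c)) :
    0 ≤ ∑ x : Fin m → V, Gx A f x := by
  have h1 : ∀ x : Fin m → V,
      T8.E A 0 [] (List.ofFn x) * (Fintype.card V : ℤ) ^ 2 ≤ Gx A f x := by
    intro x
    obtain ⟨c, hc, φ, hperm, hφ⟩ := hR (List.ofFn x) (List.length_ofFn)
    obtain ⟨σ, hσ⟩ := perm_ofFn φ x hperm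
    have e1 : T8.E A 0 [] (List.ofFn x) = vlow m T8 c := by
      rw [← E_perm A T8 0 [] hperm]
      exact E_ev A m (adjM c) T8 hwf φ hφ
    rw [e1, ← Gx_perm A f x σ, ← hσ]
    exact Gx_ge hsym hirr h01 htri φ hφ f _ (hty c hc)
  have h2 : 0 ≤ ∑ x : Fin m → V, T8.E A 0 [] (List.ofFn x) := by
    rw [← cy_sumL_ofFn m (fun l => T8.E A 0 [] l), sumL_E A T8 m 0 [] hwf]
    exact mul_nonneg (by positivity) (IV_nonneg A T8 0 [] hgood)
  calc (0 : ℤ) ≤ (∑ x : Fin m → V, T8.E A 0 [] (List.ofFn x)) * (Fintype.card V : ℤ) ^ 2 :=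
        mul_nonneg h2 (by positivity)
    _ ≤ ∑ x : Fin m → V, Gx A f x := by
        rw [sum_mul]
        exact sum_le_sum fun x _ => h1 x

end types

/-! ### hosts -/

section hosts

variable {V : Type}

theorem mv_same {N : ℕ} (A : V → V → ℕ) (φ : Fin N → V) (v : Fin N → ℕ) {i j : Fin N}
    (h : φ i = φ j) (hv : v i = v j) : mv (pb A φ) v i = mv (pb A φ) v j := by
  unfold mv pb
  rw [h, hv]

theorem wlk_same {N : ℕ} (A : V → V → ℕ) (φ : Fin N → V) {i j : Fin N} (h : φ i = φ j) :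
    wlk (pb A φ) i = wlk (pb A φ) j :=
  mv_same A φ _ h (mv_same A φ _ h (mv_same A φ _ h rfl))

theorem host_le {m : ℕ} (hm : m ≤ 16) {A : V → V → ℕ} (hsym : ∀ u v, A u v = A v u)
    (hirr : ∀ v, A v v = 0) (h01 : ∀ u v, A u v ≤ 1)
    (htri : ∀ u v w, A u v = 1 → A v w = 1 → A u w = 1 → False) {R : ℕ → Prop} (hR : Cls A m R)
    (hok : ∀ H, R H → OkM m H) {T : FT} {C : Trie} {OFF K : ℕ} (hC : C.wf (m + 1) = true)
    (hgate : ∀ φ : Fin (m + 1) → V, C.E A 0 [] (List.ofFn φ) ≠ 0 →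
      ∀ i, wlk (pb A φ) i = 2373 ^ 3 % 2 ^ 20)
    (hchk : ∀ H, R H → hostOK m T C (K + (m + 1) * m * OFF) H = true) (φ : Fin (m + 1) → V) :
    C.E A 0 [] (List.ofFn φ) + Tsum (fT T OFF) (pb A φ) ≤ K := by
  obtain ⟨p, -, hp⟩ := Finset.exists_max_image (univ : Finset (Fin (m + 1)))
    (fun i => wlk (pb A φ) i) ⟨0, mem_univ _⟩
  set σ := Equiv.swap p (Fin.last m) with hσ
  have hlen : (List.ofFn (fun i : Fin m => φ (σ i.castSucc))).length = m := List.length_ofFn
  obtain ⟨H, hH, φ0, hperm, hφ0⟩ := hR _ hlen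
  set v := φ p with hv
  set χ : Fin (m + 1) → V := Fin.snoc φ0 v with hχ
  have hχc : ∀ i : Fin m, χ i.castSucc = φ0 i := fun i => by rw [hχ, Fin.snoc_castSucc]
  have hχl : χ (Fin.last m) = v := by rw [hχ, Fin.snoc_last]
  have hpermχ : (List.ofFn χ).Perm (List.ofFn φ) := by
    refine List.Perm.trans ?_ (Equiv.Perm.ofFn_comp_perm σ φ)
    rw [List.ofFn_succ', List.ofFn_succ', hχl]
    simp only [hχc, Function.comp]
    have e1 : φ (σ (Fin.last m)) = v := by
      rw [hσ, Equiv.swap_apply_right]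
    rw [e1, List.concat_eq_append, List.concat_eq_append]
    exact hperm.append_right [v]
  obtain ⟨ρ, hρ⟩ := perm_ofFn χ φ hpermχ
  set s := msk m (fun i => A (φ0 i) v) with hs
  have hsb : ∀ i : Fin m, bitN s i = A (φ0 i) v := fun i => msk_bit (fun i => h01 _ _) i
  have hslt : s < 2 ^ m := msk_lt fun i => h01 _ _
  have hind : Indep m H s := by
    intro i j hij hj h1 h2 h3
    have e1 := hsb ⟨i, by omega⟩
    have e2 := hsb ⟨j, hj⟩
    have e3 := hφ0 ⟨j, hj⟩ ⟨i, by omega⟩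
    simp only at e1 e2 e3
    rw [h1] at e1
    rw [h2] at e2
    rw [h3] at e3
    exact htri _ _ _ e3 e1.symm e2.symm
  have hpb : ∀ i j : Fin (m + 1), A (χ i) (χ j) = extM m H s i j := by
    intro i j
    rw [extM_eq]
    refine Fin.lastCases ?_ (fun i => ?_) i
    · refine Fin.lastCases ?_ (fun j => ?_) j
      · simp only [Fin.val_last, lt_irrefl, if_false]
        exact hirr _
      · simp only [Fin.val_last, lt_irrefl, if_false, Fin.val_castSucc, j.2, if_true]
        rw [hχl, hχc, hsb, hsym]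
    · refine Fin.lastCases ?_ (fun j => ?_) j
      · simp only [Fin.val_last, lt_irrefl, if_false, Fin.val_castSucc, i.2, if_true]
        rw [hχl, hχc, hsb]
      · simp only [Fin.val_castSucc, i.2, j.2, if_true]
        rw [hχc, hχc, hφ0]
  have hpb' : pb A χ = fun i j : Fin (m + 1) => extM m H s i j := by
    funext i j
    exact hpb i j
  have hwρ : ∀ i, wlk (pb A χ) i = wlk (pb A φ) (ρ i) := by
    intro i
    rw [← wlk_equiv ρ (pb A φ) i, hρ]
    rfl
  have hw3 : ∀ i : Fin (m + 1), w3 (m + 1) (extM m H s) i = wlk (pb A χ) i := by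
    intro i
    rw [hpb', wlk_fin]
    rfl
  have hmax : ∀ i, i < m + 1 → w3 (m + 1) (extM m H s) i ≤ w3 (m + 1) (extM m H s) m := by
    intro i hi
    have h1 := hw3 ⟨i, hi⟩
    have h2 := hw3 (Fin.last m)
    simp only [Fin.val_last] at h1 h2
    rw [h1, h2, hwρ, hwρ]
    have h3 : φ (ρ (Fin.last m)) = φ p := by
      have h4 : χ (Fin.last m) = (φ ∘ ρ) (Fin.last m) := by rw [hρ]
      rw [hχl] at h4
      exact h4.symm
    rw [wlk_same A φ h3]
    exact hp _ (mem_univ _)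
  have hE : C.E A 0 [] (List.ofFn φ) = C.ev (extM m H s) 0 [] (List.range (m + 1)) := by
    rw [← E_perm A C 0 [] hpermχ]
    exact E_ev A (m + 1) (extM m H s) C hC χ hpb
  have hg : C.ev (extM m H s) 0 [] (List.range (m + 1)) ≠ 0 →
      w3 (m + 1) (extM m H s) m = 2373 ^ 3 % 2 ^ 20 := by
    intro h1
    rw [← hE] at h1
    have h2 := hw3 (Fin.last m)
    simp only [Fin.val_last] at h2
    rw [h2, hwρ]
    exact hgate φ h1 _
  have h1 := host_sound hm (hok H hH) (hchk H hH) hslt hind hmax hg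
  have hT : Tsum (fT T OFF) (pb A φ) = 2 * (∑ w ∈ range (m + 1), ∑ u ∈ range w,
      (T.get (hshN (m + 1) (extM m H s) u w) : ℤ)) - ((m + 1 : ℕ) : ℤ) *
        (((m + 1 : ℕ) : ℤ) - 1) * OFF := by
    rw [← Tsum_eq, ← hpb', hρ, ← Tsum_equiv (fT T OFF) ρ (pb A φ)]
    rfl
  rw [hE, hT]
  push_cast at h1 ⊢
  linarith

end hosts

/-! ### the gate -/

section gate

variable {V : Type}

theorem spSum_ne (l : List V) : ∀ f : V → List V → ℤ, spSum l f ≠ 0 →
    ∃ a r, (a :: r).Perm l ∧ f a r ≠ 0 := by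
  induction l with
  | nil => intro f h; exact absurd (spSum_nil f) h
  | cons a t ih =>
    intro f h
    rw [spSum_cons] at h
    by_cases h1 : f a t = 0
    · rw [h1, zero_add] at h
      obtain ⟨b, r, h2, h3⟩ := ih _ h
      exact ⟨b, a :: r, (List.Perm.swap a b r).trans (h2.cons a), h3⟩
    · exact ⟨a, t, List.Perm.refl _, h1⟩

theorem path_ne (A : V → V → ℕ) (w : ℕ) (ks : List ℕ) : ∀ (key : ℕ) (x l : List V),
    l.length = ks.length → (pathTrie w ks).E A key x l ≠ 0 → ∃ l', l'.Perm l ∧ cyOk A ks x l' := by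
  induction ks with
  | nil =>
    intro key x l hl _
    exact ⟨l, List.Perm.refl _, trivial⟩
  | cons k0 ks ih =>
    intro key x l hl h
    have h1 : spSum l (fun a r => if k0 = row A x a then (pathTrie w ks).E A 0 (a :: x) r else 0)
        ≠ 0 := h
    obtain ⟨a, r, h2, h3⟩ := spSum_ne l _ h1
    have h4 : k0 = row A x a := by
      by_contra hne
      exact h3 (if_neg hne)
    simp only [if_pos h4] at h3
    have h5 : r.length = ks.length := by
      have := h2.length_eq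
      simp only [List.length_cons] at this hl
      omega
    obtain ⟨l', h6, h7⟩ := ih 0 (a :: x) r h5 h3
    exact ⟨a :: l', (h6.cons a).trans h2, h4, h7⟩

theorem cyc_row {G : SimpleGraph V} {k : ℕ} (hk : 3 ≤ k) {φ : Fin k → V} (h : CyP G k φ)
    (i : Fin k) : ∑ j : Fin k, pb (adjG G) φ i j = 2 := by
  classical
  have hi := i.2
  have key : ∀ j : Fin k, pb (adjG G) φ i j =
      (if (i : ℕ) + 1 = j then 1 else 0) + (if (i : ℕ) - 1 = j then (if 1 ≤ (i : ℕ) then 1 else 0)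
        else 0) + (if k - 1 = (j : ℕ) then (if (i : ℕ) = 0 then 1 else 0) else 0) +
        (if 0 = (j : ℕ) then (if (i : ℕ) = k - 1 then 1 else 0) else 0) := by
    intro j
    have hj := j.2
    show adjG G (φ i) (φ j) = _
    have hadj : G.Adj (φ i) (φ j) ↔ ((j : ℕ) = i + 1 ∨ (i : ℕ) = j + 1 ∨
        ((i : ℕ) = 0 ∧ (j : ℕ) = k - 1) ∨ ((j : ℕ) = 0 ∧ (i : ℕ) = k - 1)) := by
      rcases Nat.lt_trichotomy (i : ℕ) (j : ℕ) with h1 | h1 | h1
      · rw [h i j h1]
        omega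
      · have h2 : i = j := Fin.ext h1
        subst h2
        constructor
        · intro h3
          exact absurd h3 (G.irrefl)
        · intro h3
          exfalso
          omega
      · rw [G.adj_comm, h j i h1]
        omega
    unfold adjG
    by_cases h1 : G.Adj (φ i) (φ j)
    · rw [if_pos h1]
      have h2 := hadj.mp h1
      split_ifs <;> omega
    · rw [if_neg h1]
      have h2 : ¬ _ := fun h3 => h1 (hadj.mpr h3)
      split_ifs <;> omega
  rw [sum_congr rfl fun j _ => key j, sum_add_distrib, sum_add_distrib, sum_add_distrib]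
  have e : ∀ (a c : ℕ), ∑ j : Fin k, (if a = (j : ℕ) then c else 0) = if a < k then c else 0 := by
    intro a c
    rw [← sum_range (fun j => if a = j then c else 0), sum_ite_eq]
    simp only [mem_range]
  rw [e, e, e, e]
  split_ifs <;> omega

theorem mv_const {N : ℕ} {a : Fin N → Fin N → ℕ} (h : ∀ i, ∑ j, a i j = 2) (c : ℕ) :
    mv a (fun _ => c) = fun _ => (2373 * c) % 2 ^ 20 := by
  funext i
  rw [mv, ← sum_mul, h]
  congr 1
  ring

theorem gate {G : SimpleGraph V} {k : ℕ} (hk : 3 ≤ k) {ks : List ℕ} (hks : keysOK k ks = true)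
    (w : ℕ) (φ : Fin k → V) (h : (pathTrie w ks).E (adjG G) 0 [] (List.ofFn φ) ≠ 0) (i : Fin k) :
    wlk (pb (adjG G) φ) i = 2373 ^ 3 % 2 ^ 20 := by
  have hlen : ks.length = k := by
    rw [keysOK, Bool.and_eq_true, beq_iff_eq] at hks
    exact hks.1
  obtain ⟨l', h1, h2⟩ := path_ne (adjG G) w ks 0 [] (List.ofFn φ)
    (by rw [List.length_ofFn, hlen]) h
  have hl' : l'.length = k := by rw [h1.length_eq, List.length_ofFn]
  obtain ⟨ψ, hψ⟩ : ∃ ψ : Fin k → V, List.ofFn ψ = l' := by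
    subst hl'
    exact ⟨fun i => l'.get i, List.ofFn_get l'⟩
  rw [← hψ] at h1 h2
  obtain ⟨σ, hσ⟩ := perm_ofFn ψ φ h1
  rw [cyOk_iff_CyP G k ks hks ψ] at h2
  have h3 := cyc_row hk h2
  have h4 : ∀ i, wlk (pb (adjG G) ψ) i = 2373 ^ 3 % 2 ^ 20 := by
    intro i
    rw [wlk, mv_const h3, mv_const h3, mv_const h3]
    norm_num
  have h5 := wlk_equiv σ (pb (adjG G) φ) (σ.symm i)
  rw [Equiv.apply_symm_apply] at h5
  rw [← h5, ← h4 (σ.symm i), hσ]
  rfl

end gate

/-! ### conclusion -/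

section concl

variable {V : Type} [Fintype V]

theorem certificateH {m : ℕ} (hm : m ≤ 15) {A : V → V → ℕ} (hA : AdjOK A)
    {R8 R9 : ℕ → Prop} (hR8 : Cls A m R8) (hR9 : Cls A (m + 1) R9)
    (hok : ∀ H, R9 H → OkM (m + 1) H) {T : FT} {C T8 : Trie} {OFF K : ℕ}
    (hC : C.wf (m + 2) = true)
    (hgate : ∀ φ : Fin (m + 2) → V, C.E A 0 [] (List.ofFn φ) ≠ 0 →
      ∀ i, wlk (pb A φ) i = 2373 ^ 3 % 2 ^ 20)
    (hwf : T8.wf m = true) (hgood : T8.good)
    (hty : ∀ c, R8 c → TypeProp m c (fT T OFF) (vlow m T8 c))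
    (hchk : ∀ H, R9 H → hostOK (m + 1) T C (K + (m + 1 + 1) * (m + 1) * OFF) H = true) :
    ((m + 2).factorial : ℤ) * C.IV A 0 [] ≤ (Fintype.card V : ℤ) ^ (m + 2) * K := by
  obtain ⟨hsym, hirr, h01, htri⟩ := hA
  have h1 : ∀ φ : Fin (m + 2) → V,
      C.E A 0 [] (List.ofFn φ) + Tsum (fT T OFF) (pb A φ) ≤ K := fun φ =>
    host_le (m := m + 1) (by omega) hsym hirr h01 htri hR9 hok hC hgate hchk φ
  have h2 : 0 ≤ ∑ φ : Fin (m + 2) → V, Tsum (fT T OFF) (pb A φ) :=
    Tsum_nonneg A (fT T OFF) (types_nonneg hsym hirr h01 htri hR8 hwf hgood hty)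
  have h3 : ∑ φ : Fin (m + 2) → V, (C.E A 0 [] (List.ofFn φ) + Tsum (fT T OFF) (pb A φ)) ≤
      ∑ _φ : Fin (m + 2) → V, (K : ℤ) := sum_le_sum fun φ _ => h1 φ
  rw [sum_add_distrib, ← cy_sumL_ofFn (m + 2) (fun l => C.E A 0 [] l),
    sumL_E A C (m + 2) 0 [] hC, sum_const, card_univ, nsmul_eq_mul, Fintype.card_fun,
    Fintype.card_fin] at h3
  push_cast at h3
  linarith

theorem final_boundH (m : ℕ) (hm : m ≤ 15) (hm3 : 3 ≤ m) (G : SimpleGraph V) (hA : AdjOK (adjG G))
    (W : ℕ) (hW : 0 < W) (hw : W * (m + 2) ^ (m + 1) < 39614081257132168796771975168)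
    (ks : List ℕ) (hks : keysOK (m + 2) ks = true) {R8 R9 : ℕ → Prop} (hR8 : Cls (adjG G) m R8)
    (hR9 : Cls (adjG G) (m + 1) R9) (hok : ∀ H, R9 H → OkM (m + 1) H) {T : FT} {T8 : Trie}
    {OFF : ℕ} (hC : (pathTrie (W * (m + 2) ^ (m + 1)) ks).wf (m + 2) = true)
    (hwf : T8.wf m = true) (hgood : T8.good)
    (hty : ∀ c, R8 c → TypeProp m c (fT T OFF) (vlow m T8 c))
    (hchk : ∀ H, R9 H → hostOK (m + 1) T (pathTrie (W * (m + 2) ^ (m + 1)) ks)
      (2 * W * (m + 2).factorial + (m + 1 + 1) * (m + 1) * OFF) H = true) :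
    (({S : Finset V | S.card = m + 2 ∧
          Nonempty (G.induce (S : Set V) ≃g SimpleGraph.cycleGraph (m + 2))}.ncard : ℝ)
        ≤ ((Fintype.card V : ℝ) / ((m + 2 : ℕ) : ℝ)) ^ (m + 2)) := by
  have h1 := certificateH hm hA hR8 hR9 hok hC
    (fun φ h i => gate (by omega) hks _ φ h i) hwf hgood hty hchk
  obtain ⟨k, hk⟩ : ∃ k, k = m + 2 := ⟨_, rfl⟩
  have hk1 : m + 1 = k - 1 := by omega
  rw [hk1, ← hk] at h1
  rw [hk1, ← hk] at hw
  rw [← hk] at hks ⊢
  have : NeZero k := ⟨by omega⟩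
  rw [IV_cycle G k (by omega) _ hw ks hks] at h1
  have hf : (0 : ℤ) < (k.factorial : ℤ) := by exact_mod_cast k.factorial_pos
  have h2 : (k : ℤ) ^ (k - 1) * ((Cyc G k).card : ℤ) ≤ 2 * (Fintype.card V : ℤ) ^ k := by
    have hW' : (0 : ℤ) < (W : ℤ) := by exact_mod_cast hW
    have h3 : (k.factorial : ℤ) * (W : ℤ) * ((k : ℤ) ^ (k - 1) * ((Cyc G k).card : ℤ)) ≤
        (k.factorial : ℤ) * (W : ℤ) * (2 * (Fintype.card V : ℤ) ^ k) := by
      push_cast at h1
      nlinarith [h1]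
    exact le_of_mul_le_mul_left h3 (mul_pos hf hW')
  have h4 := ncard_le (V := V) (G := G) (k := k) (by omega)
  have hk0 : (0 : ℝ) < (k : ℝ) := by
    have : 0 < k := by omega
    exact_mod_cast this
  have h5 : (k : ℝ) ^ (k - 1) * NN G k ≤ 2 * (Fintype.card V : ℝ) ^ k := by
    rw [NN]
    exact_mod_cast h2
  have h6 : (k : ℝ) ^ k = (k : ℝ) ^ (k - 1) * k := by
    rw [← pow_succ]
    congr 1
    omega
  rw [div_pow, le_div_iff₀ (pow_pos hk0 k), h6]
  have h7 : (k : ℝ) ^ (k - 1) * (2 * (k : ℝ) *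
      ({S : Finset V | S.card = k ∧
          Nonempty (G.induce (S : Set V) ≃g SimpleGraph.cycleGraph k)}.ncard : ℝ)) ≤
      (k : ℝ) ^ (k - 1) * NN G k := mul_le_mul_of_nonneg_left h4 (by positivity)
  nlinarith [h5, h7]

end concl

end Pool.Agent.ICyc.FlagH
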