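import Pool.Agent.Lib.MP_131fce_co.FlagH.Pack
import Pool.Agent.Lib.MP_131fce_co.FlagH.HDefs

/-!
# Matrix times vector for packed numbers
-/

set_option autoImplicit false

namespace Pool.Agent.ICyc.FlagH

open Finset

theorem gs_eq (d c n : ℕ) : gs d c n = pk d n (fun _ => c) := (pk_const_eq d n c).symm

theorem conv_le (N : ℕ) (a b : ℕ → ℕ) (c : ℕ) (ha : ∀ t, t < N → a t ≤ c) (n : ℕ) :
    conv N N a b n ≤ c * ∑ t ∈ range N, b t := by
  have h1 : conv N N a b n ≤ ∑ x ∈ antidiagonal n, c * (if x.2 < N then b x.2 else 0) := by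
    rw [conv]
    refine sum_le_sum fun x _ => Nat.mul_le_mul_right _ ?_
    split
    · exact ha _ ‹_›
    · exact Nat.zero_le _
  refine h1.trans ?_
  rw [← mul_sum]
  refine Nat.mul_le_mul_left _ ?_
  have h2 := sum_range_reflect (fun y => if y < N then b y else 0) (n + 1)
  simp only [Nat.add_sub_cancel] at h2
  rw [Finset.Nat.sum_antidiagonal_eq_sum_range_succ (fun _ y => if y < N then b y else 0) n,
    Nat.succ_eq_add_one, h2, ← sum_filter]
  refine sum_le_sum_of_subset fun x hx => ?_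
  rw [mem_filter] at hx
  exact mem_range.mpr hx.2

theorem conv_lt (N : ℕ) (a b : ℕ → ℕ) (ha : ∀ t, t < N → a t < 2 ^ 20)
    (hb : ∑ t ∈ range N, b t < 2 ^ 20) (n : ℕ) : conv N N a b n < 2 ^ 40 := by
  refine (conv_le N a b (2 ^ 20 - 1) (fun t ht => by have := ha t ht; omega) n).trans_lt ?_
  have h1 : ∑ t ∈ range N, b t ≤ 2 ^ 20 - 1 := by omega
  exact (Nat.mul_le_mul_left _ h1).trans_lt (by norm_num)

theorem conv_comm (N : ℕ) (a b : ℕ → ℕ) (n : ℕ) : conv N N a b n = conv N N b a n := by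
  rw [conv, conv, ← Finset.Nat.sum_antidiagonal_swap]
  exact sum_congr rfl fun x _ => Nat.mul_comm _ _

theorem conv_mid (N : ℕ) (hN : 0 < N) (a b : ℕ → ℕ) :
    conv N N a b (N - 1) = ∑ k ∈ range N, a k * b (N - 1 - k) := by
  rw [conv, Finset.Nat.sum_antidiagonal_eq_sum_range_succ
    (fun x y => (if x < N then a x else 0) * (if y < N then b y else 0)) (N - 1),
    Nat.succ_eq_add_one, Nat.sub_add_cancel hN]
  refine sum_congr rfl fun k hk => ?_
  have := mem_range.mp hk
  rw [if_pos this, if_pos (by omega)]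

/-- first packed form of a matrix -/
def pA (N : ℕ) (M : ℕ → ℕ → ℕ) : ℕ := pk (80 * N) N (fun i => pk 40 N (fun t => M i (N - 1 - t)))

/-- second packed form of a matrix -/
def pB (N : ℕ) (M : ℕ → ℕ → ℕ) : ℕ := pk (80 * N) N (fun t => pk 40 N (fun i => M i (N - 1 - t)))

theorem pk_lt_two {N L : ℕ} {a : ℕ → ℕ} (hL : L ≤ 2 * N) (h : ∀ n, n < L → a n < 2 ^ 40) :
    pk 40 L a < 2 ^ (80 * N) :=
  (pk_lt h).trans_le (Nat.pow_le_pow_right (by norm_num) (by omega))

theorem ra_eq {N : ℕ} (hN : 0 < N) {M : ℕ → ℕ → ℕ} (hM : ∀ i, i < N → ∑ j ∈ range N, M i j < 2 ^ 20)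
    {v : ℕ → ℕ} (hv : ∀ j, j < N → v j < 2 ^ 20) :
    ra N (pA N M) (pk 40 N v) =
      pk (80 * N) N (fun i => (∑ j ∈ range N, M i j * v j) % 2 ^ 20) := by
  have hW : 0 < 80 * N := by omega
  have hrefl : ∀ i, i < N → ∑ t ∈ range N, M i (N - 1 - t) < 2 ^ 20 := by
    intro i hi
    rw [sum_range_reflect (fun t => M i t) N]
    exact hM i hi
  have e1 : pA N M * pk 40 N v = pk (80 * N) N
      (fun i => pk 40 (N + N) (conv N N v (fun t => M i (N - 1 - t)))) := by
    rw [Nat.mul_comm, pA, pk_mulc]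
    exact pk_congr fun i _ => pk_mul _ _ _ _ _
  have e2 : gs (80 * N) 1048575 N * 2 ^ (40 * (N - 1)) =
      pk (80 * N) N (fun _ => pk 40 (N + N) (fun n => if n = N - 1 then 1048575 else 0)) := by
    rw [gs_eq, Nat.mul_comm, pk_mulc]
    refine pk_congr fun i _ => ?_
    rw [pk_single (by omega), Nat.mul_comm]
  have hc : ∀ i, i < N → ∀ n, conv N N v (fun t => M i (N - 1 - t)) n < 2 ^ 40 :=
    fun i hi n => conv_lt N _ _ hv (hrefl i hi) n
  have hd : ∀ n, n < N + N → (if n = N - 1 then 1048575 else 0) < 2 ^ 40 := by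
    intro n _
    split <;> norm_num
  have e3 : (pA N M * pk 40 N v) &&& (gs (80 * N) 1048575 N * 2 ^ (40 * (N - 1))) =
      2 ^ (40 * (N - 1)) * pk (80 * N) N (fun i => (∑ j ∈ range N, M i j * v j) % 2 ^ 20) := by
    rw [e1, e2, pk_land hW (fun i hi => pk_lt_two (by omega) fun n _ => hc i hi n)
      (fun i _ => pk_lt_two (by omega) hd), pk_mulc]
    refine pk_congr fun i hi => ?_
    rw [pk_land (by norm_num) (fun n _ => hc i hi n) hd]
    rw [← pk_congr (a := fun n => if n = N - 1 then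
      (∑ j ∈ range N, M i j * v j) % 2 ^ 20 else 0), pk_single (by omega), Nat.mul_comm]
    intro n _
    by_cases h : n = N - 1
    · subst h
      rw [if_pos rfl, if_pos rfl, conv_mid N hN,
        show (1048575 : ℕ) = 2 ^ 20 - 1 by norm_num, and_mask]
      congr 1
      refine sum_congr rfl fun k hk => ?_
      have := mem_range.mp hk
      rw [Nat.mul_comm, show N - 1 - (N - 1 - k) = k by omega]
    · rw [if_neg h, if_neg h, Nat.and_zero]
  show ((pA N M * pk 40 N v) &&& (gs (80 * N) 1048575 N * 2 ^ (40 * (N - 1)))) >>>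
    (40 * (N - 1)) = _
  rw [e3, Nat.shiftRight_eq_div_pow, Nat.mul_div_cancel_left _ (by positivity)]

theorem and_low {W x y m : ℕ} (hm : m < 2 ^ W) (hy : y < 2 ^ W) :
    (2 ^ W * x + y) &&& m = y &&& m := by
  refine Nat.eq_of_testBit_eq fun i => ?_
  rw [Nat.testBit_and, Nat.testBit_and, Nat.testBit_two_pow_mul_add x hy]
  by_cases h : i < W
  · rw [if_pos h]
  · rw [Nat.testBit_lt_two_pow (x := m) (hm.trans_le (Nat.pow_le_pow_right (by norm_num)
      (Nat.le_of_not_lt h))), Bool.and_false, Bool.and_false]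

theorem rb_eq {N : ℕ} (hN : 0 < N) {M : ℕ → ℕ → ℕ} (hM : ∀ i, i < N → ∑ j ∈ range N, M i j < 2 ^ 20)
    {v : ℕ → ℕ} (hv : ∀ j, j < N → v j < 2 ^ 20) :
    rb N (pB N M) (pk (80 * N) N v) =
      pk 40 N (fun i => (∑ j ∈ range N, M i j * v j) % 2 ^ 20) := by
  have hrefl : ∀ i, i < N → ∑ t ∈ range N, M i (N - 1 - t) < 2 ^ 20 := by
    intro i hi
    rw [sum_range_reflect (fun t => M i t) N]
    exact hM i hi
  have e1 : pB N M * pk (80 * N) N v = pk (80 * N) (N + N)
      (conv N N (fun t => pk 40 N (fun i => M i (N - 1 - t))) v) := pk_mul _ _ _ _ _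
  have e2 : ∀ n, conv N N (fun t => pk 40 N (fun i => M i (N - 1 - t))) v n =
      pk 40 N (fun i => conv N N (fun t => M i (N - 1 - t)) v n) := by
    intro n
    unfold conv
    rw [← pk_sum]
    refine sum_congr rfl fun x _ => ?_
    by_cases h : x.1 < N
    · simp only [if_pos h]
      rw [Nat.mul_comm, pk_mulc]
      exact pk_congr fun i _ => Nat.mul_comm _ _
    · simp only [if_neg h, Nat.zero_mul]
      symm
      rw [pk]
      exact sum_eq_zero fun i _ => by rw [zero_mul]
  have hc : ∀ i, i < N → ∀ n, conv N N (fun t => M i (N - 1 - t)) v n < 2 ^ 40 := by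
    intro i hi n
    rw [conv_comm]
    exact conv_lt N _ _ hv (hrefl i hi) n
  have hlt : ∀ n, conv N N (fun t => pk 40 N (fun i => M i (N - 1 - t))) v n < 2 ^ (80 * N) := by
    intro n
    rw [e2 n]
    exact pk_lt_two (by omega) fun i hi => hc i hi n
  have e3 : (pB N M * pk (80 * N) N v) >>> (80 * N * (N - 1)) =
      2 ^ (80 * N) * pk (80 * N) N (fun n => conv N N
        (fun t => pk 40 N (fun i => M i (N - 1 - t))) v (n + 1 + (N - 1))) +
      conv N N (fun t => pk 40 N (fun i => M i (N - 1 - t))) v (N - 1) := by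
    rw [e1, show N + N = (N - 1) + (N + 1) by omega, pk_shift fun n _ => hlt n, pk_succ]
    rw [Nat.zero_add]
  show ((pB N M * pk (80 * N) N v) >>> (80 * N * (N - 1))) &&& gs 40 1048575 N = _
  rw [e3, gs_eq, and_low (pk_lt_two (by omega) fun n _ => by norm_num) (hlt _), e2,
    pk_land (by norm_num) (fun i hi => hc i hi _) (fun n _ => by norm_num)]
  refine pk_congr fun i hi => ?_
  rw [show (1048575 : ℕ) = 2 ^ 20 - 1 by norm_num, and_mask, conv_comm, conv_mid N hN]
  congr 1
  refine sum_congr rfl fun k hk => ?_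
  have := mem_range.mp hk
  rw [Nat.mul_comm, show N - 1 - (N - 1 - k) = k by omega]

theorem pk_re {w w' N : ℕ} {f g : ℕ → ℕ} (h : ∀ i, i < N → f i * 2 ^ (w * i) = g i * 2 ^ (w' * i)) :
    pk w N f = pk w' N g := sum_congr rfl fun i hi => h i (mem_range.mp hi)

/-- the digits of the pointwise product -/
theorem had_eq {N : ℕ} {x y : ℕ → ℕ} (hx : ∀ j, j < N → x j < 2 ^ 20)
    (hy : ∀ j, j < N → y j < 2 ^ 20) :
    (pk (80 * N) N x * pk 40 N y) &&& gs (40 * (2 * N + 1)) 1099511627775 N =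
      pk (40 * (2 * N + 1)) N (fun i => x i * y i) := by
  rcases Nat.eq_zero_or_pos N with h0 | hN
  · subst h0
    exact Nat.and_zero _
  have hxy : ∀ i j, i < N → j < N → x i * y j < 2 ^ 40 := by
    intro i j hi hj
    have h1 := hx i hi
    have h2 := hy j hj
    calc x i * y j ≤ (2 ^ 20 - 1) * (2 ^ 20 - 1) := Nat.mul_le_mul (by omega) (by omega)
      _ < 2 ^ 40 := by norm_num
  have e1 : pk (80 * N) N x * pk 40 N y = pk (80 * N) N (fun i => pk 40 N (fun j => x i * y j)) := by
    rw [Nat.mul_comm, pk_mulc]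
    refine pk_congr fun i _ => ?_
    rw [Nat.mul_comm, pk_mulc]
  have e2 : gs (40 * (2 * N + 1)) 1099511627775 N =
      pk (80 * N) N (fun i => pk 40 N (fun j => if j = i then 1099511627775 else 0)) := by
    rw [gs_eq]
    refine pk_re fun i hi => ?_
    rw [pk_single hi, show 40 * (2 * N + 1) * i = 40 * i + 80 * N * i by ring, pow_add]
    ring
  rw [e1, e2, pk_land (by omega) (fun i hi => pk_lt_two (by omega) fun j hj => hxy i j hi hj)
    (fun i _ => pk_lt_two (by omega) fun j _ => by split <;> norm_num)]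
  refine pk_re fun i hi' => ?_
  have h1 := pk_land (w := 40) (L := N) (by norm_num) (a := fun j => x i * y j)
    (b := fun j => if j = i then 1099511627775 else 0) (fun j hj => hxy i j hi' hj)
    (fun j _ => by split <;> norm_num)
  have h2 : pk 40 N (fun j => (x i * y j) &&& (if j = i then 1099511627775 else 0)) =
      x i * y i * 2 ^ (40 * i) := by
    rw [← pk_single (L := N) hi']
    refine pk_congr fun j hj => ?_
    by_cases h : j = i
    · subst h
      rw [if_pos rfl, if_pos rfl, show (1099511627775 : ℕ) = 2 ^ 40 - 1 by norm_num, and_mask,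
        Nat.mod_eq_of_lt (hxy j j hj hj)]
    · rw [if_neg h, if_neg h, Nat.and_zero]
  rw [h2] at h1
  rw [h1, show 40 * (2 * N + 1) * i = 40 * i + 80 * N * i by ring, pow_add]
  ring

theorem fin1_eq {N : ℕ} (hN : 0 < N) {z : ℕ → ℕ} (hz : ∀ j, j < N → z j < 2 ^ 40) :
    fin1 N (pk (40 * (2 * N + 1)) N z) = (∑ i ∈ range N, mix (z i)) % (2 ^ 40 - 1) := by
  have hW : 40 < 40 * (2 * N + 1) := by omega
  have hpow : (2 : ℕ) ^ 40 ≤ 2 ^ (40 * (2 * N + 1)) := Nat.pow_le_pow_right (by norm_num) (by omega)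
  have hz' : ∀ j, j < N → z j < 2 ^ (40 * (2 * N + 1)) := fun j hj => (hz j hj).trans_le hpow
  have hmix : ∀ j, j < N → mix (z j) < 2 ^ 40 := fun j hj =>
    Nat.xor_lt_two_pow (hz j hj) ((Nat.shiftRight_le _ _).trans_lt (hz j hj))
  have e1 : (pk (40 * (2 * N + 1)) N z ^^^ (pk (40 * (2 * N + 1)) N z >>> 11)) &&&
      gs (40 * (2 * N + 1)) 1099511627775 N = pk (40 * (2 * N + 1)) N (fun i => mix (z i)) := by
    rw [gs_eq]
    refine eq_of_digits (w := 40 * (2 * N + 1)) (by omega) fun n b hb => ?_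
    have hlt : (1099511627775 : ℕ) < 2 ^ (40 * (2 * N + 1)) :=
      lt_of_lt_of_le (by norm_num) hpow
    rw [Nat.testBit_and, Nat.testBit_xor, Nat.testBit_shiftRight, pk_testBit hz' hb,
      pk_testBit (fun n _ => hlt) hb, pk_testBit (fun j hj => (hmix j hj).trans_le hpow) hb,
      show (1099511627775 : ℕ) = 2 ^ 40 - 1 by norm_num, Nat.testBit_two_pow_sub_one]
    by_cases hn : n < N
    · by_cases hb40 : b < 40
      · have h2 : 11 + (40 * (2 * N + 1) * n + b) = 40 * (2 * N + 1) * n + (b + 11) := by omega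
        rw [h2, pk_testBit hz' (by omega : b + 11 < 40 * (2 * N + 1))]
        simp only [hn, decide_true, Bool.true_and, hb40, Bool.and_true]
        rw [mix, Nat.testBit_xor, Nat.testBit_shiftRight, Nat.add_comm 11 b]
      · have h3 : (mix (z n)).testBit b = false :=
          Nat.testBit_lt_two_pow ((hmix n hn).trans_le (Nat.pow_le_pow_right (by norm_num)
            (by omega)))
        simp [hb40, h3]
    · simp [hn]
  show ((pk (40 * (2 * N + 1)) N z ^^^ (pk (40 * (2 * N + 1)) N z >>> 11)) &&&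
      gs (40 * (2 * N + 1)) 1099511627775 N) % 1099511627775 = _
  rw [e1, show (1099511627775 : ℕ) = 2 ^ 40 - 1 by norm_num]
  have e2 : pk (40 * (2 * N + 1)) N (fun i => mix (z i)) =
      pk 40 ((2 * N + 1) * N) (fun n => if n % (2 * N + 1) = 0 then mix (z (n / (2 * N + 1))) else 0) := by
    rw [pk_block]
    refine pk_congr fun i hi => ?_
    symm
    calc pk 40 (2 * N + 1) (fun t => if ((2 * N + 1) * i + t) % (2 * N + 1) = 0 then
          mix (z (((2 * N + 1) * i + t) / (2 * N + 1))) else 0)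
        = pk 40 (2 * N + 1) (fun t => if t = 0 then mix (z i) else 0) := by
          refine pk_congr fun t ht => ?_
          rw [Nat.mul_add_mod, Nat.mod_eq_of_lt ht, Nat.mul_add_div (by omega),
            Nat.div_eq_of_lt ht, Nat.add_zero]
      _ = mix (z i) := by rw [pk_single (by omega)]; simp
  have e3 : (∑ n ∈ range ((2 * N + 1) * N),
      (if n % (2 * N + 1) = 0 then mix (z (n / (2 * N + 1))) else 0)) =
      ∑ i ∈ range N, mix (z i) := by
    have h := pk_block 0 (2 * N + 1) N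
      (fun n => if n % (2 * N + 1) = 0 then mix (z (n / (2 * N + 1))) else 0)
    simp only [pk, Nat.zero_mul, pow_zero, mul_one] at h
    rw [h]
    refine sum_congr rfl fun i _ => ?_
    rw [sum_eq_single_of_mem 0 (mem_range.mpr (by omega))]
    · rw [Nat.add_zero, Nat.mul_mod_right, if_pos rfl, Nat.mul_div_cancel_left _ (by omega)]
    · intro t ht hne
      have := mem_range.mp ht
      rw [Nat.mul_add_mod, Nat.mod_eq_of_lt this, if_neg hne]
  rw [e2, pk_mod, e3]

end Pool.Agent.ICyc.FlagH
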