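import Mathlib

/-!
# Arithmetic of packed numbers

`pk w L a` is the number with the digits `a 0, ..., a (L - 1)` in base `2 ^ w`.
-/

set_option autoImplicit false

namespace Pool.Agent.ICyc.FlagH

open Finset

/-- the number with the digits `a 0, ..., a (L - 1)` in base `2 ^ w` -/
def pk (w L : ℕ) (a : ℕ → ℕ) : ℕ := ∑ n ∈ range L, a n * 2 ^ (w * n)

theorem pk_congr {w L : ℕ} {a b : ℕ → ℕ} (h : ∀ n, n < L → a n = b n) : pk w L a = pk w L b :=
  sum_congr rfl fun n hn => by rw [h n (mem_range.mp hn)]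

theorem pk_zero (w : ℕ) (a : ℕ → ℕ) : pk w 0 a = 0 := rfl

theorem pk_succ (w L : ℕ) (a : ℕ → ℕ) :
    pk w (L + 1) a = 2 ^ w * pk w L (fun n => a (n + 1)) + a 0 := by
  rw [pk, sum_range_succ', pk, mul_sum]
  simp only [Nat.mul_zero, pow_zero, mul_one]
  congr 1
  refine sum_congr rfl fun n _ => ?_
  rw [Nat.mul_succ, pow_add]
  ring

theorem pk_lt {w L : ℕ} {a : ℕ → ℕ} (h : ∀ n, n < L → a n < 2 ^ w) : pk w L a < 2 ^ (w * L) := by
  induction L generalizing a with
  | zero => simp [pk_zero]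
  | succ L ih =>
    rw [pk_succ, Nat.mul_succ, pow_add]
    have h1 := ih (a := fun n => a (n + 1)) (fun n hn => h (n + 1) (by omega))
    have h2 := h 0 (by omega)
    have h3 : pk w L (fun n => a (n + 1)) + 1 ≤ 2 ^ (w * L) := h1
    calc 2 ^ w * pk w L (fun n => a (n + 1)) + a 0
        < 2 ^ w * pk w L (fun n => a (n + 1)) + 2 ^ w := by omega
      _ = 2 ^ w * (pk w L (fun n => a (n + 1)) + 1) := by ring
      _ ≤ 2 ^ w * 2 ^ (w * L) := Nat.mul_le_mul_left _ h3
      _ = 2 ^ (w * L) * 2 ^ w := by ring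

theorem pk_add (w L : ℕ) (a b : ℕ → ℕ) : pk w L a + pk w L b = pk w L (fun n => a n + b n) := by
  rw [pk, pk, pk, ← sum_add_distrib]
  exact sum_congr rfl fun n _ => by ring

theorem pk_mulc (w L c : ℕ) (a : ℕ → ℕ) : c * pk w L a = pk w L (fun n => c * a n) := by
  rw [pk, pk, mul_sum]
  exact sum_congr rfl fun n _ => by ring

theorem pk_sum {ι : Type} (w L : ℕ) (s : Finset ι) (a : ι → ℕ → ℕ) :
    ∑ i ∈ s, pk w L (a i) = pk w L (fun n => ∑ i ∈ s, a i n) := by
  unfold pk
  rw [sum_comm]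
  exact sum_congr rfl fun n _ => by rw [sum_mul]

theorem pk_single {w L n0 c : ℕ} (h : n0 < L) :
    pk w L (fun n => if n = n0 then c else 0) = c * 2 ^ (w * n0) := by
  rw [pk, sum_eq_single_of_mem n0 (mem_range.mpr h)]
  · rw [if_pos rfl]
  · intro b _ hb
    rw [if_neg hb, zero_mul]

/-- extension by zero digits -/
theorem pk_extend {w L L' : ℕ} {a : ℕ → ℕ} (hL : L ≤ L') (h : ∀ n, L ≤ n → n < L' → a n = 0) :
    pk w L' a = pk w L a := by
  obtain ⟨d, rfl⟩ := Nat.exists_eq_add_of_le hL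
  rw [pk, sum_range_add, pk]
  rw [show ∑ x ∈ range d, a (L + x) * 2 ^ (w * (L + x)) = 0 from
    sum_eq_zero fun x hx => by rw [h (L + x) (by omega) (by have := mem_range.mp hx; omega), zero_mul]]
  rfl

theorem testBit_step {w x y b n : ℕ} (hy : y < 2 ^ w) (hb : b < w) :
    (2 ^ w * x + y).testBit (w * n + b) =
      if n = 0 then y.testBit b else x.testBit (w * (n - 1) + b) := by
  rw [Nat.testBit_two_pow_mul_add x hy]
  cases n with
  | zero => simp [hb]
  | succ n =>
    have h1 : ¬ w * (n + 1) + b < w := by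
      rw [Nat.mul_succ]; omega
    rw [if_neg h1, if_neg (Nat.succ_ne_zero n)]
    congr 1
    rw [Nat.mul_succ, Nat.add_sub_cancel]
    omega

theorem pk_testBit {w L : ℕ} {a : ℕ → ℕ} (h : ∀ n, n < L → a n < 2 ^ w) {b : ℕ} (hb : b < w)
    (n : ℕ) : (pk w L a).testBit (w * n + b) = (decide (n < L) && (a n).testBit b) := by
  induction L generalizing a n with
  | zero => simp [pk_zero]
  | succ L ih =>
    rw [pk_succ, testBit_step (h 0 (by omega)) hb]
    cases n with
    | zero => simp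
    | succ n =>
      rw [if_neg (Nat.succ_ne_zero n), Nat.add_sub_cancel,
        ih (a := fun n => a (n + 1)) (fun n hn => h (n + 1) (by omega)) n]
      simp

theorem eq_of_digits {w x y : ℕ} (hw : 0 < w)
    (h : ∀ n b, b < w → x.testBit (w * n + b) = y.testBit (w * n + b)) : x = y := by
  refine Nat.eq_of_testBit_eq fun i => ?_
  have := h (i / w) (i % w) (Nat.mod_lt _ hw)
  rwa [Nat.div_add_mod] at this

theorem pk_land {w L : ℕ} (hw : 0 < w) {a b : ℕ → ℕ} (ha : ∀ n, n < L → a n < 2 ^ w)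
    (hb : ∀ n, n < L → b n < 2 ^ w) :
    pk w L a &&& pk w L b = pk w L (fun n => a n &&& b n) := by
  refine eq_of_digits hw fun n i hi => ?_
  rw [Nat.testBit_and, pk_testBit ha hi, pk_testBit hb hi,
    pk_testBit (fun n hn => Nat.and_lt_two_pow _ (hb n hn)) hi, Nat.testBit_and]
  by_cases h : n < L <;> simp [h]

theorem pk_xor {w L : ℕ} (hw : 0 < w) {a b : ℕ → ℕ} (ha : ∀ n, n < L → a n < 2 ^ w)
    (hb : ∀ n, n < L → b n < 2 ^ w) :
    pk w L a ^^^ pk w L b = pk w L (fun n => a n ^^^ b n) := by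
  refine eq_of_digits hw fun n i hi => ?_
  rw [Nat.testBit_xor, pk_testBit ha hi, pk_testBit hb hi,
    pk_testBit (fun n hn => Nat.xor_lt_two_pow (ha n hn) (hb n hn)) hi, Nat.testBit_xor]
  by_cases h : n < L <;> simp [h]

/-- shift by `e` digits -/
theorem pk_shift {w L e : ℕ} {a : ℕ → ℕ} (h : ∀ n, n < e → a n < 2 ^ w) :
    (pk w (e + L) a) >>> (w * e) = pk w L (fun n => a (n + e)) := by
  have h1 : pk w (e + L) a = pk w e a + 2 ^ (w * e) * pk w L (fun n => a (n + e)) := by
    rw [pk, sum_range_add, pk, pk, mul_sum]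
    congr 1
    refine sum_congr rfl fun n _ => ?_
    rw [Nat.mul_add, pow_add, Nat.add_comm e n]
    ring
  rw [h1, Nat.shiftRight_eq_div_pow, Nat.add_mul_div_left _ _ (by positivity),
    Nat.div_eq_of_lt (pk_lt h), Nat.zero_add]

theorem pk_mod (w L : ℕ) (a : ℕ → ℕ) :
    pk w L a % (2 ^ w - 1) = (∑ n ∈ range L, a n) % (2 ^ w - 1) := by
  have h1 : ∀ n, 2 ^ (w * n) ≡ 1 [MOD 2 ^ w - 1] := by
    intro n
    rw [pow_mul]
    have h2 : 2 ^ w ≡ 1 [MOD 2 ^ w - 1] := by
      have h3 : 2 ^ w = (2 ^ w - 1) + 1 := by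
        have : 0 < 2 ^ w := by positivity
        omega
      conv_lhs => rw [h3]
      exact Nat.ModEq.symm (by simp [Nat.ModEq])
    calc (2 ^ w) ^ n ≡ 1 ^ n [MOD 2 ^ w - 1] := h2.pow n
      _ = 1 := one_pow n
  have h2 : pk w L a ≡ ∑ n ∈ range L, a n [MOD 2 ^ w - 1] := by
    rw [pk]
    refine Nat.ModEq.sum fun n _ => ?_
    simpa using (h1 n).mul_left (a n)
  exact h2

/-- the digits of a product -/
def conv (L L' : ℕ) (a b : ℕ → ℕ) (n : ℕ) : ℕ :=
  ∑ x ∈ antidiagonal n, (if x.1 < L then a x.1 else 0) * (if x.2 < L' then b x.2 else 0)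

theorem pk_eq_eval (w L : ℕ) (a : ℕ → ℕ) :
    pk w L a = (∑ n ∈ range L, Polynomial.monomial n (a n)).eval (2 ^ w) := by
  rw [Polynomial.eval_finsetSum, pk]
  refine sum_congr rfl fun n _ => ?_
  rw [Polynomial.eval_monomial, pow_mul]

theorem coeff_sum_monomial (L : ℕ) (a : ℕ → ℕ) (n : ℕ) :
    (∑ n ∈ range L, Polynomial.monomial n (a n)).coeff n = if n < L then a n else 0 := by
  rw [Polynomial.finsetSum_coeff]
  simp only [Polynomial.coeff_monomial]
  rw [sum_ite_eq']
  simp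

theorem natDegree_sum_monomial (L : ℕ) (a : ℕ → ℕ) (hL : 0 < L) :
    (∑ n ∈ range L, Polynomial.monomial n (a n)).natDegree < L := by
  refine (Nat.lt_of_le_of_lt (Polynomial.natDegree_sum_le_of_forall_le (n := L - 1) _ _
    fun n hn => ?_) (by omega))
  refine (Polynomial.natDegree_monomial_le _).trans ?_
  have := mem_range.mp hn
  omega

theorem pk_mul (w L L' : ℕ) (a b : ℕ → ℕ) :
    pk w L a * pk w L' b = pk w (L + L') (conv L L' a b) := by
  rcases Nat.eq_zero_or_pos L with h0 | hL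
  · subst h0
    rw [pk_zero, zero_mul]
    symm
    rw [pk]
    refine sum_eq_zero fun n _ => ?_
    rw [conv, sum_eq_zero, zero_mul]
    intro x _
    simp
  rcases Nat.eq_zero_or_pos L' with h0 | hL'
  · subst h0
    rw [pk_zero, mul_zero]
    symm
    rw [pk]
    refine sum_eq_zero fun n _ => ?_
    rw [conv, sum_eq_zero, zero_mul]
    intro x _
    simp
  rw [pk_eq_eval, pk_eq_eval, ← Polynomial.eval_mul, Polynomial.eval_eq_sum_range'
    (n := L + L'), pk]
  · refine sum_congr rfl fun n _ => ?_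
    rw [Polynomial.coeff_mul, conv, pow_mul]
    congr 1
    refine sum_congr rfl fun x _ => ?_
    rw [coeff_sum_monomial, coeff_sum_monomial]
  · refine Nat.lt_of_le_of_lt Polynomial.natDegree_mul_le ?_
    have h1 := natDegree_sum_monomial L a hL
    have h2 := natDegree_sum_monomial L' b hL'
    omega

/-- flat digits and blocks of digits -/
theorem pk_block (w L N : ℕ) (a : ℕ → ℕ) :
    pk w (L * N) a = pk (w * L) N (fun i => pk w L (fun t => a (L * i + t))) := by
  induction N with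
  | zero => simp [pk_zero]
  | succ N ih =>
    have h1 : pk w (L * (N + 1)) a = pk w (L * N) a +
        pk w L (fun t => a (L * N + t)) * 2 ^ (w * L * N) := by
      rw [Nat.mul_succ, pk, sum_range_add, pk, pk, sum_mul]
      congr 1
      refine sum_congr rfl fun n _ => ?_
      rw [Nat.mul_add, pow_add, Nat.mul_assoc w L N]
      ring
    rw [h1, ih]
    exact (sum_range_succ (fun i => pk w L (fun t => a (L * i + t)) * 2 ^ (w * L * i)) N).symm

theorem and_mask {h x : ℕ} : x &&& (2 ^ h - 1) = x % 2 ^ h := Nat.and_two_pow_sub_one_eq_mod x h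

/-- geometric sums -/
theorem pk_const_eq (w n c : ℕ) : pk w n (fun _ => c) =
    Nat.rec (motive := fun _ => ℕ) 0 (fun _ ih => Nat.add (Nat.mul ih (Nat.pow 2 w)) c) n := by
  induction n with
  | zero => rfl
  | succ n ih =>
    rw [pk_succ, ih]
    show 2 ^ w * _ + c = _ * 2 ^ w + c
    rw [Nat.mul_comm]

end Pool.Agent.ICyc.FlagH
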