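import Pool.Agent.Lib.MP_131fce_co.FlagH.Dfs

/-!
# Soundness of the checks of the types
-/

set_option autoImplicit false

namespace Pool.Agent.ICyc.FlagH

open Finset Pool.Agent.ICyc.Flag

/-- the function given by the table -/
noncomputable def fT (T : FT) (OFF : ℕ) (h : ℕ) : ℤ := (T.get h : ℤ) - OFF

/-- the quadratic form of the type `c` is at least `v` times the square of the sum -/
def TypeProp (m c : ℕ) (f : ℕ → ℤ) (v : ℤ) : Prop :=
  ∀ cf : ℕ → ℤ, (∀ S, S < 2 ^ m → ¬ Indep m c S → cf S = 0) →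
    v * (∑ S ∈ range (2 ^ m), cf S) ^ 2 ≤
      ∑ S ∈ range (2 ^ m), ∑ T ∈ range (2 ^ m), f (h2 m c S T) * cf S * cf T

theorem ent2_eq {m c : ℕ} (hm : m ≤ 100) (hc : OkM m c) (T : FT) (S S' : ℕ) :
    ent2 (m + 2) m T (bA (m + 2) m c + cS (m + 2) m m S + cS (m + 2) m (m + 1) S')
      (bB (m + 2) m c + cT (m + 2) m m S + cT (m + 2) m (m + 1) S') = T.get (h2 m c S S') := by
  rw [← SA_ex2, ← SB_ex2, ← hs_ex2 hm hc]
  rfl

theorem typeProp_of_psd {m c : ℕ} {f : ℕ → ℤ} {v : ℤ}
    (h : ∀ cf : ℕ → ℤ, (∀ S, S < 2 ^ m → ¬ Indep m c S → cf S = 0) →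
      0 ≤ ∑ S ∈ range (2 ^ m), ∑ T ∈ range (2 ^ m), (f (h2 m c S T) - v) * cf S * cf T) :
    TypeProp m c f v := by
  intro cf hcf
  have h1 := h cf hcf
  have h2 : ∑ S ∈ range (2 ^ m), ∑ T ∈ range (2 ^ m), (f (h2 m c S T) - v) * cf S * cf T =
      ∑ S ∈ range (2 ^ m), ∑ T ∈ range (2 ^ m), f (h2 m c S T) * cf S * cf T -
        v * (∑ S ∈ range (2 ^ m), cf S) ^ 2 := by
    rw [sq, sum_mul_sum, mul_sum, ← sum_sub_distrib]
    refine sum_congr rfl fun S _ => ?_
    rw [mul_sum, ← sum_sub_distrib]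
    exact sum_congr rfl fun T _ => by ring
  rw [h2] at h1
  linarith

theorem type0_sound {m c : ℕ} (hm : m ≤ 16) (hc : OkM m c) {T : FT} {T8 : Trie} {OFF C0 : ℕ}
    (h : type0 m T T8 OFF C0 c = true) : TypeProp m c (fT T OFF) (vlow m T8 c) := by
  have h' : (decide (Int.add (Int.ofNat OFF) (vlow m T8 c) = Int.ofNat C0) &&
    (dfsH (m + 2) c m (fun S Ha Hb =>
      dfsH (m + 2) c (m + 1) (fun S' Ha' Hb' =>
        (Nat.blt S S' || Nat.beq (ent2 (m + 2) m T Ha' Hb') C0)) m 0 0 Ha Hb)
      m 0 0 (bA (m + 2) m c) (bB (m + 2) m c))) = true := h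
  rw [Bool.and_eq_true, decide_eq_true_eq] at h'
  obtain ⟨h1, h2'⟩ := h'
  have h1' : (OFF : ℤ) + vlow m T8 c = C0 := h1
  have key : ∀ S S', S < 2 ^ m → S' < 2 ^ m → Indep m c S → Indep m c S' → S' ≤ S →
      T.get (h2 m c S S') = C0 := by
    intro S S' hS hS' hi hi' hle
    have h3 := dfsH_indep hm h2' hS hi
    have h4 := dfsH_indep hm h3 hS' hi'
    rw [Bool.or_eq_true] at h4
    rcases h4 with h4 | h4
    · exact absurd (Nat.blt_eq.mp h4) (by omega)
    · have h5 := Nat.eq_of_beq_eq_true h4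
      rw [← ent2_eq (by omega) hc T S S', ← h5]
      rw [cS, cS, cT, cT, sN_eq, sN_eq, sN_eq, sN_eq]
      rfl
  have key2 : ∀ S S', S < 2 ^ m → S' < 2 ^ m → Indep m c S → Indep m c S' →
      fT T OFF (h2 m c S S') - vlow m T8 c = 0 := by
    intro S S' hS hS' hi hi'
    have h3 : T.get (h2 m c S S') = C0 := by
      rcases Nat.le_total S' S with h4 | h4
      · exact key S S' hS hS' hi hi' h4
      · rw [h2_comm]
        exact key S' S hS' hS hi' hi h4
    rw [fT, h3]
    linarith
  refine typeProp_of_psd fun cf hcf => ?_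
  refine le_of_eq (Eq.symm (sum_eq_zero fun S hS => sum_eq_zero fun S' hS' => ?_))
  have hS := mem_range.mp hS
  have hS' := mem_range.mp hS'
  by_cases hi : Indep m c S
  · by_cases hi' : Indep m c S'
    · rw [key2 S S' hS hS' hi hi']
      ring
    · rw [hcf S' hS' hi']
      ring
  · rw [hcf S hS hi]
    ring

/-! ### certificates -/

/-- the rows as a list -/
def Rows.toL : Rows → List (ℕ × ℕ × ℕ × ℕ)
  | .nil => []
  | .cons S P G R t => (S, P, G, R) :: t.toL

theorem mem_spec (L : Rows) (S : ℕ) (h : L.mem S = true) :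
    ∃ (i : ℕ) (a : ℕ × ℕ × ℕ × ℕ), L.toL[i]? = some a ∧ a.1 = S := by
  induction L with
  | nil => exact absurd h (by change ¬ false = true; simp)
  | cons S' P G R t ih =>
    have h' : (Nat.beq S' S || t.mem S) = true := h
    rw [Bool.or_eq_true] at h'
    rcases h' with h' | h'
    · exact ⟨0, (S', P, G, R), rfl, Nat.eq_of_beq_eq_true h'⟩
    · obtain ⟨i, a, h1, h2⟩ := ih h'
      exact ⟨i + 1, a, h1, h2⟩

theorem rows_spec (w r hG hR hE mP mG mR : ℕ) (E : List ℕ) (L : Rows)
    (h : rowsOK w r hG hR hE mP mG mR E L = true) : ∀ (i : ℕ) (a : ℕ × ℕ × ℕ × ℕ), L.toL[i]? = some a →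
      rowOK w r hG hR hE mP mG mR E a.2.1 a.2.2.1 a.2.2.2 = true := by
  induction L with
  | nil => intro i a h1; simp [Rows.toL] at h1
  | cons S P G R t ih =>
    have h' : (rowOK w r hG hR hE mP mG mR E P G R && rowsOK w r hG hR hE mP mG mR E t) = true := h
    rw [Bool.and_eq_true] at h'
    intro i a h1
    cases i with
    | zero =>
      have h2 : (S, P, G, R) = a := by simpa [Rows.toL] using h1
      rw [← h2]
      exact h'.1
    | succ i => exact ih h'.2 i a h1

theorem pairs_aux (p : ℕ → ℕ → ℕ → Bool) (t : Rows)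
    (h : Rows.rec (motive := fun _ => Bool) true (fun S' P' _ R' _ ih2 =>
      and (p S' P' R') ih2) t = true) : ∀ (j : ℕ) (b : ℕ × ℕ × ℕ × ℕ), t.toL[j]? = some b → p b.1 b.2.1 b.2.2.2 = true := by
  induction t with
  | nil => intro i a h1; simp [Rows.toL] at h1
  | cons S P G R t ih =>
    have h' : (p S P R && (Rows.rec (motive := fun _ => Bool) true (fun S' P' _ R' _ ih2 =>
      and (p S' P' R') ih2) t)) = true := h
    rw [Bool.and_eq_true] at h'
    intro i a h1
    cases i with
    | zero =>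
      have h2 : (S, P, G, R) = a := by simpa [Rows.toL] using h1
      rw [← h2]
      exact h'.1
    | succ i => exact ih h'.2 i a h1

theorem pairs_spec (p : ℕ → ℕ → ℕ → ℕ → ℕ → ℕ → Bool) (L : Rows) (h : pairs p L = true) :
    ∀ (i j : ℕ) (a b : ℕ × ℕ × ℕ × ℕ), i ≤ j → L.toL[i]? = some a → L.toL[j]? = some b →
      p a.1 a.2.1 a.2.2.1 b.1 b.2.1 b.2.2.2 = true := by
  induction L with
  | nil => intro i j a b _ h1; simp [Rows.toL] at h1
  | cons S P G R t ih =>
    have h' : ((p S P G S P R && (Rows.rec (motive := fun _ => Bool) true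
      (fun S' P' _ R' _ ih2 => and (p S P G S' P' R') ih2) t)) && pairs p t) = true := h
    rw [Bool.and_eq_true, Bool.and_eq_true] at h'
    obtain ⟨⟨h1, h2⟩, h3⟩ := h'
    intro i j a b hij hi hj
    cases i with
    | zero =>
      have ha : (S, P, G, R) = a := by simpa [Rows.toL] using hi
      rw [← ha]
      cases j with
      | zero =>
        have hb : (S, P, G, R) = b := by simpa [Rows.toL] using hj
        rw [← hb]
        exact h1
      | succ j => exact pairs_aux (fun S' P' R' => p S P G S' P' R') t h2 j b hj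
    | succ i =>
      cases j with
      | zero => omega
      | succ j => exact ih h3 i j a b (by omega) hi hj

theorem loop_spec (q : ℕ → ℕ → Bool) (L : List ℕ) : ∀ b0, loopL q L b0 = true →
    ∀ j, j < L.length → q (b0 + j) (L.getD j 0) = true := by
  induction L with
  | nil => intro b0 _ j hj; simp at hj
  | cons x L ih =>
    intro b0 h j hj
    have h' : (q b0 x && loopL q L (b0 + 1)) = true := h
    rw [Bool.and_eq_true] at h'
    cases j with
    | zero => exact h'.1
    | succ j =>
      have h1 := ih (b0 + 1) h'.2 j (by simpa using hj)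
      rw [show b0 + (j + 1) = b0 + 1 + j by omega]
      simpa using h1

theorem eOK_spec (w r hE mE e : ℕ) (E : List ℕ) : ∀ a0, eOK w r hE mE e E a0 = true →
    a0 + E.length = r ∧ (∀ a, a < E.length → dig w r mE (E.getD a 0) = true ∧
      hE + r * e ≤ lk w (E.getD a 0) (a0 + a)) ∧
    ∀ a b, a < b → b < E.length → lk w (E.getD a 0) (a0 + b) = lk w (E.getD b 0) (a0 + a) ∧
      hE ≤ lk w (E.getD a 0) (a0 + b) + e ∧ lk w (E.getD a 0) (a0 + b) ≤ hE + e := by
  induction E with
  | nil =>
    intro a0 h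
    have h' : Nat.beq a0 r = true := h
    refine ⟨Nat.eq_of_beq_eq_true h', fun a ha => by simp at ha, fun a b _ hb => by simp at hb⟩
  | cons Ea t ih =>
    intro a0 h
    have h' : (((dig w r mE Ea && Nat.ble (hE + r * e) (lk w Ea a0)) &&
      (loopL (fun b Eb => (Nat.beq (lk w Ea b) (lk w Eb a0) &&
          (Nat.ble hE (lk w Ea b + e) && Nat.ble (lk w Ea b) (hE + e)))) t (a0 + 1) &&
        eOK w r hE mE e t (a0 + 1)))) = true := h
    simp only [Bool.and_eq_true] at h'
    obtain ⟨⟨h1, h2⟩, h3, h4⟩ := h'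
    obtain ⟨h5, h6, h7⟩ := ih (a0 + 1) h4
    have h8 := loop_spec _ _ _ h3
    refine ⟨by simp; omega, fun a ha => ?_, fun a b hab hb => ?_⟩
    · cases a with
      | zero => exact ⟨h1, Nat.le_of_ble_eq_true h2⟩
      | succ a =>
        have h9 := h6 a (by simpa using ha)
        rw [show a0 + (a + 1) = a0 + 1 + a by omega]
        simpa using h9
    · cases a with
      | zero =>
        cases b with
        | zero => omega
        | succ b =>
          have h9 := h8 b (by simpa using hb)
          simp only [Bool.and_eq_true] at h9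
          obtain ⟨g1, g2, g3⟩ := h9
          rw [show a0 + (b + 1) = a0 + 1 + b by omega, Nat.add_zero]
          have g1' := Nat.eq_of_beq_eq_true g1
          have g2' := Nat.le_of_ble_eq_true g2
          have g3' := Nat.le_of_ble_eq_true g3
          simpa using ⟨g1', g2', g3'⟩
      | succ a =>
        cases b with
        | zero => omega
        | succ b =>
          have h9 := h7 a b (by omega) (by simpa using hb)
          rw [show a0 + (b + 1) = a0 + 1 + b by omega, show a0 + (a + 1) = a0 + 1 + a by omega]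
          simpa using h9

end Pool.Agent.ICyc.FlagH
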